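import Mathlib

set_option autoImplicit false

/-!
# The final algebra
-/

namespace Pool.Agent.Lib.H38.Tor

open Set

/-- `log M ≤ (10 / 9) M (M - 1) / (2 M - 1)` for `M ≥ 1`. -/
theorem log_le_frac {M : ℝ} (hM : 1 ≤ M) :
    Real.log M ≤ 10 / 9 * (M * (M - 1) / (2 * M - 1)) := by
  have hder : ∀ x ∈ Icc 1 M, HasDerivAt
      (fun x : ℝ => 10 / 9 * (x * (x - 1) / (2 * x - 1)) - Real.log x)
      (10 / 9 * ((2 * x ^ 2 - 2 * x + 1) / (2 * x - 1) ^ 2) - 1 / x) x := by
    intro x hx
    have hx1 : (1 : ℝ) ≤ x := hx.1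
    have h2 : 2 * x - 1 ≠ 0 := by linarith
    have e1 : HasDerivAt (fun x : ℝ => x * (x - 1)) (2 * x - 1) x := by
      have := (hasDerivAt_id x).mul ((hasDerivAt_id x).sub_const 1)
      refine this.congr_deriv ?_
      simp
      ring
    have e2 : HasDerivAt (fun x : ℝ => 2 * x - 1) 2 x := by
      have := ((hasDerivAt_id x).const_mul 2).sub_const 1
      simpa using this
    have e3 := ((e1.div e2 h2).const_mul (10 / 9)).sub (Real.hasDerivAt_log (by linarith : x ≠ 0))
    refine e3.congr_deriv ?_
    have : x ≠ 0 := by linarith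
    field_simp
    ring
  have hmono : MonotoneOn (fun x : ℝ => 10 / 9 * (x * (x - 1) / (2 * x - 1)) - Real.log x)
      (Icc 1 M) := by
    refine monotoneOn_of_deriv_nonneg (convex_Icc 1 M)
      (fun x hx => (hder x hx).continuousAt.continuousWithinAt)
      (fun x hx => (hder x (interior_subset hx)).differentiableAt.differentiableWithinAt)
      (fun x hx => ?_)
    rw [(hder x (interior_subset hx)).deriv]
    rw [interior_Icc] at hx
    have hx1 : 1 < x := hx.1
    have h2 : 0 < 2 * x - 1 := by linarith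
    rw [sub_nonneg, ← mul_div_assoc, div_le_div_iff₀ (by linarith) (by positivity)]
    nlinarith [mul_nonneg (by linarith : (0 : ℝ) ≤ x - 1434 / 5000) (sq_nonneg (x - 6283 / 5000))]
  have h := hmono (left_mem_Icc.2 hM) (right_mem_Icc.2 hM) hM
  simp only [sub_self, mul_zero, zero_div, Real.log_one] at h
  linarith

/-- The final step with an explicit exponent. -/
theorem final_alg2 {ω T0 μ D q : ℝ} (hω : 0 < ω) (hT0 : 0 < T0) (hμ : 0 < μ) (hD : 0 < D)
    (hq : 1 + 10 / 9 * (ω / D) ≤ q) {lam T : ℝ} (hlam : 0 ≤ lam) (hT : 0 ≤ T) (hTT : T ≤ T0)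
    (hlT : lam * T ≤ ω)
    (hlD : μ ≤ lam → (lam - μ) * D ≤ (2 * lam * μ - μ ^ 2) * (T0 - T)) :
    lam * T ^ q ≤ μ * T0 ^ q := by
  have hωD : 0 < ω / D := by positivity
  have hq1 : 0 ≤ q - 1 := by linarith
  have hqpos : 0 < q := by linarith
  rcases le_total lam μ with hcase | hcase
  · gcongr
  rcases hT.eq_or_lt with hT00 | hTpos
  · rw [← hT00, Real.zero_rpow hqpos.ne', mul_zero]
    positivity
  have hlD' := hlD hcase
  have hlampos : 0 < lam := hμ.trans_le hcase
  set x : ℝ := T / T0 with hx
  have hxpos : 0 < x := by positivity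
  have hx1 : x ≤ 1 := by rw [hx, div_le_one hT0]; exact hTT
  have hTx : T = T0 * x := by rw [hx]; field_simp
  set M : ℝ := lam / μ * x with hM
  have hMpos : 0 < M := by positivity
  have hML : M ≤ lam / μ := by
    calc M = lam / μ * x := rfl
      _ ≤ lam / μ * 1 := by gcongr
      _ = lam / μ := mul_one _
  have hL1 : 1 ≤ lam / μ := by rw [le_div_iff₀ hμ]; linarith
  have hkey : M * x ^ (q - 1) ≤ 1 := by
    rcases le_total M 1 with hM1 | hM1
    · have : x ^ (q - 1) ≤ 1 := Real.rpow_le_one hxpos.le hx1 hq1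
      have h0 : 0 ≤ x ^ (q - 1) := Real.rpow_nonneg hxpos.le _
      nlinarith
    · have hlogx : Real.log x ≤ x - 1 := Real.log_le_sub_one_of_pos hxpos
      have h1 : Real.log M ≤ (q - 1) * (1 - x) := by
        refine (log_le_frac hM1).trans ?_
        -- (1 - x) ≥ D / (μ T0) * (L - 1) / (2 L - 1)
        set L : ℝ := lam / μ with hL
        have hlamL : lam = L * μ := by rw [hL]; field_simp
        have h2L : 0 < 2 * L - 1 := by linarith
        have h2M : 0 < 2 * M - 1 := by linarith
        have e1 : (L - 1) * D ≤ (2 * L - 1) * (μ * T0 * (1 - x)) := by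
          have e2 : (lam - μ) * D = μ * ((L - 1) * D) := by rw [hlamL]; ring
          have e3 : (2 * lam * μ - μ ^ 2) * (T0 - T) =
              μ * ((2 * L - 1) * (μ * T0 * (1 - x))) := by rw [hlamL, hTx]; ring
          rw [e2, e3] at hlD'
          exact le_of_mul_le_mul_left hlD' hμ
        have e4 : μ * T0 * M ≤ ω := by
          have : lam * T = μ * T0 * M := by rw [hM, hTx, hlamL]; ring
          linarith
        have e5 : (M - 1) / (2 * M - 1) ≤ (L - 1) / (2 * L - 1) := by
          rw [div_le_div_iff₀ h2M h2L]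
          nlinarith
        have e6 : (L - 1) / (2 * L - 1) ≤ μ * T0 * (1 - x) / D := by
          rw [div_le_div_iff₀ h2L hD]
          linarith
        have e7 : M * (M - 1) / (2 * M - 1) ≤ ω / D * (1 - x) := by
          calc M * (M - 1) / (2 * M - 1) = M * ((M - 1) / (2 * M - 1)) := by ring
            _ ≤ M * (μ * T0 * (1 - x) / D) := by
                have := e5.trans e6
                gcongr
            _ = (μ * T0 * M) * ((1 - x) / D) := by ring
            _ ≤ ω * ((1 - x) / D) := by
                have : 0 ≤ (1 - x) / D := div_nonneg (by linarith) hD.le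
                gcongr
            _ = ω / D * (1 - x) := by ring
        have e8 : 0 ≤ 1 - x := by linarith
        calc 10 / 9 * (M * (M - 1) / (2 * M - 1)) ≤ 10 / 9 * (ω / D * (1 - x)) := by gcongr
          _ = (10 / 9 * (ω / D)) * (1 - x) := by ring
          _ ≤ (q - 1) * (1 - x) := by
              have : 10 / 9 * (ω / D) ≤ q - 1 := by linarith
              gcongr
      have h2 : x ^ (q - 1) ≤ Real.exp (-((q - 1) * (1 - x))) := by
        rw [Real.rpow_def_of_pos hxpos, Real.exp_le_exp]
        nlinarith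
      calc M * x ^ (q - 1) ≤ Real.exp ((q - 1) * (1 - x)) * Real.exp (-((q - 1) * (1 - x))) := by
            have h3 : M ≤ Real.exp ((q - 1) * (1 - x)) := by
              rw [← Real.exp_log hMpos]
              exact Real.exp_le_exp.2 h1
            gcongr
        _ = 1 := by rw [← Real.exp_add]; simp
  have hTq : T ^ q = T0 ^ q * (x * x ^ (q - 1)) := by
    rw [hTx, Real.mul_rpow hT0.le hxpos.le]
    congr 1
    rw [Real.rpow_sub_one hxpos.ne']
    field_simp
  rw [hTq]
  have hT0q : 0 < T0 ^ q := Real.rpow_pos_of_pos hT0 _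
  calc lam * (T0 ^ q * (x * x ^ (q - 1))) = μ * T0 ^ q * (M * x ^ (q - 1)) := by
        rw [hM]; field_simp
    _ ≤ μ * T0 ^ q * 1 := by gcongr
    _ = μ * T0 ^ q := mul_one _

end Pool.Agent.Lib.H38.Tor
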