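import Mathlib
import Pool.Agent.Lib.H38.Tor.Limit

set_option autoImplicit false

/-!
# The comparison inequality with the energy term kept
-/

namespace Pool.Agent.Lib.H38.Tor

open MeasureTheory Set Filter Topology

theorem main_limit2 {d : ℕ} (hd : 1 ≤ d) {Ω : Set (E d)} (hΩ : IsOpen Ω)
    (hvol : volume Ω = volume (Metric.ball (0 : E d) 1)) (hb : BddAbove (TorSet Ω))
    (g : ℝ → ℝ) (C : ℝ) (hg : Continuous g) (hg0 : ∀ t ∈ Icc 0 (WB d), 0 ≤ g t) (hC0 : 0 ≤ C)
    (hgC : ∀ t ∈ Icc 0 (WB d),
      sInf (RaySet Ω) * (2 * (∫ τ in (0 : ℝ)..t, g τ) * g t) - g t ^ 2 ≤ C) :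
    sInf (RaySet Ω) * (∫ t in (0 : ℝ)..WB d, 2 * (∫ τ in (0 : ℝ)..t, g τ) * g t * mB d t) -
      (∫ t in (0 : ℝ)..WB d, g t ^ 2 * mB d t) ≤ C * (TB d - sSup (TorSet Ω)) := by
  have hne : Ω.Nonempty := by
    have : Nonempty (Fin d) := ⟨⟨0, hd⟩⟩
    rw [nonempty_iff_ne_empty]
    intro h
    rw [h, measure_empty] at hvol
    exact (Metric.measure_ball_pos (volume : Measure (E d)) (0 : E d) one_pos).ne hvol
  obtain ⟨w, η, hN⟩ := exists_nearSeq hd hΩ hne hb
  set W := WB d with hWdef
  have hW : 0 < W := WB_pos hd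
  set T := sSup (TorSet Ω) with hT
  have hT0 : 0 ≤ T := sSup_nonneg'
  have hlam := sInf_ray_nonneg (Ω := Ω)
  set lam := sInf (RaySet Ω) with hlamdef
  -- the extended profile
  set gt : ℝ → ℝ := fun t => g (min (max t 0) W) * max 0 (min 1 (2 - t / W)) with hgt
  have hgtc : Continuous gt := by
    have h1 : Continuous (fun t : ℝ => g (min (max t 0) W)) := hg.comp (by fun_prop)
    have h2 : Continuous (fun t : ℝ => max 0 (min 1 (2 - t / W))) := by fun_prop
    exact h1.mul h2
  have hclamp : ∀ t : ℝ, min (max t 0) W ∈ Icc 0 W := fun t =>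
    ⟨le_min (le_max_right _ _) hW.le, min_le_right _ _⟩
  have hgt0 : ∀ t, 0 ≤ gt t := fun t => mul_nonneg (hg0 _ (hclamp t)) (le_max_left _ _)
  have hgt1 : ∀ t ∈ Icc 0 W, gt t = g t := by
    intro t ht
    have e1 : min (max t 0) W = t := by rw [max_eq_left ht.1, min_eq_left ht.2]
    have e2 : max 0 (min 1 (2 - t / W)) = 1 := by
      have : t / W ≤ 1 := by rw [div_le_one hW]; exact ht.2
      rw [min_eq_left (by linarith), max_eq_right zero_le_one]
    rw [hgt]
    simp only
    rw [e1, e2, mul_one]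
  have hgt2 : ∀ t, 2 * W ≤ t → gt t = 0 := by
    intro t ht
    have e2 : max 0 (min 1 (2 - t / W)) = 0 := by
      have : 2 ≤ t / W := by rw [le_div_iff₀ hW]; exact ht
      exact max_eq_left ((min_le_right _ _).trans (by linarith))
    rw [hgt]
    simp only
    rw [e2, mul_zero]
  obtain ⟨K, hK⟩ := (isCompact_Icc (a := (0 : ℝ)) (b := W)).exists_bound_of_continuousOn
    hg.continuousOn
  have hK0 : 0 ≤ K := (norm_nonneg _).trans (hK 0 ⟨le_rfl, hW.le⟩)
  have hgtK : ∀ t, gt t ≤ K := by
    intro t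
    have h1 := hK _ (hclamp t)
    rw [Real.norm_eq_abs, abs_of_nonneg (hg0 _ (hclamp t))] at h1
    have h2 : max 0 (min 1 (2 - t / W)) ≤ 1 := max_le zero_le_one (min_le_left _ _)
    calc gt t = g (min (max t 0) W) * max 0 (min 1 (2 - t / W)) := rfl
      _ ≤ K * 1 := by gcongr
      _ = K := mul_one K
  -- primitives agree on [0, W]
  have hPr : ∀ t ∈ Icc 0 W, Pr gt t = ∫ τ in (0 : ℝ)..t, g τ := by
    intro t ht
    unfold Pr
    refine intervalIntegral.integral_congr (fun τ hτ => ?_)
    rw [uIcc_of_le ht.1] at hτ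
    exact hgt1 τ ⟨hτ.1, hτ.2.trans ht.2⟩
  -- energy side
  set G : ℝ → ℝ := fun t => gt t ^ 2 with hG
  have hGc : Continuous G := hgtc.pow 2
  have hG0 : ∀ t, 0 ≤ G t := fun t => sq_nonneg _
  have hGK : ∀ t, G t ≤ K ^ 2 := fun t => by
    rw [hG]
    exact pow_le_pow_left₀ (hgt0 t) (hgtK t) 2
  have hPrG : ∀ y, Pr G y ≤ Pr G (min (max y 0) (2 * W)) := by
    intro y
    rcases le_total y 0 with h | h
    · rw [max_eq_right h, min_eq_left (by positivity)]
      exact Pr_mono hGc h (fun t _ => hG0 t)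
    · rw [max_eq_left h]
      rcases le_total y (2 * W) with h2 | h2
      · rw [min_eq_left h2]
      · rw [min_eq_right h2]
        have := Pr_sub hGc (2 * W) y
        have e : (∫ τ in (2 * W)..y, G τ) = 0 := by
          have : ∀ τ ∈ uIcc (2 * W) y, G τ = (fun _ => (0 : ℝ)) τ := by
            intro τ hτ
            rw [uIcc_of_le h2] at hτ
            simp only [hG]
            rw [hgt2 τ hτ.1]
            norm_num
          rw [intervalIntegral.integral_congr this]
          simp
        linarith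
  have hex : ∀ n (L : ℝ), 0 ≤ L →
      IntervalIntegrable (fun t => max (mm (w n) t - mB d t) 0) volume 0 L := by
    intro n L hL
    have h1 := (((hN.hw n).mm_ii1 hL).sub ((mB_cont d).intervalIntegrable 0 L))
    have h2 : (fun t => max (mm (w n) t - mB d t) 0) =
        fun t => (mm (w n) t - mB d t + |mm (w n) t - mB d t|) / 2 := by
      funext t
      rcases le_total 0 (mm (w n) t - mB d t) with h | h
      · rw [max_eq_left h, abs_of_nonneg h]; ring
      · rw [max_eq_right h, abs_of_nonpos h]; ring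
    rw [h2]
    exact (h1.add h1.abs).div_const 2
  have hupper : ∀ n, dir (fun x => Pr gt (w n x)) ≤ (∫ t in (0 : ℝ)..W, g t ^ 2 * mm (w n) t) +
      K ^ 2 * (∫ t in (0 : ℝ)..(2 * W), max (mm (w n) t - mB d t) 0) +
        √(η n * (K ^ 4 * T)) := by
    intro n
    have hwn := hN.hw n
    have e1 : dir (fun x => Pr gt (w n x)) = ∫ x, G (w n x) * ‖fderiv ℝ (w n) x‖ ^ 2 := by
      unfold dir
      refine integral_congr_ae (Eventually.of_forall (fun x => ?_))
      simp only
      rw [hwn.norm_fderiv_pr hgtc, mul_pow, sq_abs]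
    have e2 := first_variation hd hb hwn (hN.hJ n) hGc
    have e3 : (∫ x, G (w n x) ^ 2 * ‖fderiv ℝ (w n) x‖ ^ 2) ≤ K ^ 4 * T := by
      have h1 := energy_le hwn (G := fun t => G t ^ 2) (hGc.pow 2) (K := K ^ 4) (fun t => by
        have := pow_le_pow_left₀ (hG0 t) (hGK t) 2
        calc G t ^ 2 ≤ (K ^ 2) ^ 2 := this
          _ = K ^ 4 := by ring)
      refine h1.trans ?_
      have := hN.hdir n
      gcongr
    have e4 : (∫ x, G (w n x) * ‖fderiv ℝ (w n) x‖ ^ 2) - (∫ x, Pr G (w n x)) ≤
        √(η n * (K ^ 4 * T)) := by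
      apply Real.le_sqrt_of_sq_le
      refine e2.trans ?_
      have := hN.hη0 n
      gcongr
    have e5 : (∫ x, Pr G (w n x)) ≤ ∫ t in (0 : ℝ)..(2 * W), G t * mm (w n) t := by
      rw [← layer hwn hGc (show 0 ≤ 2 * W by positivity)]
      refine integral_mono (hwn.pr hGc).int ?_ (fun x => hPrG (w n x))
      exact hwn.int_comp (F := fun y => Pr G (min (max y 0) (2 * W)))
        ((Pr_continuous hGc).comp (by fun_prop)) (by
          simp only [max_self]
          rw [min_eq_left (by positivity)]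
          exact Pr_zero G)
    have e6 : (∫ t in (0 : ℝ)..(2 * W), G t * mm (w n) t) ≤
        (∫ t in (0 : ℝ)..W, g t ^ 2 * mm (w n) t) +
          K ^ 2 * (∫ t in (0 : ℝ)..(2 * W), max (mm (w n) t - mB d t) 0) := by
      have i2 := hwn.mm_ii hGc (show 0 ≤ 2 * W by positivity)
      have i1 := hwn.mm_ii hGc hW.le
      have i3 : IntervalIntegrable (fun t => G t * mm (w n) t) volume W (2 * W) :=
        i1.symm.trans i2
      rw [← intervalIntegral.integral_add_adjacent_intervals i1 i3]
      have f1 : (∫ t in (0 : ℝ)..W, G t * mm (w n) t) = ∫ t in (0 : ℝ)..W, g t ^ 2 * mm (w n) t := by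
        refine intervalIntegral.integral_congr (fun t ht => ?_)
        rw [uIcc_of_le hW.le] at ht
        simp only [hG]
        rw [hgt1 t ht]
      have j1 := hex n W hW.le
      have j2 := hex n (2 * W) (by positivity)
      have j3 : IntervalIntegrable (fun t => max (mm (w n) t - mB d t) 0) volume W (2 * W) :=
        j1.symm.trans j2
      have f2 : (∫ t in W..(2 * W), G t * mm (w n) t) ≤
          K ^ 2 * (∫ t in W..(2 * W), max (mm (w n) t - mB d t) 0) := by
        rw [← intervalIntegral.integral_const_mul]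
        refine intervalIntegral.integral_mono_on (by linarith) i3 (j3.const_mul _) (fun t ht => ?_)
        have e0 : mB d t = 0 := mB_zero_of_ge hd ht.1
        have e1 := mm_nonneg (w n) t
        rw [e0, sub_zero, max_eq_left e1]
        exact mul_le_mul_of_nonneg_right (hGK t) e1
      have f3 : 0 ≤ K ^ 2 * (∫ t in (0 : ℝ)..W, max (mm (w n) t - mB d t) 0) :=
        mul_nonneg (by positivity)
          (intervalIntegral.integral_nonneg hW.le (fun t _ => le_max_right _ _))
      rw [← intervalIntegral.integral_add_adjacent_intervals j1 j3, f1]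
      linarith
    linarith
  -- mass side
  set G2 : ℝ → ℝ := fun t => 2 * Pr gt t * gt t with hG2
  have hG2c : Continuous G2 := by
    have := Pr_continuous hgtc
    fun_prop
  have hPrG2 : ∀ y, Pr G2 y = Pr gt y ^ 2 := by
    intro y
    have h1 : ∀ t ∈ uIcc 0 y, HasDerivAt (fun t => Pr gt t ^ 2) (G2 t) t := by
      intro t _
      have := (Pr_hasDerivAt hgtc t).pow 2
      convert! this using 1
      simp only [hG2]
      ring
    have h2 := intervalIntegral.integral_eq_sub_of_hasDerivAt h1 (hG2c.intervalIntegrable _ _)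
    unfold Pr at h2 ⊢
    rw [h2]
    simp
  have hlow : ∀ n, (∫ t in (0 : ℝ)..W, G2 t * mm (w n) t) ≤ ∫ x, (Pr gt (w n x)) ^ 2 := by
    intro n
    have hwn := hN.hw n
    rw [← layer hwn hG2c hW.le]
    refine integral_mono ?_ (hwn.pr hgtc).int_sq (fun x => ?_)
    · exact hwn.int_comp (F := fun y => Pr G2 (min (max y 0) W))
        ((Pr_continuous hG2c).comp (by fun_prop)) (by
          simp only [max_self]
          rw [min_eq_left (by positivity)]
          exact Pr_zero G2)
    · simp only
      rw [hPrG2]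
      rcases le_total (w n x) 0 with h | h
      · rw [max_eq_right h, min_eq_left hW.le, Pr_zero, zero_pow two_ne_zero]
        positivity
      · rw [max_eq_left h]
        have h0 : 0 ≤ Pr gt (min (w n x) W) := by
          rw [← Pr_zero gt]
          exact Pr_mono hgtc (le_min h hW.le) (fun t _ => hgt0 t)
        have h1 : Pr gt (min (w n x) W) ≤ Pr gt (w n x) :=
          Pr_mono hgtc (min_le_left _ _) (fun t _ => hgt0 t)
        gcongr
  -- the combined weight
  set H : ℝ → ℝ := fun t => lam * G2 t - G t with hH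
  have hHc : Continuous H := (hG2c.const_mul lam).sub hGc
  obtain ⟨M, hM⟩ := (isCompact_Icc (a := (0 : ℝ)) (b := W)).exists_bound_of_continuousOn
    hHc.continuousOn
  have hM0 : 0 ≤ M := (norm_nonneg _).trans (hM 0 ⟨le_rfl, hW.le⟩)
  have hHC : ∀ t ∈ Icc 0 W, H t ≤ C := by
    intro t ht
    have := hgC t ht
    simp only [hH, hG2, hG]
    rw [hgt1 t ht, hPr t ht]
    exact this
  have hcomb : ∀ n, (∫ t in (0 : ℝ)..W, H t * mB d t) -
      C * (TB d - T + η n + (∫ x, max (w n x - W) 0) +
        ∫ t in (0 : ℝ)..W, max (mm (w n) t - mB d t) 0) -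
      M * (∫ t in (0 : ℝ)..W, max (mm (w n) t - mB d t) 0) ≤
      K ^ 2 * (∫ t in (0 : ℝ)..(2 * W), max (mm (w n) t - mB d t) 0) +
        √(η n * (K ^ 4 * T)) := by
    intro n
    have hwn := hN.hw n
    have h1 := ray_le (Ω := Ω) (hwn.pr hgtc)
    have h2 := mul_le_mul_of_nonneg_left (hlow n) hlam
    have h3 := hupper n
    have hiH := hwn.mm_ii hHc hW.le
    have hi2 : IntervalIntegrable (fun t => H t * mB d t) volume 0 W :=
      (hHc.mul (mB_cont d)).intervalIntegrable _ _
    have hi3 : IntervalIntegrable (fun t => max (mB d t - mm (w n) t) 0) volume 0 W := by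
      have h1 := ((mB_cont d).intervalIntegrable (μ := volume) 0 W).sub (hwn.mm_ii1 hW.le)
      have h2 : (fun t => max (mB d t - mm (w n) t) 0) =
          fun t => (mB d t - mm (w n) t + |mB d t - mm (w n) t|) / 2 := by
        funext t
        rcases le_total 0 (mB d t - mm (w n) t) with h | h
        · rw [max_eq_left h, abs_of_nonneg h]; ring
        · rw [max_eq_right h, abs_of_nonpos h]; ring
      rw [h2]
      exact (h1.add h1.abs).div_const 2
    have hi4 := hex n W hW.le
    have e3 : (∫ t in (0 : ℝ)..W, H t * mB d t) -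
        C * (∫ t in (0 : ℝ)..W, max (mB d t - mm (w n) t) 0) -
        M * (∫ t in (0 : ℝ)..W, max (mm (w n) t - mB d t) 0) ≤
        ∫ t in (0 : ℝ)..W, H t * mm (w n) t := by
      rw [← intervalIntegral.integral_const_mul, ← intervalIntegral.integral_const_mul,
        ← intervalIntegral.integral_sub hi2 (hi3.const_mul C),
        ← intervalIntegral.integral_sub (hi2.sub (hi3.const_mul C)) (hi4.const_mul M)]
      refine intervalIntegral.integral_mono_on hW.le
        ((hi2.sub (hi3.const_mul C)).sub (hi4.const_mul M)) hiH (fun t ht => ?_)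
      have f1 := hHC t ht
      have f2 := hM t ht
      rw [Real.norm_eq_abs] at f2
      have f3 := neg_abs_le (H t)
      rcases le_total (mm (w n) t) (mB d t) with h | h
      · rw [max_eq_left (by linarith : (0 : ℝ) ≤ mB d t - mm (w n) t),
          max_eq_right (by linarith : mm (w n) t - mB d t ≤ 0)]
        nlinarith
      · rw [max_eq_right (by linarith : mB d t - mm (w n) t ≤ 0),
          max_eq_left (by linarith : (0 : ℝ) ≤ mm (w n) t - mB d t)]
        nlinarith
    have e4 := deficit_le hd hN n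
    have e5 := mul_le_mul_of_nonneg_left e4 hC0
    have e6 : (∫ t in (0 : ℝ)..W, H t * mm (w n) t) =
        lam * (∫ t in (0 : ℝ)..W, G2 t * mm (w n) t) - ∫ t in (0 : ℝ)..W, g t ^ 2 * mm (w n) t := by
      have k1 : IntervalIntegrable (fun t => g t ^ 2 * mm (w n) t) volume 0 W :=
        hwn.mm_ii (g := fun t => g t ^ 2) (hg.pow 2) hW.le
      rw [← intervalIntegral.integral_const_mul, ← intervalIntegral.integral_sub
        ((hwn.mm_ii hG2c hW.le).const_mul lam) k1]
      refine intervalIntegral.integral_congr (fun t ht => ?_)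
      rw [uIcc_of_le hW.le] at ht
      simp only [hH, hG]
      rw [hgt1 t ht]
      ring
    linarith
  have hl : Tendsto (fun n => (∫ t in (0 : ℝ)..W, H t * mB d t) -
      C * (TB d - T + η n + (∫ x, max (w n x - W) 0) +
        ∫ t in (0 : ℝ)..W, max (mm (w n) t - mB d t) 0) -
      M * (∫ t in (0 : ℝ)..W, max (mm (w n) t - mB d t) 0)) atTop
      (𝓝 ((∫ t in (0 : ℝ)..W, H t * mB d t) - C * (TB d - T + 0 + 0 + 0) - M * 0)) := by
    refine (tendsto_const_nhds.sub (Tendsto.const_mul _ ?_)).sub
      (Tendsto.const_mul _ (tendsto_pp hd hb hvol hN hW.le))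
    exact ((tendsto_const_nhds.add hN.hη).add (tendsto_tail hd hb hvol hN)).add
      (tendsto_pp hd hb hvol hN hW.le)
  have hr : Tendsto (fun n =>
      K ^ 2 * (∫ t in (0 : ℝ)..(2 * W), max (mm (w n) t - mB d t) 0) +
        √(η n * (K ^ 4 * T))) atTop
      (𝓝 (K ^ 2 * 0 + √(0 * (K ^ 4 * T)))) := by
    refine (((tendsto_pp hd hb hvol hN (by positivity)).const_mul _)).add ?_
    exact (Real.continuous_sqrt.tendsto _).comp (hN.hη.mul_const _)
  have hfin := le_of_tendsto_of_tendsto' hl hr hcomb
  have e7 : (∫ t in (0 : ℝ)..W, H t * mB d t) =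
      lam * (∫ t in (0 : ℝ)..W, 2 * (∫ τ in (0 : ℝ)..t, g τ) * g t * mB d t) -
        ∫ t in (0 : ℝ)..W, g t ^ 2 * mB d t := by
    have i1 : IntervalIntegrable (fun t => G2 t * mB d t) volume 0 W :=
      (hG2c.mul (mB_cont d)).intervalIntegrable _ _
    have i2 : IntervalIntegrable (fun t => g t ^ 2 * mB d t) volume 0 W :=
      ((hg.pow 2).mul (mB_cont d)).intervalIntegrable _ _
    have e8 : (∫ t in (0 : ℝ)..W, G2 t * mB d t) =
        ∫ t in (0 : ℝ)..W, 2 * (∫ τ in (0 : ℝ)..t, g τ) * g t * mB d t := by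
      refine intervalIntegral.integral_congr (fun t ht => ?_)
      rw [uIcc_of_le hW.le] at ht
      simp only [hG2]
      rw [hgt1 t ht, hPr t ht]
    rw [← e8, ← intervalIntegral.integral_const_mul, ← intervalIntegral.integral_sub
      (i1.const_mul lam) i2]
    refine intervalIntegral.integral_congr (fun t ht => ?_)
    rw [uIcc_of_le hW.le] at ht
    simp only [hH, hG]
    rw [hgt1 t ht]
    ring
  rw [e7] at hfin
  simp only [zero_mul, Real.sqrt_zero, mul_zero, add_zero, sub_zero] at hfin
  linarith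

end Pool.Agent.Lib.H38.Tor
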