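import Mathlib
import Pool.Agent.Lib.H38.Tor.Radial

set_option autoImplicit false

/-!
# Estimates for the radial eigenfunction of the ball

`ψ (ρ ^ 2)` is the radial eigenfunction. With `φ s = (1 - s) exp (-d s / 4)` one has
`4 s φ'' + 2 d φ' = - V φ`, `V s = 2 d + d ^ 2 / 2 - d ^ 2 s / 4`, and the Wronskian of `ψ` and `φ`
shows that `ψ ≥ ψ 0 * φ` on `[0, 1]`.
-/

namespace Pool.Agent.Lib.H38.Tor

open MeasureTheory Set

/-- comparison function -/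
noncomputable def cmp (D s : ℝ) : ℝ := (1 - s) * Real.exp (-(D / 4 * s))

/-- its derivative -/
noncomputable def cmp' (D s : ℝ) : ℝ := (-1 - D / 4 * (1 - s)) * Real.exp (-(D / 4 * s))

/-- its second derivative -/
noncomputable def cmp'' (D s : ℝ) : ℝ := (D / 2 + D ^ 2 / 16 * (1 - s)) * Real.exp (-(D / 4 * s))

lemma exp_der (D s : ℝ) : HasDerivAt (fun s : ℝ => Real.exp (-(D / 4 * s)))
    (Real.exp (-(D / 4 * s)) * (-(D / 4))) s := by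
  have h1 : HasDerivAt (fun s : ℝ => -(D / 4 * s)) (-(D / 4)) s := by
    have := ((hasDerivAt_id s).const_mul (D / 4)).neg
    simp only [id, mul_one] at this
    exact this
  exact h1.exp

lemma cmp_der (D s : ℝ) : HasDerivAt (cmp D) (cmp' D s) s := by
  have h1 : HasDerivAt (fun s : ℝ => 1 - s) (-1) s := by
    simpa using (hasDerivAt_id s).const_sub 1
  have h := h1.mul (exp_der D s)
  refine h.congr_deriv ?_
  unfold cmp'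
  ring

lemma cmp'_der (D s : ℝ) : HasDerivAt (cmp' D) (cmp'' D s) s := by
  have h1 : HasDerivAt (fun s : ℝ => -1 - D / 4 * (1 - s)) (D / 4) s := by
    have : HasDerivAt (fun s : ℝ => 1 - s) (-1) s := by
      simpa using (hasDerivAt_id s).const_sub 1
    have h2 := (this.const_mul (D / 4)).const_sub (-1)
    refine h2.congr_deriv ?_
    ring
  have h := h1.mul (exp_der D s)
  refine h.congr_deriv ?_
  unfold cmp''
  ring

/-- the potential -/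
noncomputable def VV (D s : ℝ) : ℝ := 2 * D + D ^ 2 / 2 - D ^ 2 / 4 * s

lemma cmp_ode (D s : ℝ) : 4 * s * cmp'' D s + 2 * D * cmp' D s + VV D s * cmp D s = 0 := by
  unfold cmp cmp' cmp'' VV
  ring

lemma cmp_pos {D s : ℝ} (hs : s < 1) : 0 < cmp D s := by
  unfold cmp
  have : 0 < 1 - s := by linarith
  positivity

section
variable {n : ℕ} {μ : ℝ} {ψ ψ' ψ'' : ℝ → ℝ}

lemma comp_sq {f f' : ℝ → ℝ} (h : ∀ s, HasDerivAt f (f' s) s) (ρ : ℝ) :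
    HasDerivAt (fun ρ : ℝ => f (ρ ^ 2)) (f' (ρ ^ 2) * (2 * ρ)) ρ :=
  ((h (ρ ^ 2)).comp ρ (hasDerivAt_pow 2 ρ)).congr_deriv (by simp)

lemma pow_der (n : ℕ) (ρ : ℝ) :
    HasDerivAt (fun ρ : ℝ => ρ ^ (n + 1)) (((n : ℝ) + 1) * ρ ^ n) ρ := by
  have := hasDerivAt_pow (n + 1) ρ
  simpa using this

/-- `(ρ ^ d ψ'(ρ ^ 2))' = - (μ / 2) ρ ^ (d - 1) ψ (ρ ^ 2)`. -/
lemma flux_der (h : Radial (n + 1) μ ψ ψ' ψ'') (ρ : ℝ) :
    HasDerivAt (fun ρ : ℝ => ρ ^ (n + 1) * ψ' (ρ ^ 2)) (-(μ / 2 * (ρ ^ n * ψ (ρ ^ 2)))) ρ := by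
  refine ((pow_der n ρ).mul (comp_sq h.h2 ρ)).congr_deriv ?_
  have hode := h.ode (ρ ^ 2)
  push_cast at hode
  linear_combination (ρ ^ n / 2) * hode

lemma psi_anti (h : Radial (n + 1) μ ψ ψ' ψ'') (hneg : ∀ s ∈ Icc (0 : ℝ) 1, ψ' s < 0) :
    AntitoneOn ψ (Icc 0 1) := by
  refine antitoneOn_of_deriv_nonpos (convex_Icc 0 1)
    (fun s _ => (h.h1 s).continuousAt.continuousWithinAt)
    (fun s _ => (h.h1 s).differentiableAt.differentiableWithinAt) (fun s hs => ?_)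
  rw [interior_Icc] at hs
  rw [(h.h1 s).deriv]
  exact (hneg s ⟨hs.1.le, hs.2.le⟩).le

/-- the gradient is maximal in modulus (per radius) at the centre -/
theorem grad_le (h : Radial (n + 1) μ ψ ψ' ψ'') (hμ : 0 < μ)
    (hneg : ∀ s ∈ Icc (0 : ℝ) 1, ψ' s < 0) {s : ℝ} (hs : s ∈ Icc (0 : ℝ) 1) :
    -(2 * ((n + 1 : ℕ) : ℝ) * ψ' s) ≤ μ * ψ 0 := by
  rcases hs.1.eq_or_lt with h0 | h0
  · have hode := h.ode 0
    rw [← h0]
    linarith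
  set r := √s with hr
  have hr2 : r ^ 2 = s := Real.sq_sqrt h0.le
  have hrpos : 0 < r := Real.sqrt_pos.2 h0
  have hr1 : r ≤ 1 := by
    rw [hr]
    exact Real.sqrt_le_one.2 hs.2
  -- the function `ρ ^ d (ψ' (ρ ^ 2) + μ ψ 0 / (2 d))` is nondecreasing
  have hd0 : (0 : ℝ) < (n : ℝ) + 1 := by positivity
  have hmono : MonotoneOn (fun ρ : ℝ => ρ ^ (n + 1) * ψ' (ρ ^ 2) +
      μ * ψ 0 / (2 * ((n : ℝ) + 1)) * ρ ^ (n + 1)) (Icc 0 r) := by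
    have hder : ∀ ρ : ℝ, HasDerivAt (fun ρ : ℝ => ρ ^ (n + 1) * ψ' (ρ ^ 2) +
        μ * ψ 0 / (2 * ((n : ℝ) + 1)) * ρ ^ (n + 1))
        (-(μ / 2 * (ρ ^ n * ψ (ρ ^ 2))) + μ * ψ 0 / (2 * ((n : ℝ) + 1)) *
          (((n : ℝ) + 1) * ρ ^ n)) ρ := fun ρ =>
      (flux_der h ρ).add ((pow_der n ρ).const_mul _)
    refine monotoneOn_of_deriv_nonneg (convex_Icc 0 r)
      (fun ρ _ => (hder ρ).continuousAt.continuousWithinAt)
      (fun ρ _ => (hder ρ).differentiableAt.differentiableWithinAt) (fun ρ hρ => ?_)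
    rw [interior_Icc] at hρ
    rw [(hder ρ).deriv]
    have hρ1 : ρ ^ 2 ∈ Icc (0 : ℝ) 1 := ⟨by positivity, by nlinarith [hρ.1, hρ.2]⟩
    have h1 := psi_anti h hneg (left_mem_Icc.2 zero_le_one) hρ1 hρ1.1
    have e : -(μ / 2 * (ρ ^ n * ψ (ρ ^ 2))) + μ * ψ 0 / (2 * ((n : ℝ) + 1)) *
          (((n : ℝ) + 1) * ρ ^ n) = μ / 2 * ρ ^ n * (ψ 0 - ψ (ρ ^ 2)) := by
      field_simp
      ring
    rw [e]
    have : 0 < ρ := hρ.1
    have h2 : 0 ≤ ψ 0 - ψ (ρ ^ 2) := by linarith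
    positivity
  have h1 := hmono (left_mem_Icc.2 hrpos.le) (right_mem_Icc.2 hrpos.le) hrpos.le
  simp only [zero_pow (Nat.succ_ne_zero n), zero_mul, mul_zero, add_zero] at h1
  rw [hr2] at h1
  have h2 : 0 ≤ r ^ (n + 1) * (ψ' s + μ * ψ 0 / (2 * ((n : ℝ) + 1))) := by linarith
  have h3 : 0 ≤ ψ' s + μ * ψ 0 / (2 * ((n : ℝ) + 1)) := by
    by_contra hcon
    push Not at hcon
    have := mul_neg_of_pos_of_neg (pow_pos hrpos (n + 1)) hcon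
    linarith
  have h4 : (2 * ((n : ℝ) + 1)) * (ψ' s + μ * ψ 0 / (2 * ((n : ℝ) + 1))) =
      2 * ((n : ℝ) + 1) * ψ' s + μ * ψ 0 := by field_simp
  have h5 : 0 ≤ (2 * ((n : ℝ) + 1)) * (ψ' s + μ * ψ 0 / (2 * ((n : ℝ) + 1))) := by positivity
  push_cast
  linarith

/-- the Wronskian -/
lemma wron_der (h : Radial (n + 1) μ ψ ψ' ψ'') (ρ : ℝ) :
    HasDerivAt (fun ρ : ℝ => ρ ^ (n + 1) *
        (cmp (n + 1) (ρ ^ 2) * ψ' (ρ ^ 2) - ψ (ρ ^ 2) * cmp' (n + 1) (ρ ^ 2)))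
      (ρ ^ n / 2 * cmp (n + 1) (ρ ^ 2) * ψ (ρ ^ 2) * (VV (n + 1) (ρ ^ 2) - μ)) ρ := by
  have h1 := (comp_sq (cmp_der (n + 1)) ρ).mul (comp_sq h.h2 ρ)
  have h2 := (comp_sq h.h1 ρ).mul (comp_sq (cmp'_der (n + 1)) ρ)
  have h3 := (pow_der n ρ).mul (h1.sub h2)
  refine h3.congr_deriv ?_
  simp only [Pi.mul_apply, Pi.sub_apply]
  have hode := h.ode (ρ ^ 2)
  push_cast at hode
  have hc := cmp_ode ((n : ℝ) + 1) (ρ ^ 2)
  linear_combination (ρ ^ n / 2 * cmp (n + 1) (ρ ^ 2)) * hode - (ρ ^ n / 2 * ψ (ρ ^ 2)) * hc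

/-- lower bound for the eigenfunction -/
theorem psi_ge (h : Radial (n + 1) μ ψ ψ' ψ'') (h1 : ψ 1 = 0)
    (hpos : ∀ s ∈ Ico (0 : ℝ) 1, 0 < ψ s) {s : ℝ} (hs : s ∈ Icc (0 : ℝ) 1) :
    ψ 0 * cmp (n + 1) s ≤ ψ s := by
  set Wr : ℝ → ℝ := fun ρ : ℝ => ρ ^ (n + 1) *
        (cmp (n + 1) (ρ ^ 2) * ψ' (ρ ^ 2) - ψ (ρ ^ 2) * cmp' (n + 1) (ρ ^ 2)) with hWr
  have hder : ∀ ρ : ℝ, HasDerivAt Wr
      (ρ ^ n / 2 * cmp (n + 1) (ρ ^ 2) * ψ (ρ ^ 2) * (VV (n + 1) (ρ ^ 2) - μ)) ρ := wron_der h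
  have hW0 : Wr 0 = 0 := by simp [hWr]
  have hW1 : Wr 1 = 0 := by simp [hWr, h1, cmp]
  have hc : ∀ S : Set ℝ, ContinuousOn Wr S := fun S ρ _ => (hder ρ).continuousAt.continuousWithinAt
  obtain ⟨c, hc01, hc0⟩ := exists_hasDerivAt_eq_zero (f := Wr) (zero_lt_one' ℝ) (hc _)
    (by rw [hW0, hW1]) (fun ρ _ => hder ρ)
  have hcpos : 0 < c := hc01.1
  have hc1 : c < 1 := hc01.2
  have hsq1 : ∀ ρ : ℝ, 0 < ρ → ρ < 1 → ρ ^ 2 < 1 := fun ρ h0 h1 => by nlinarith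
  have hpp : ∀ ρ : ℝ, 0 < ρ → ρ < 1 → 0 < ρ ^ n / 2 * cmp (n + 1) (ρ ^ 2) * ψ (ρ ^ 2) := by
    intro ρ h0 h1
    have e1 := cmp_pos (D := (n : ℝ) + 1) (hsq1 ρ h0 h1)
    have e2 := hpos (ρ ^ 2) ⟨by positivity, hsq1 ρ h0 h1⟩
    positivity
  have hμV : μ = VV (n + 1) (c ^ 2) := by
    have := hpp c hcpos hc1
    rcases mul_eq_zero.1 hc0 with h2 | h2
    · exact absurd h2 this.ne'
    · linarith
  have hWnn : ∀ ρ ∈ Icc (0 : ℝ) 1, 0 ≤ Wr ρ := by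
    intro ρ hρ
    rcases le_total ρ c with h2 | h2
    · have hm : MonotoneOn Wr (Icc 0 c) := by
        refine monotoneOn_of_deriv_nonneg (convex_Icc 0 c) (hc _)
          (fun ρ _ => (hder ρ).differentiableAt.differentiableWithinAt) (fun τ hτ => ?_)
        rw [interior_Icc] at hτ
        rw [(hder τ).deriv]
        refine mul_nonneg (hpp τ hτ.1 (hτ.2.trans hc1)).le ?_
        rw [hμV]
        unfold VV
        have : τ ^ 2 ≤ c ^ 2 := by nlinarith [hτ.1, hτ.2]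
        have : 0 ≤ ((n : ℝ) + 1) ^ 2 / 4 * (c ^ 2 - τ ^ 2) := by
          have : 0 ≤ c ^ 2 - τ ^ 2 := by linarith
          positivity
        linarith
      have := hm (left_mem_Icc.2 hcpos.le) ⟨hρ.1, h2⟩ hρ.1
      rwa [hW0] at this
    · have hm : AntitoneOn Wr (Icc c 1) := by
        refine antitoneOn_of_deriv_nonpos (convex_Icc c 1) (hc _)
          (fun ρ _ => (hder ρ).differentiableAt.differentiableWithinAt) (fun τ hτ => ?_)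
        rw [interior_Icc] at hτ
        rw [(hder τ).deriv]
        refine mul_nonpos_of_nonneg_of_nonpos (hpp τ (hcpos.trans hτ.1) hτ.2).le ?_
        rw [hμV]
        unfold VV
        have : c ^ 2 ≤ τ ^ 2 := by nlinarith [hτ.1, hτ.2]
        have : 0 ≤ ((n : ℝ) + 1) ^ 2 / 4 * (τ ^ 2 - c ^ 2) := by
          have : 0 ≤ τ ^ 2 - c ^ 2 := by linarith
          positivity
        linarith
      have := hm ⟨h2, hρ.2⟩ (right_mem_Icc.2 hc1.le) hρ.2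
      rwa [hW1] at this
  rcases hs.2.eq_or_lt with hs1 | hs1
  · rw [hs1, h1]
    simp [cmp]
  -- the quotient is nondecreasing
  have hq : MonotoneOn (fun s => ψ s / cmp (n + 1) s) (Icc 0 s) := by
    have hqd : ∀ τ ∈ Icc (0 : ℝ) s, HasDerivAt (fun s => ψ s / cmp (n + 1) s)
        ((ψ' τ * cmp (n + 1) τ - ψ τ * cmp' (n + 1) τ) / cmp (n + 1) τ ^ 2) τ := by
      intro τ hτ
      exact (h.h1 τ).div (cmp_der (n + 1) τ) (cmp_pos (hτ.2.trans_lt hs1)).ne'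
    refine monotoneOn_of_deriv_nonneg (convex_Icc 0 s)
      (fun τ hτ => (hqd τ hτ).continuousAt.continuousWithinAt)
      (fun τ hτ => (hqd τ (interior_subset hτ)).differentiableAt.differentiableWithinAt)
      (fun τ hτ => ?_)
    rw [(hqd τ (interior_subset hτ)).deriv]
    rw [interior_Icc] at hτ
    refine div_nonneg ?_ (sq_nonneg _)
    have hr2 : √τ ^ 2 = τ := Real.sq_sqrt hτ.1.le
    have hrpos : 0 < √τ := Real.sqrt_pos.2 hτ.1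
    have hr1 : √τ ≤ 1 := Real.sqrt_le_one.2 (hτ.2.trans hs1).le
    have h2 := hWnn (√τ) ⟨hrpos.le, hr1⟩
    simp only [hWr, hr2] at h2
    have h3 : 0 ≤ cmp (↑n + 1) τ * ψ' τ - ψ τ * cmp' (↑n + 1) τ := by
      by_contra hcon
      push Not at hcon
      have := mul_neg_of_pos_of_neg (pow_pos hrpos (n + 1)) hcon
      linarith
    linarith
  have h2 := hq (left_mem_Icc.2 hs.1) (right_mem_Icc.2 hs.1) hs.1
  simp only at h2
  have h3 : cmp ((n : ℝ) + 1) 0 = 1 := by simp [cmp]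
  rw [h3, div_one, le_div_iff₀ (cmp_pos hs1)] at h2
  exact h2

/-- the mass in polar coordinates -/
lemma mass_eq (h : Radial (n + 1) μ ψ ψ' ψ'') (h1 : ψ 1 = 0) :
    ∫ t in (0 : ℝ)..WB (n + 1), 2 * ψ (1 - 2 * ((n + 1 : ℕ) : ℝ) * t) *
        (-(2 * ((n + 1 : ℕ) : ℝ) * ψ' (1 - 2 * ((n + 1 : ℕ) : ℝ) * t))) * mB (n + 1) t =
      omega (n + 1) * ∫ ρ in (0 : ℝ)..1, ((n : ℝ) + 1) * (ρ ^ n * ψ (ρ ^ 2) ^ 2) := by
  have cψ : Continuous ψ := continuous_iff_continuousAt.mpr fun s => (h.h1 s).continuousAt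
  have cψ' : Continuous ψ' := continuous_iff_continuousAt.mpr fun s => (h.h2 s).continuousAt
  rw [subst_radial (d := n + 1) (by omega)
    (g := fun t => 2 * ψ (1 - 2 * ((n + 1 : ℕ) : ℝ) * t) *
      (-(2 * ((n + 1 : ℕ) : ℝ) * ψ' (1 - 2 * ((n + 1 : ℕ) : ℝ) * t)))) (by fun_prop)]
  have hs : ∀ ρ : ℝ, 1 - 2 * ((n + 1 : ℕ) : ℝ) * ((1 - ρ ^ 2) / (2 * ((n + 1 : ℕ) : ℝ))) = ρ ^ 2 := by
    intro ρ; field_simp; ring
  simp only [hs]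
  have I2 : ∫ ρ in (0 : ℝ)..1, (4 * ρ ^ (n + 2) * (ψ (ρ ^ 2) * ψ' (ρ ^ 2)) +
      ((n : ℝ) + 1) * (ρ ^ n * ψ (ρ ^ 2) ^ 2)) = 0 := by
    have hder : ∀ ρ ∈ uIcc (0 : ℝ) 1, HasDerivAt
        (fun ρ : ℝ => ψ (ρ ^ 2) * ψ (ρ ^ 2) * ρ ^ (n + 1))
        (4 * ρ ^ (n + 2) * (ψ (ρ ^ 2) * ψ' (ρ ^ 2)) +
      ((n : ℝ) + 1) * (ρ ^ n * ψ (ρ ^ 2) ^ 2)) ρ := by
      intro ρ _
      refine (((comp_sq h.h1 ρ).mul (comp_sq h.h1 ρ)).mul (pow_der n ρ)).congr_deriv ?_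
      simp only [Pi.mul_apply]
      ring
    rw [intervalIntegral.integral_eq_sub_of_hasDerivAt hder
      (by apply Continuous.intervalIntegrable; fun_prop)]
    simp [h1]
  have i2 : IntervalIntegrable (fun ρ : ℝ => ((n : ℝ) + 1) * (ρ ^ n * ψ (ρ ^ 2) ^ 2)) volume 0 1 := by
    apply Continuous.intervalIntegrable; fun_prop
  have i3 : IntervalIntegrable (fun ρ : ℝ => 4 * ρ ^ (n + 2) * (ψ (ρ ^ 2) * ψ' (ρ ^ 2))) volume 0 1 := by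
    apply Continuous.intervalIntegrable; fun_prop
  rw [intervalIntegral.integral_add i3 i2] at I2
  have R : ∫ ρ in (0 : ℝ)..1, 2 * ψ (ρ ^ 2) * (-(2 * ((n + 1 : ℕ) : ℝ) * ψ' (ρ ^ 2))) *
      (omega (n + 1) * ρ ^ (n + 1)) * (ρ / ((n + 1 : ℕ) : ℝ)) =
      -omega (n + 1) * ∫ ρ in (0 : ℝ)..1, 4 * ρ ^ (n + 2) * (ψ (ρ ^ 2) * ψ' (ρ ^ 2)) := by
    rw [← intervalIntegral.integral_const_mul]
    apply intervalIntegral.integral_congr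
    intro ρ _
    have : ((n : ℝ) + 1) ≠ 0 := by positivity
    simp only
    push_cast
    field_simp
    ring
  rw [R]
  linear_combination (-omega (n + 1)) * I2

lemma alg_F (n : ℕ) {ρ R N : ℝ} (hR : R ≠ 0) (h : R ^ 2 = 2 - ρ ^ 2) (h1 : N + 1 ≠ 0)
    (h3 : N + 3 ≠ 0) :
    (2 * (1 - ρ ^ 2) * (-(2 * ρ)) * (ρ ^ (n + 1) * R ^ (n + 1)) +
      (1 - ρ ^ 2) ^ 2 * ((N + 1) * ρ ^ n * R ^ (n + 1) + ρ ^ (n + 1) *
        ((N + 1) * R ^ n * (-ρ / R)))) / (N + 1) +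
      2 * ((N + 3) * ρ ^ (n + 2) * R ^ (n + 3) + ρ ^ (n + 3) *
        ((N + 3) * R ^ (n + 2) * (-ρ / R))) / ((N + 1) * (N + 3)) =
      2 * (1 - ρ ^ 2) ^ 3 * ρ ^ n * R ^ (n + 1) / (2 - ρ ^ 2) := by
  obtain ⟨S, hS⟩ : ∃ S, R ^ n = S * R := ⟨R ^ n / R, by field_simp⟩
  have hR2 : (2 - ρ ^ 2) ≠ 0 := by rw [← h]; positivity
  have e1 : R ^ (n + 1) = S * (2 - ρ ^ 2) := by rw [pow_succ, hS, ← h]; ring
  have e3 : R ^ (n + 3) = S * (2 - ρ ^ 2) ^ 2 := by rw [pow_add, hS, ← h]; ring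
  have e0 : R ^ n * (-ρ / R) = -(ρ * S) := by rw [hS]; field_simp
  have e2 : R ^ (n + 2) * (-ρ / R) = -(ρ * S * (2 - ρ ^ 2)) := by
    rw [pow_add, hS, ← h]; field_simp
  have f1 : ρ ^ (n + 1) * ((N + 1) * R ^ n * (-ρ / R)) = ρ ^ (n + 1) * (N + 1) * (-(ρ * S)) := by
    rw [← e0]; ring
  have f2 : ρ ^ (n + 3) * ((N + 3) * R ^ (n + 2) * (-ρ / R)) =
      ρ ^ (n + 3) * (N + 3) * (-(ρ * S * (2 - ρ ^ 2))) := by
    rw [← e2]; ring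
  rw [f1, f2, e1, e3]
  field_simp
  ring

/-- the explicit integral -/
lemma explicit_int (n : ℕ) : 2 * Real.exp (-(((n : ℝ) + 1) / 2)) / ((n : ℝ) + 3) ≤
    ∫ ρ in (0 : ℝ)..1, ((n : ℝ) + 1) * (ρ ^ n * cmp (n + 1) (ρ ^ 2) ^ 2) := by
  have hn : (0 : ℝ) < (n : ℝ) + 1 := by positivity
  have hn3 : (0 : ℝ) < (n : ℝ) + 3 := by positivity
  -- antiderivative
  set F : ℝ → ℝ := fun ρ => (1 - ρ ^ 2) ^ 2 * (ρ ^ (n + 1) * √(2 - ρ ^ 2) ^ (n + 1)) / ((n : ℝ) + 1) +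
    2 * (ρ ^ (n + 3) * √(2 - ρ ^ 2) ^ (n + 3)) / (((n : ℝ) + 1) * ((n : ℝ) + 3)) with hF
  set f : ℝ → ℝ := fun ρ => 2 * (1 - ρ ^ 2) ^ 3 * ρ ^ n * √(2 - ρ ^ 2) ^ (n + 1) / (2 - ρ ^ 2) with hf
  have hR : ∀ ρ ∈ Icc (0 : ℝ) 1, 0 < 2 - ρ ^ 2 := by
    intro ρ hρ
    nlinarith [hρ.1, hρ.2]
  have hRd : ∀ ρ ∈ Icc (0 : ℝ) 1, HasDerivAt (fun ρ : ℝ => √(2 - ρ ^ 2)) (-ρ / √(2 - ρ ^ 2)) ρ := by
    intro ρ hρ
    have h1 : HasDerivAt (fun ρ : ℝ => 2 - ρ ^ 2) (-(2 * ρ)) ρ := by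
      have := (hasDerivAt_pow 2 ρ).const_sub 2
      simpa using this
    have h2 := h1.sqrt (hR ρ hρ).ne'
    refine h2.congr_deriv ?_
    have := Real.sqrt_pos.2 (hR ρ hρ)
    field_simp
  have hFd : ∀ ρ ∈ uIcc (0 : ℝ) 1, HasDerivAt F (f ρ) ρ := by
    intro ρ hρ
    rw [uIcc_of_le zero_le_one] at hρ
    have hRpos := Real.sqrt_pos.2 (hR ρ hρ)
    have hRsq : √(2 - ρ ^ 2) ^ 2 = 2 - ρ ^ 2 := Real.sq_sqrt (hR ρ hρ).le
    have hx : HasDerivAt (fun ρ : ℝ => (1 - ρ ^ 2) ^ 2) (2 * (1 - ρ ^ 2) * (-(2 * ρ))) ρ := by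
      have h1 : HasDerivAt (fun ρ : ℝ => 1 - ρ ^ 2) (-(2 * ρ)) ρ := by
        have := (hasDerivAt_pow 2 ρ).const_sub 1
        simpa using this
      have := h1.pow 2
      refine this.congr_deriv ?_
      simp
    have hR1 : HasDerivAt (fun ρ : ℝ => √(2 - ρ ^ 2) ^ (n + 1))
        (((n : ℝ) + 1) * √(2 - ρ ^ 2) ^ n * (-ρ / √(2 - ρ ^ 2))) ρ := by
      have := (hRd ρ hρ).pow (n + 1)
      refine this.congr_deriv ?_
      push_cast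
      simp
    have hR3 : HasDerivAt (fun ρ : ℝ => √(2 - ρ ^ 2) ^ (n + 3))
        (((n : ℝ) + 3) * √(2 - ρ ^ 2) ^ (n + 2) * (-ρ / √(2 - ρ ^ 2))) ρ := by
      have := (hRd ρ hρ).pow (n + 3)
      refine this.congr_deriv ?_
      push_cast
      simp
    have hp3 : HasDerivAt (fun ρ : ℝ => ρ ^ (n + 3)) (((n : ℝ) + 3) * ρ ^ (n + 2)) ρ := by
      have := hasDerivAt_pow (n + 3) ρ
      refine this.congr_deriv ?_
      push_cast
      simp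
    have h1 := (hx.mul ((pow_der n ρ).mul hR1)).div_const ((n : ℝ) + 1)
    have h2 := ((hp3.mul hR3).const_mul 2).div_const (((n : ℝ) + 1) * ((n : ℝ) + 3))
    refine (h1.add h2).congr_deriv ?_
    simp only [hf, Pi.mul_apply]
    exact alg_F n hRpos.ne' hRsq hn.ne' hn3.ne'
  have hRc : Continuous (fun ρ : ℝ => √(2 - ρ ^ 2)) := by fun_prop
  have hfi : IntervalIntegrable f volume 0 1 := by
    apply ContinuousOn.intervalIntegrable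
    rw [uIcc_of_le zero_le_one]
    refine ContinuousOn.div (by fun_prop) (by fun_prop) (fun ρ hρ => (hR ρ hρ).ne')
  have hint := intervalIntegral.integral_eq_sub_of_hasDerivAt hFd hfi
  have hF1 : F 1 = 2 / (((n : ℝ) + 1) * ((n : ℝ) + 3)) := by
    simp only [hF]
    norm_num
  have hF0 : F 0 = 0 := by simp [hF]
  rw [hF1, hF0, sub_zero] at hint
  have hle : (∫ ρ in (0 : ℝ)..1, ((n : ℝ) + 1) * Real.exp (-(((n : ℝ) + 1) / 2)) * f ρ) ≤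
      ∫ ρ in (0 : ℝ)..1, ((n : ℝ) + 1) * (ρ ^ n * cmp (n + 1) (ρ ^ 2) ^ 2) := by
    refine intervalIntegral.integral_mono_on zero_le_one (hfi.const_mul _) ?_ (fun ρ hρ => ?_)
    · apply Continuous.intervalIntegrable
      unfold cmp
      fun_prop
    · have hRp := hR ρ hρ
      have hRpos := Real.sqrt_pos.2 hRp
      have hRsq : √(2 - ρ ^ 2) ^ 2 = 2 - ρ ^ 2 := Real.sq_sqrt hRp.le
      have hx : 0 ≤ 1 - ρ ^ 2 := by nlinarith [hρ.1, hρ.2]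
      have hρ0 := hρ.1
      -- `√(2 - ρ²) ≤ exp ((1 - ρ²) / 2)`
      have hRe : √(2 - ρ ^ 2) ≤ Real.exp ((1 - ρ ^ 2) / 2) := by
        apply Real.sqrt_le_iff.2 ⟨(Real.exp_pos _).le, ?_⟩
        rw [← Real.exp_nat_mul]
        have := Real.add_one_le_exp (1 - ρ ^ 2)
        have e : ((2 : ℕ) : ℝ) * ((1 - ρ ^ 2) / 2) = 1 - ρ ^ 2 := by push_cast; ring
        rw [e]
        linarith
      have hRe2 : √(2 - ρ ^ 2) ^ (n + 1) ≤ Real.exp (((n : ℝ) + 1) * ((1 - ρ ^ 2) / 2)) := by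
        have := pow_le_pow_left₀ hRpos.le hRe (n + 1)
        rw [← Real.exp_nat_mul] at this
        push_cast at this
        exact this
      have h2 : 2 * (1 - ρ ^ 2) / (2 - ρ ^ 2) ≤ 1 := by
        rw [div_le_one hRp]
        nlinarith
      have e1 : cmp ((n : ℝ) + 1) (ρ ^ 2) ^ 2 = (1 - ρ ^ 2) ^ 2 *
          (Real.exp (-(((n : ℝ) + 1) / 2)) * Real.exp (((n : ℝ) + 1) * ((1 - ρ ^ 2) / 2))) := by
        unfold cmp
        rw [mul_pow, ← Real.exp_nat_mul, ← Real.exp_add]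
        congr 2
        push_cast
        ring
      have e2 : f ρ = (2 * (1 - ρ ^ 2) / (2 - ρ ^ 2)) * ((1 - ρ ^ 2) ^ 2 * ρ ^ n *
          √(2 - ρ ^ 2) ^ (n + 1)) := by
        simp only [hf]
        field_simp
      rw [e1, e2]
      have h3 : (2 * (1 - ρ ^ 2) / (2 - ρ ^ 2)) * ((1 - ρ ^ 2) ^ 2 * ρ ^ n *
          √(2 - ρ ^ 2) ^ (n + 1)) ≤ 1 * ((1 - ρ ^ 2) ^ 2 * ρ ^ n *
            Real.exp (((n : ℝ) + 1) * ((1 - ρ ^ 2) / 2))) := by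
        gcongr
      calc ((n : ℝ) + 1) * Real.exp (-(((n : ℝ) + 1) / 2)) * ((2 * (1 - ρ ^ 2) / (2 - ρ ^ 2)) *
            ((1 - ρ ^ 2) ^ 2 * ρ ^ n * √(2 - ρ ^ 2) ^ (n + 1))) ≤
          ((n : ℝ) + 1) * Real.exp (-(((n : ℝ) + 1) / 2)) * (1 * ((1 - ρ ^ 2) ^ 2 * ρ ^ n *
            Real.exp (((n : ℝ) + 1) * ((1 - ρ ^ 2) / 2)))) := by gcongr
        _ = _ := by ring
  rw [intervalIntegral.integral_const_mul, hint] at hle
  refine le_trans (le_of_eq ?_) hle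
  field_simp

/-- lower bound for the mass of the eigenfunction -/
theorem mass_ge_explicit (h : Radial (n + 1) μ ψ ψ' ψ'') (h1 : ψ 1 = 0)
    (hpos : ∀ s ∈ Ico (0 : ℝ) 1, 0 < ψ s) (hω : 0 < omega (n + 1)) :
    omega (n + 1) * ψ 0 ^ 2 * (2 * Real.exp (-(((n : ℝ) + 1) / 2)) / ((n : ℝ) + 3)) ≤
    ∫ t in (0 : ℝ)..WB (n + 1), 2 * ψ (1 - 2 * ((n + 1 : ℕ) : ℝ) * t) *
        (-(2 * ((n + 1 : ℕ) : ℝ) * ψ' (1 - 2 * ((n + 1 : ℕ) : ℝ) * t))) * mB (n + 1) t := by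
  have cψ : Continuous ψ := continuous_iff_continuousAt.mpr fun s => (h.h1 s).continuousAt
  have h0 : 0 < ψ 0 := hpos 0 ⟨le_rfl, one_pos⟩
  rw [mass_eq h h1, mul_assoc]
  refine mul_le_mul_of_nonneg_left ?_ hω.le
  calc ψ 0 ^ 2 * (2 * Real.exp (-(((n : ℝ) + 1) / 2)) / ((n : ℝ) + 3)) ≤
      ψ 0 ^ 2 * ∫ ρ in (0 : ℝ)..1, ((n : ℝ) + 1) * (ρ ^ n * cmp (n + 1) (ρ ^ 2) ^ 2) := by
        have := explicit_int n
        gcongr
    _ = ∫ ρ in (0 : ℝ)..1, ψ 0 ^ 2 * (((n : ℝ) + 1) * (ρ ^ n * cmp (n + 1) (ρ ^ 2) ^ 2)) := by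
        rw [← intervalIntegral.integral_const_mul]
    _ ≤ _ := by
        refine intervalIntegral.integral_mono_on zero_le_one ?_ ?_ (fun ρ hρ => ?_)
        · apply Continuous.intervalIntegrable
          unfold cmp
          fun_prop
        · apply Continuous.intervalIntegrable
          fun_prop
        · have hρ1 : ρ ^ 2 ∈ Icc (0 : ℝ) 1 := ⟨by positivity, by nlinarith [hρ.1, hρ.2]⟩
          have h2 := psi_ge h h1 hpos hρ1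
          have h3 : 0 ≤ cmp ((n : ℝ) + 1) (ρ ^ 2) := by
            unfold cmp
            have : 0 ≤ 1 - ρ ^ 2 := by linarith [hρ1.2]
            positivity
          have h4 : (ψ 0 * cmp ((n : ℝ) + 1) (ρ ^ 2)) ^ 2 ≤ ψ (ρ ^ 2) ^ 2 :=
            pow_le_pow_left₀ (by positivity) h2 2
          have hρ0 := hρ.1
          calc ψ 0 ^ 2 * (((n : ℝ) + 1) * (ρ ^ n * cmp (n + 1) (ρ ^ 2) ^ 2)) =
              ((n : ℝ) + 1) * (ρ ^ n * (ψ 0 * cmp (n + 1) (ρ ^ 2)) ^ 2) := by ring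
            _ ≤ _ := by gcongr

end

end Pool.Agent.Lib.H38.Tor
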