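import Mathlib
import Pool.Agent.Lib.H38.Tor.Final
import Pool.Agent.Lib.H38.Tor2.Limit2
import Pool.Agent.Lib.H38.Tor2.Prof
import Pool.Agent.Lib.H38.Tor2.Alg

set_option autoImplicit false

/-!
# The threshold in terms of the mass of the first eigenfunction of the ball
-/

namespace Pool.Agent.Lib.H38.Tor

open MeasureTheory Set Filter Topology

/-- `x ↦ ψ (|x|^2)` is the first eigenfunction of the unit ball of `ℝ^(n+1)`. -/
structure Eig (n : ℕ) (μ : ℝ) (ψ ψ' ψ'' : ℝ → ℝ) : Prop where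
  rad : Radial (n + 1) μ ψ ψ' ψ''
  mu : 0 < μ
  one : ψ 1 = 0
  pos : ∀ s ∈ Ico (0 : ℝ) 1, 0 < ψ s
  neg : ∀ s ∈ Icc (0 : ℝ) 1, ψ' s < 0

theorem exists_eig (n : ℕ) : ∃ (μ : ℝ) (ψ ψ' ψ'' : ℝ → ℝ), Eig n μ ψ ψ' ψ'' := by
  have hd : 1 ≤ n + 1 := by omega
  have hballne : (Metric.ball (0 : E (n + 1)) 1).Nonempty := ⟨0, Metric.mem_ball_self one_pos⟩
  obtain ⟨Λ, hΛmem⟩ := raySet_nonempty (d := n + 1) Metric.isOpen_ball hballne
  obtain ⟨μ, ψ, ψ', ψ'', hμ, hrad, hψ1, hψpos, hψ'neg⟩ := exists_radial hd (Λ := Λ)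
    (fun μ ψ ψ' ψ'' h hpos => ray_ge hd h hpos Λ hΛmem)
  exact ⟨μ, ψ, ψ', ψ'', hrad, hμ, hψ1, hψpos, hψ'neg⟩

/-- The mass ratio of the first eigenfunction. -/
noncomputable def Mr (n : ℕ) (ψ : ℝ → ℝ) : ℝ :=
  (∫ ρ in (0 : ℝ)..1, ((n : ℝ) + 1) * (ρ ^ n * ψ (ρ ^ 2) ^ 2)) / ψ 0 ^ 2

section
variable {n : ℕ} {μ : ℝ} {ψ ψ' ψ'' : ℝ → ℝ}

lemma Eig.psi0 (h : Eig n μ ψ ψ' ψ'') : 0 < ψ 0 := h.pos 0 ⟨le_rfl, one_pos⟩

lemma Eig.cont (h : Eig n μ ψ ψ' ψ'') : Continuous ψ :=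
  continuous_iff_continuousAt.mpr fun s => (h.rad.h1 s).continuousAt

lemma Eig.int_pos (h : Eig n μ ψ ψ' ψ'') :
    0 < ∫ ρ in (0 : ℝ)..1, ((n : ℝ) + 1) * (ρ ^ n * ψ (ρ ^ 2) ^ 2) := by
  have cψ := h.cont
  refine intervalIntegral.intervalIntegral_pos_of_pos_on ?_ (fun ρ hρ => ?_) one_pos
  · apply Continuous.intervalIntegrable
    fun_prop
  · have h1 : ρ ^ 2 < 1 := by nlinarith [hρ.1, hρ.2]
    have h2 := h.pos (ρ ^ 2) ⟨by positivity, h1⟩
    have := hρ.1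
    positivity

lemma Eig.Mr_pos (h : Eig n μ ψ ψ' ψ'') : 0 < Mr n ψ := by
  have h1 := h.int_pos
  have h2 := h.psi0
  unfold Mr
  positivity

/-- the key inequality -/
theorem Eig.key (h : Eig n μ ψ ψ' ψ'') {Ω : Set (E (n + 1))} (hΩ : IsOpen Ω)
    (hvol : volume Ω = volume (Metric.ball (0 : E (n + 1)) 1)) (hb : BddAbove (TorSet Ω))
    (hμlam : μ ≤ sInf (RaySet Ω)) :
    (sInf (RaySet Ω) - μ) * (omega (n + 1) * Mr n ψ) ≤
      (2 * sInf (RaySet Ω) * μ - μ ^ 2) * (TB (n + 1) - sSup (TorSet Ω)) := by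
  obtain ⟨d, hdn⟩ : ∃ d, d = n + 1 := ⟨_, rfl⟩
  have hd : 1 ≤ n + 1 := by omega
  have hμ := h.mu
  have hψ0 := h.psi0
  have hrad := h.rad
  have hω := omega_pos hd
  have hd' : (1 : ℝ) ≤ ((n + 1 : ℕ) : ℝ) := by exact_mod_cast hd
  set g : ℝ → ℝ := fun t => -(2 * ((n + 1 : ℕ) : ℝ) * ψ' (1 - 2 * ((n + 1 : ℕ) : ℝ) * t)) with hg
  have hψ'c : Continuous ψ' := continuous_iff_continuousAt.2 fun s => (hrad.h2 s).continuousAt
  have hψc : Continuous ψ := h.cont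
  have hgc : Continuous g := by
    have : Continuous (fun t : ℝ => ψ' (1 - 2 * ((n + 1 : ℕ) : ℝ) * t)) := hψ'c.comp (by fun_prop)
    exact (this.const_mul _).neg
  have hmem : ∀ t ∈ Icc 0 (WB (n + 1)), 1 - 2 * ((n + 1 : ℕ) : ℝ) * t ∈ Icc (0 : ℝ) 1 := by
    intro t ht
    have h1 : 2 * ((n + 1 : ℕ) : ℝ) * t ≤ 1 := by
      have := ht.2
      unfold WB at this
      rw [le_div_iff₀ (by positivity)] at this
      linarith
    have h2 : 0 ≤ 2 * ((n + 1 : ℕ) : ℝ) * t := by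
      have := ht.1
      positivity
    exact ⟨by linarith, by linarith⟩
  have hgpos : ∀ t ∈ Icc 0 (WB (n + 1)), 0 < g t := by
    intro t ht
    have := h.neg _ (hmem t ht)
    rw [hg]
    simp only
    have h2 : 0 < 2 * ((n + 1 : ℕ) : ℝ) := by linarith
    nlinarith
  have hgle : ∀ t ∈ Icc 0 (WB (n + 1)), g t ≤ μ * ψ 0 := fun t ht =>
    grad_le hrad hμ h.neg (hmem t ht)
  have hψle : ∀ t ∈ Icc 0 (WB (n + 1)), ψ (1 - 2 * ((n + 1 : ℕ) : ℝ) * t) ≤ ψ 0 := fun t ht =>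
    psi_anti hrad h.neg (left_mem_Icc.2 zero_le_one) (hmem t ht) (hmem t ht).1
  have hψnn : ∀ t ∈ Icc 0 (WB (n + 1)), 0 ≤ ψ (1 - 2 * ((n + 1 : ℕ) : ℝ) * t) := by
    intro t ht
    have := psi_anti hrad h.neg (hmem t ht) (right_mem_Icc.2 zero_le_one) (hmem t ht).2
    rwa [h.one] at this
  have hPr : ∀ t : ℝ, (∫ τ in (0 : ℝ)..t, g τ) = ψ (1 - 2 * ((n + 1 : ℕ) : ℝ) * t) := by
    intro t
    have h1 : ∀ τ ∈ uIcc 0 t, HasDerivAt (fun τ => ψ (1 - 2 * ((n + 1 : ℕ) : ℝ) * τ)) (g τ) τ := by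
      intro τ _
      have h2 : HasDerivAt (fun τ : ℝ => 1 - 2 * ((n + 1 : ℕ) : ℝ) * τ)
          (-(2 * ((n + 1 : ℕ) : ℝ))) τ := by
        have := ((hasDerivAt_id τ).const_mul (2 * ((n + 1 : ℕ) : ℝ))).const_sub 1
        simpa using this
      have h3 := (hrad.h1 (1 - 2 * ((n + 1 : ℕ) : ℝ) * τ)).comp τ h2
      convert! h3 using 1
      rw [hg]
      ring
    rw [intervalIntegral.integral_eq_sub_of_hasDerivAt h1 (hgc.intervalIntegrable _ _)]
    simp [h.one]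
  set D : ℝ := ∫ t in (0 : ℝ)..WB (n + 1),
    2 * ψ (1 - 2 * ((n + 1 : ℕ) : ℝ) * t) *
      (-(2 * ((n + 1 : ℕ) : ℝ) * ψ' (1 - 2 * ((n + 1 : ℕ) : ℝ) * t))) * mB (n + 1) t with hD
  have hA : (∫ t in (0 : ℝ)..WB (n + 1), g t ^ 2 * mB (n + 1) t) = μ * D :=
    radial_identity hd hrad h.one
  have hDM : D = omega (n + 1) * Mr n ψ * ψ 0 ^ 2 := by
    rw [hD, mass_eq hrad h.one]
    unfold Mr
    field_simp
  set lam := sInf (RaySet Ω) with hlamdef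
  have hlampos : 0 < lam := hμ.trans_le hμlam
  have h3 := main_limit2 hd hΩ hvol hb g ((2 * lam * μ - μ ^ 2) * ψ 0 ^ 2) hgc
    (fun t ht => (hgpos t ht).le)
    (mul_nonneg (by nlinarith : 0 ≤ 2 * lam * μ - μ ^ 2) (sq_nonneg (ψ 0)))
    (fun t ht => by
      rw [hPr t]
      have e1 := hgle t ht
      have e2 := hψle t ht
      have e3 := (hgpos t ht).le
      have e4 := hψnn t ht
      have e5 : lam * (2 * ψ (1 - 2 * ((n + 1 : ℕ) : ℝ) * t) * g t) ≤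
        lam * (2 * ψ 0 * g t) := by gcongr
      have e6 : lam * (2 * ψ 0 * g t) - g t ^ 2 ≤ (2 * lam * μ - μ ^ 2) * ψ 0 ^ 2 := by
        have f1 : (2 * lam * μ - μ ^ 2) * ψ 0 ^ 2 - (lam * (2 * ψ 0 * g t) - g t ^ 2) =
            (μ * ψ 0 - g t) * (2 * lam * ψ 0 - μ * ψ 0 - g t) := by ring
        have f2 : 0 ≤ μ * ψ 0 - g t := by linarith
        have f3 : 0 ≤ 2 * lam * ψ 0 - μ * ψ 0 - g t := by nlinarith
        have := mul_nonneg f2 f3
        linarith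
      linarith)
  rw [hA] at h3
  have h4 : (∫ t in (0 : ℝ)..WB (n + 1), 2 * (∫ τ in (0 : ℝ)..t, g τ) * g t * mB (n + 1) t) = D := by
    rw [hD]
    refine intervalIntegral.integral_congr (fun t _ => ?_)
    rw [hPr t]
  rw [h4, hDM] at h3
  have hψsq : 0 < ψ 0 ^ 2 := by positivity
  refine le_of_mul_le_mul_right (a := ψ 0 ^ 2) ?_ hψsq
  linarith

/-- torsional rigidity of the unit ball -/
theorem ball_tor (n : ℕ) : sSup (TorSet (Metric.ball (0 : E (n + 1)) 1)) = TB (n + 1) := by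
  have hd : 1 ≤ n + 1 := by omega
  exact le_antisymm (main_limit hd Metric.isOpen_ball rfl (torB_bdd hd)).1 (torB_ge hd)

/-- first eigenvalue of the unit ball -/
theorem Eig.ball_ray (h : Eig n μ ψ ψ' ψ'') :
    sInf (RaySet (Metric.ball (0 : E (n + 1)) 1)) = μ := by
  have hd : 1 ≤ n + 1 := by omega
  have hω := omega_pos hd
  have hballne : (Metric.ball (0 : E (n + 1)) 1).Nonempty := ⟨0, Metric.mem_ball_self one_pos⟩
  have hμle : μ ≤ sInf (RaySet (Metric.ball (0 : E (n + 1)) 1)) :=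
    le_csInf (raySet_nonempty (d := n + 1) Metric.isOpen_ball hballne) (ray_ge hd h.rad h.pos)
  have h1 := h.key Metric.isOpen_ball rfl (torB_bdd hd) hμle
  rw [ball_tor, sub_self, mul_zero] at h1
  have h2 := h.Mr_pos
  have h3 : 0 < omega (n + 1) * Mr n ψ := by positivity
  refine le_antisymm ?_ hμle
  by_contra hcon
  push Not at hcon
  have : 0 < (sInf (RaySet (Metric.ball (0 : E (n + 1)) 1)) - μ) * (omega (n + 1) * Mr n ψ) :=
    mul_pos (by linarith) h3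
  linarith

/-- For sets of the volume of the unit ball, with the threshold in terms of `Mr`. -/
theorem Eig.unit_case (h : Eig n μ ψ ψ' ψ'') {q : ℝ} (hq : 1 + 10 / 9 * (1 / Mr n ψ) ≤ q)
    {Ω : Set (E (n + 1))} (hΩ : IsOpen Ω)
    (hvol : volume Ω = volume (Metric.ball (0 : E (n + 1)) 1)) :
      sInf (RaySet Ω) * (sSup (TorSet Ω)) ^ q ≤
        sInf (RaySet (Metric.ball (0 : E (n + 1)) 1)) *
          (sSup (TorSet (Metric.ball (0 : E (n + 1)) 1))) ^ q := by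
  have hd : 1 ≤ n + 1 := by omega
  have hω := omega_pos hd
  have hM := h.Mr_pos
  have hμ := h.mu
  have hTB : 0 < TB (n + 1) := by unfold TB; positivity
  have hqpos : 0 < q := by
    refine lt_of_lt_of_le ?_ hq
    positivity
  rw [h.ball_ray, ball_tor]
  by_cases hb : BddAbove (TorSet Ω)
  · obtain ⟨h1, -⟩ := main_limit hd hΩ hvol hb
    have h5 := ray_mul_tor_le hΩ (by rw [hvol]; exact measure_ball_lt_top)
    rw [hvol] at h5
    refine final_alg2 (ω := omega (n + 1)) (T0 := TB (n + 1)) (D := omega (n + 1) * Mr n ψ)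
      hω hTB hμ (by positivity) ?_ sInf_ray_nonneg sSup_nonneg' h1 h5 (fun hμlam =>
        h.key hΩ hvol hb hμlam)
    have e : omega (n + 1) / (omega (n + 1) * Mr n ψ) = 1 / Mr n ψ := by field_simp
    rw [e]
    exact hq
  · rw [Real.sSup_of_not_bddAbove hb, Real.zero_rpow hqpos.ne', mul_zero]
    positivity

end

end Pool.Agent.Lib.H38.Tor
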