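import Mathlib
import Pool.Agent.Lib.H38.Tor2.Key

set_option autoImplicit false

/-!
# Comparison functions for the first eigenfunction of the ball
-/

namespace Pool.Agent.Lib.H38.Tor

open MeasureTheory Set Filter Topology

section
variable {n : ℕ} {μ : ℝ} {ψ ψ' ψ'' : ℝ → ℝ}

/-- The Wronskian with a comparison function. -/
noncomputable def Wr (n : ℕ) (ψ ψ' φ φ' : ℝ → ℝ) (ρ : ℝ) : ℝ :=
  ρ ^ (n + 1) * (φ (ρ ^ 2) * ψ' (ρ ^ 2) - ψ (ρ ^ 2) * φ' (ρ ^ 2))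

lemma comp_sq_at {f : ℝ → ℝ} {f1 ρ : ℝ} (h : HasDerivAt f f1 (ρ ^ 2)) :
    HasDerivAt (fun ρ : ℝ => f (ρ ^ 2)) (f1 * (2 * ρ)) ρ := by
  have h2 : HasDerivAt (fun ρ : ℝ => ρ ^ 2) (2 * ρ) ρ := by simpa using hasDerivAt_pow 2 ρ
  exact HasDerivAt.comp (h₂ := f) (h := fun ρ : ℝ => ρ ^ 2) ρ h h2

lemma Wr_der (h : Eig n μ ψ ψ' ψ'') {φ φ' φ'' V : ℝ → ℝ} {ρ : ℝ}
    (h1 : HasDerivAt φ (φ' (ρ ^ 2)) (ρ ^ 2)) (h2 : HasDerivAt φ' (φ'' (ρ ^ 2)) (ρ ^ 2))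
    (hode : 4 * ρ ^ 2 * φ'' (ρ ^ 2) + 2 * ((n : ℝ) + 1) * φ' (ρ ^ 2) +
      V (ρ ^ 2) * φ (ρ ^ 2) = 0) :
    HasDerivAt (Wr n ψ ψ' φ φ') (ρ ^ n / 2 * φ (ρ ^ 2) * ψ (ρ ^ 2) * (V (ρ ^ 2) - μ)) ρ := by
  have e1 := (comp_sq_at h1).mul (comp_sq h.rad.h2 ρ)
  have e2 := (comp_sq h.rad.h1 ρ).mul (comp_sq_at h2)
  have e3 := (pow_der n ρ).mul (e1.sub e2)
  refine e3.congr_deriv ?_
  simp only [Pi.mul_apply, Pi.sub_apply]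
  have hode' := h.rad.ode (ρ ^ 2)
  push_cast at hode'
  linear_combination (ρ ^ n / 2 * φ (ρ ^ 2)) * hode' - (ρ ^ n / 2 * ψ (ρ ^ 2)) * hode

/-- Upper bound by a supersolution on an initial interval. -/
theorem Eig.upper (h : Eig n μ ψ ψ' ψ'') {χ χ' χ'' V : ℝ → ℝ} {s1 : ℝ} (hs1 : s1 ≤ 1)
    (h1 : ∀ s ∈ Ico (0 : ℝ) s1, HasDerivAt χ (χ' s) s)
    (h2 : ∀ s ∈ Ico (0 : ℝ) s1, HasDerivAt χ' (χ'' s) s)
    (hode : ∀ s ∈ Ico (0 : ℝ) s1, 4 * s * χ'' s + 2 * ((n : ℝ) + 1) * χ' s + V s * χ s = 0)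
    (hpos : ∀ s ∈ Ico (0 : ℝ) s1, 0 < χ s) (hV : ∀ s ∈ Ico (0 : ℝ) s1, V s ≤ μ)
    {s : ℝ} (hs : s ∈ Ico (0 : ℝ) s1) : ψ s * χ 0 ≤ ψ 0 * χ s := by
  have hs10 : 0 < s1 := hs.1.trans_lt hs.2
  have hsq : ∀ ρ ∈ Icc (0 : ℝ) (√s), ρ ^ 2 ∈ Ico (0 : ℝ) s1 := by
    intro ρ hρ
    refine ⟨by positivity, ?_⟩
    have : ρ ^ 2 ≤ s := by
      have := pow_le_pow_left₀ hρ.1 hρ.2 2
      rwa [Real.sq_sqrt hs.1] at this
    linarith [hs.2]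
  have hder : ∀ ρ ∈ Icc (0 : ℝ) (√s), HasDerivAt (Wr n ψ ψ' χ χ')
      (ρ ^ n / 2 * χ (ρ ^ 2) * ψ (ρ ^ 2) * (V (ρ ^ 2) - μ)) ρ := fun ρ hρ =>
    Wr_der h (h1 _ (hsq ρ hρ)) (h2 _ (hsq ρ hρ)) (hode _ (hsq ρ hρ))
  have hanti : AntitoneOn (Wr n ψ ψ' χ χ') (Icc 0 (√s)) := by
    refine antitoneOn_of_deriv_nonpos (convex_Icc _ _)
      (fun ρ hρ => (hder ρ hρ).continuousAt.continuousWithinAt)
      (fun ρ hρ => (hder ρ (interior_subset hρ)).differentiableAt.differentiableWithinAt)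
      (fun ρ hρ => ?_)
    have hρ' := interior_subset hρ
    rw [(hder ρ hρ').deriv]
    have e1 := hpos _ (hsq ρ hρ')
    have e2 := h.pos (ρ ^ 2) ⟨(hsq ρ hρ').1, (hsq ρ hρ').2.trans_le hs1⟩
    have e3 := hV _ (hsq ρ hρ')
    have e4 := hρ'.1
    refine mul_nonpos_of_nonneg_of_nonpos (by positivity) (by linarith)
  have hW0 : Wr n ψ ψ' χ χ' 0 = 0 := by simp [Wr]
  -- the quotient is nonincreasing
  have hq : AntitoneOn (fun s => ψ s / χ s) (Icc 0 s) := by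
    have hqd : ∀ τ ∈ Icc (0 : ℝ) s, HasDerivAt (fun s => ψ s / χ s)
        ((ψ' τ * χ τ - ψ τ * χ' τ) / χ τ ^ 2) τ := by
      intro τ hτ
      have hτ' : τ ∈ Ico (0 : ℝ) s1 := ⟨hτ.1, hτ.2.trans_lt hs.2⟩
      exact (h.rad.h1 τ).div (h1 τ hτ') (hpos τ hτ').ne'
    refine antitoneOn_of_deriv_nonpos (convex_Icc 0 s)
      (fun τ hτ => (hqd τ hτ).continuousAt.continuousWithinAt)
      (fun τ hτ => (hqd τ (interior_subset hτ)).differentiableAt.differentiableWithinAt)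
      (fun τ hτ => ?_)
    rw [(hqd τ (interior_subset hτ)).deriv]
    rw [interior_Icc] at hτ
    refine div_nonpos_of_nonpos_of_nonneg ?_ (sq_nonneg _)
    have hr2 : √τ ^ 2 = τ := Real.sq_sqrt hτ.1.le
    have hrpos : 0 < √τ := Real.sqrt_pos.2 hτ.1
    have hr1 : √τ ≤ √s := Real.sqrt_le_sqrt hτ.2.le
    have h3 := hanti ⟨le_rfl, hrpos.le.trans hr1⟩ ⟨hrpos.le, hr1⟩ hrpos.le
    rw [hW0] at h3
    simp only [Wr, hr2] at h3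
    have h4 : χ τ * ψ' τ - ψ τ * χ' τ ≤ 0 := by
      by_contra hcon
      push Not at hcon
      have := mul_pos (pow_pos hrpos (n + 1)) hcon
      linarith
    linarith
  have h3 := hq (left_mem_Icc.2 hs.1) (right_mem_Icc.2 hs.1) hs.1
  simp only at h3
  rw [div_le_div_iff₀ (hpos s hs) (hpos 0 ⟨le_rfl, hs10⟩)] at h3
  exact h3

/-- Rolle's theorem for the Wronskian. -/
theorem Eig.rolle (h : Eig n μ ψ ψ' ψ'') {φ φ' φ'' V : ℝ → ℝ}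
    (h1 : ∀ s ∈ Ico (0 : ℝ) 1, HasDerivAt φ (φ' s) s)
    (h2 : ∀ s ∈ Ico (0 : ℝ) 1, HasDerivAt φ' (φ'' s) s)
    (hode : ∀ s ∈ Ico (0 : ℝ) 1, 4 * s * φ'' s + 2 * ((n : ℝ) + 1) * φ' s + V s * φ s = 0)
    (hpos : ∀ s ∈ Ico (0 : ℝ) 1, 0 < φ s) (hφc : ContinuousOn φ (Icc 0 1))
    (hφ'c : ContinuousOn φ' (Icc 0 1)) (hφ1 : φ 1 = 0) :
    ∃ s ∈ Ioo (0 : ℝ) 1, μ = V s := by
  have hsq : ∀ ρ ∈ Ioo (0 : ℝ) 1, ρ ^ 2 ∈ Ioo (0 : ℝ) 1 := by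
    intro ρ hρ
    exact ⟨by have := hρ.1; positivity, by nlinarith [hρ.1, hρ.2]⟩
  have hder : ∀ ρ ∈ Ioo (0 : ℝ) 1, HasDerivAt (Wr n ψ ψ' φ φ')
      (ρ ^ n / 2 * φ (ρ ^ 2) * ψ (ρ ^ 2) * (V (ρ ^ 2) - μ)) ρ := fun ρ hρ => by
    have h3 := Ioo_subset_Ico_self (hsq ρ hρ)
    exact Wr_der h (h1 _ h3) (h2 _ h3) (hode _ h3)
  have cψ := h.cont
  have cψ' : Continuous ψ' := continuous_iff_continuousAt.mpr fun s => (h.rad.h2 s).continuousAt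
  have hmaps : MapsTo (fun ρ : ℝ => ρ ^ 2) (Icc 0 1) (Icc 0 1) := by
    intro ρ hρ
    exact ⟨by positivity, by nlinarith [hρ.1, hρ.2]⟩
  have c1 : ContinuousOn (fun ρ : ℝ => φ (ρ ^ 2)) (Icc 0 1) :=
    hφc.comp (by fun_prop) hmaps
  have c2 : ContinuousOn (fun ρ : ℝ => φ' (ρ ^ 2)) (Icc 0 1) :=
    hφ'c.comp (by fun_prop) hmaps
  have c3 : Continuous (fun ρ : ℝ => ψ (ρ ^ 2)) := by fun_prop
  have c4 : Continuous (fun ρ : ℝ => ψ' (ρ ^ 2)) := by fun_prop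
  have hc : ContinuousOn (Wr n ψ ψ' φ φ') (Icc 0 1) :=
    (by fun_prop : Continuous fun ρ : ℝ => ρ ^ (n + 1)).continuousOn.mul
      ((c1.mul c4.continuousOn).sub (c3.continuousOn.mul c2))
  have hW0 : Wr n ψ ψ' φ φ' 0 = 0 := by simp [Wr]
  have hW1 : Wr n ψ ψ' φ φ' 1 = 0 := by simp [Wr, h.one, hφ1]
  obtain ⟨c, hc01, hc0⟩ := exists_hasDerivAt_eq_zero (f := Wr n ψ ψ' φ φ') (zero_lt_one' ℝ) hc
    (by rw [hW0, hW1]) hder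
  refine ⟨c ^ 2, hsq c hc01, ?_⟩
  have e1 := hpos _ (Ioo_subset_Ico_self (hsq c hc01))
  have e2 := h.pos _ (Ioo_subset_Ico_self (hsq c hc01))
  have e3 := hc01.1
  rcases mul_eq_zero.1 hc0 with h3 | h3
  · have : 0 < c ^ n / 2 * φ (c ^ 2) * ψ (c ^ 2) := by positivity
    exact absurd h3 this.ne'
  · linarith

/-- Lower bound by a function vanishing on the boundary. -/
theorem Eig.lower (h : Eig n μ ψ ψ' ψ'') {φ φ' φ'' V : ℝ → ℝ}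
    (h1 : ∀ s ∈ Ico (0 : ℝ) 1, HasDerivAt φ (φ' s) s)
    (h2 : ∀ s ∈ Ico (0 : ℝ) 1, HasDerivAt φ' (φ'' s) s)
    (hode : ∀ s ∈ Ico (0 : ℝ) 1, 4 * s * φ'' s + 2 * ((n : ℝ) + 1) * φ' s + V s * φ s = 0)
    (hpos : ∀ s ∈ Ico (0 : ℝ) 1, 0 < φ s) (hφc : ContinuousOn φ (Icc 0 1))
    (hφ'c : ContinuousOn φ' (Icc 0 1)) (hφ1 : φ 1 = 0)
    (hV : ∀ s s' : ℝ, 0 ≤ s → s < s' → s' < 1 → V s ≤ μ → V s' ≤ μ)
    {s : ℝ} (hs : s ∈ Icc (0 : ℝ) 1) : ψ 0 * φ s ≤ φ 0 * ψ s := by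
  have hsq : ∀ ρ ∈ Ioo (0 : ℝ) 1, ρ ^ 2 ∈ Ioo (0 : ℝ) 1 := by
    intro ρ hρ
    exact ⟨by have := hρ.1; positivity, by nlinarith [hρ.1, hρ.2]⟩
  have hder : ∀ ρ ∈ Ioo (0 : ℝ) 1, HasDerivAt (Wr n ψ ψ' φ φ')
      (ρ ^ n / 2 * φ (ρ ^ 2) * ψ (ρ ^ 2) * (V (ρ ^ 2) - μ)) ρ := fun ρ hρ => by
    have h3 := Ioo_subset_Ico_self (hsq ρ hρ)
    exact Wr_der h (h1 _ h3) (h2 _ h3) (hode _ h3)
  have cψ := h.cont
  have cψ' : Continuous ψ' := continuous_iff_continuousAt.mpr fun s => (h.rad.h2 s).continuousAt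
  have hmaps : MapsTo (fun ρ : ℝ => ρ ^ 2) (Icc 0 1) (Icc 0 1) := by
    intro ρ hρ
    exact ⟨by positivity, by nlinarith [hρ.1, hρ.2]⟩
  have c1 : ContinuousOn (fun ρ : ℝ => φ (ρ ^ 2)) (Icc 0 1) :=
    hφc.comp (by fun_prop) hmaps
  have c2 : ContinuousOn (fun ρ : ℝ => φ' (ρ ^ 2)) (Icc 0 1) :=
    hφ'c.comp (by fun_prop) hmaps
  have c3 : Continuous (fun ρ : ℝ => ψ (ρ ^ 2)) := by fun_prop
  have c4 : Continuous (fun ρ : ℝ => ψ' (ρ ^ 2)) := by fun_prop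
  have hc : ContinuousOn (Wr n ψ ψ' φ φ') (Icc 0 1) :=
    (by fun_prop : Continuous fun ρ : ℝ => ρ ^ (n + 1)).continuousOn.mul
      ((c1.mul c4.continuousOn).sub (c3.continuousOn.mul c2))
  have hW0 : Wr n ψ ψ' φ φ' 0 = 0 := by simp [Wr]
  have hW1 : Wr n ψ ψ' φ φ' 1 = 0 := by simp [Wr, h.one, hφ1]
  have hfac : ∀ ρ ∈ Ioo (0 : ℝ) 1, 0 < ρ ^ n / 2 * φ (ρ ^ 2) * ψ (ρ ^ 2) := by
    intro ρ hρ
    have e1 := hpos _ (Ioo_subset_Ico_self (hsq ρ hρ))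
    have e2 := h.pos _ (Ioo_subset_Ico_self (hsq ρ hρ))
    have e3 := hρ.1
    positivity
  have hWnn : ∀ ρ ∈ Ioo (0 : ℝ) 1, 0 ≤ Wr n ψ ψ' φ φ' ρ := by
    intro ρ hρ
    by_contra hcon
    push Not at hcon
    obtain ⟨ξ, hξ, hξ'⟩ := exists_hasDerivAt_eq_slope (Wr n ψ ψ' φ φ')
      (fun ρ => ρ ^ n / 2 * φ (ρ ^ 2) * ψ (ρ ^ 2) * (V (ρ ^ 2) - μ)) hρ.1
      (hc.mono (Icc_subset_Icc_right hρ.2.le))
      (fun x hx => hder x ⟨hx.1, hx.2.trans hρ.2⟩)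
    have hξ01 : ξ ∈ Ioo (0 : ℝ) 1 := ⟨hξ.1, hξ.2.trans hρ.2⟩
    have h3 : ξ ^ n / 2 * φ (ξ ^ 2) * ψ (ξ ^ 2) * (V (ξ ^ 2) - μ) < 0 := by
      rw [hξ', hW0]
      exact div_neg_of_neg_of_pos (by linarith) (by linarith [hρ.1])
    have h4 : V (ξ ^ 2) ≤ μ := by
      by_contra h5
      push Not at h5
      have := mul_pos (hfac ξ hξ01) (by linarith : 0 < V (ξ ^ 2) - μ)
      linarith
    have hanti : AntitoneOn (Wr n ψ ψ' φ φ') (Icc ξ 1) := by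
      refine antitoneOn_of_deriv_nonpos (convex_Icc _ _)
        (hc.mono (Icc_subset_Icc_left hξ.1.le)) (fun τ hτ => ?_) (fun τ hτ => ?_)
      · rw [interior_Icc] at hτ
        exact (hder τ ⟨hξ.1.trans hτ.1, hτ.2⟩).differentiableAt.differentiableWithinAt
      · rw [interior_Icc] at hτ
        have hτ' : τ ∈ Ioo (0 : ℝ) 1 := ⟨hξ.1.trans hτ.1, hτ.2⟩
        rw [(hder τ hτ').deriv]
        refine mul_nonpos_of_nonneg_of_nonpos (hfac τ hτ').le ?_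
        have h5 : ξ ^ 2 < τ ^ 2 := by nlinarith [hξ.1, hτ.1]
        have := hV (ξ ^ 2) (τ ^ 2) (by positivity) h5 (hsq τ hτ').2 h4
        linarith
    have h5 := hanti ⟨hξ.2.le, hρ.2.le⟩ ⟨(hξ.2.trans hρ.2).le, le_rfl⟩ hρ.2.le
    rw [hW1] at h5
    linarith
  rcases hs.2.eq_or_lt with hs1 | hs1
  · rw [hs1, hφ1, h.one]
    simp
  -- the quotient is nondecreasing
  have hq : MonotoneOn (fun s => ψ s / φ s) (Icc 0 s) := by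
    have hqd : ∀ τ ∈ Icc (0 : ℝ) s, HasDerivAt (fun s => ψ s / φ s)
        ((ψ' τ * φ τ - ψ τ * φ' τ) / φ τ ^ 2) τ := by
      intro τ hτ
      have hτ' : τ ∈ Ico (0 : ℝ) 1 := ⟨hτ.1, hτ.2.trans_lt hs1⟩
      exact (h.rad.h1 τ).div (h1 τ hτ') (hpos τ hτ').ne'
    refine monotoneOn_of_deriv_nonneg (convex_Icc 0 s)
      (fun τ hτ => (hqd τ hτ).continuousAt.continuousWithinAt)
      (fun τ hτ => (hqd τ (interior_subset hτ)).differentiableAt.differentiableWithinAt)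
      (fun τ hτ => ?_)
    rw [(hqd τ (interior_subset hτ)).deriv]
    rw [interior_Icc] at hτ
    refine div_nonneg ?_ (sq_nonneg _)
    have hr2 : √τ ^ 2 = τ := Real.sq_sqrt hτ.1.le
    have hrpos : 0 < √τ := Real.sqrt_pos.2 hτ.1
    have hr1 : √τ < 1 := by
      rw [Real.sqrt_lt' one_pos]
      linarith [hτ.2]
    have h3 := hWnn (√τ) ⟨hrpos, hr1⟩
    simp only [Wr, hr2] at h3
    have h4 : 0 ≤ φ τ * ψ' τ - ψ τ * φ' τ := by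
      by_contra hcon
      push Not at hcon
      have := mul_neg_of_pos_of_neg (pow_pos hrpos (n + 1)) hcon
      linarith
    linarith
  have h3 := hq (left_mem_Icc.2 hs.1) (right_mem_Icc.2 hs.1) hs.1
  simp only at h3
  rw [div_le_div_iff₀ (hpos 0 ⟨le_rfl, one_pos⟩) (hpos s ⟨hs.1, hs1⟩)] at h3
  linarith

/-- `d ^ 2 / 4 ≤ μ ≤ d (d + 4) / 2` -/
theorem Eig.mu_bounds (h : Eig n μ ψ ψ' ψ'') :
    ((n : ℝ) + 1) ^ 2 / 4 ≤ μ ∧ μ ≤ ((n : ℝ) + 1) * ((n : ℝ) + 5) / 2 := by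
  have c1 : ContinuousOn (cmp ((n : ℝ) + 1)) (Icc 0 1) := fun s _ =>
    (cmp_der _ s).continuousAt.continuousWithinAt
  have c2 : ContinuousOn (cmp' ((n : ℝ) + 1)) (Icc 0 1) := fun s _ =>
    (cmp'_der _ s).continuousAt.continuousWithinAt
  obtain ⟨s, hs, h1⟩ := h.rolle (φ := cmp ((n : ℝ) + 1)) (φ' := cmp' ((n : ℝ) + 1))
    (φ'' := cmp'' ((n : ℝ) + 1)) (V := VV ((n : ℝ) + 1)) (fun s _ => cmp_der _ s)
    (fun s _ => cmp'_der _ s) (fun s _ => cmp_ode _ s) (fun s hs => cmp_pos hs.2) c1 c2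
    (by simp [cmp])
  rw [h1]
  unfold VV
  have hn : (0 : ℝ) ≤ n := Nat.cast_nonneg n
  have h2 : 0 ≤ ((n : ℝ) + 1) ^ 2 / 4 * (1 - s) := by
    have : 0 ≤ 1 - s := by linarith [hs.2]
    positivity
  have h3 : 0 ≤ ((n : ℝ) + 1) ^ 2 / 4 * s := by
    have := hs.1
    positivity
  constructor
  · nlinarith
  · nlinarith

end

end Pool.Agent.Lib.H38.Tor
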