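import Mathlib
import Pool.Agent.Lib.H38.Tor2.Wron

set_option autoImplicit false

/-!
# Explicit comparison functions in high dimension

`c = √(1 - s)`, `E s = 1 - log 2 - c + log (1 + c)`, `χ = exp (-(δ / 2) E)`.
-/

namespace Pool.Agent.Lib.H38.Tor

open MeasureTheory Set Filter Topology

noncomputable def cc (s : ℝ) : ℝ := √(1 - s)

noncomputable def EE (s : ℝ) : ℝ := 1 - Real.log 2 - cc s + Real.log (1 + cc s)

lemma cc_nonneg (s : ℝ) : 0 ≤ cc s := Real.sqrt_nonneg _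

lemma cc_pos {s : ℝ} (hs : s < 1) : 0 < cc s := Real.sqrt_pos.2 (by linarith)

lemma cc_sq {s : ℝ} (hs : s ≤ 1) : cc s ^ 2 = 1 - s := Real.sq_sqrt (by linarith)

lemma cc_le_one {s : ℝ} (hs : 0 ≤ s) : cc s ≤ 1 := Real.sqrt_le_one.2 (by linarith)

lemma cc_zero : cc 0 = 1 := by simp [cc]

lemma cc_cont : Continuous cc := by unfold cc; fun_prop

lemma EE_zero : EE 0 = 0 := by
  unfold EE
  rw [cc_zero]
  norm_num

lemma EE_cont : Continuous EE := by
  have h : ∀ s, 1 + cc s ≠ 0 := fun s => by have := cc_nonneg s; positivity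
  unfold EE
  have := cc_cont
  exact (continuous_const.sub this).add ((continuous_const.add this).log h)

lemma cc_der {s : ℝ} (hs : s < 1) : HasDerivAt cc (-(1 / (2 * cc s))) s := by
  have h1 : HasDerivAt (fun s : ℝ => 1 - s) (-1) s := by
    simpa using (hasDerivAt_id s).const_sub 1
  have h2 := h1.sqrt (by linarith : 1 - s ≠ 0)
  refine h2.congr_deriv ?_
  unfold cc
  ring

lemma EE_der {s : ℝ} (hs : s < 1) : HasDerivAt EE (1 / (2 * (1 + cc s))) s := by
  have hc := cc_pos hs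
  have h1 := cc_der hs
  have h2 : HasDerivAt (fun s => 1 + cc s) (-(1 / (2 * cc s))) s := h1.const_add 1
  have h3 := h2.log (by positivity : (1 : ℝ) + cc s ≠ 0)
  have h4 := (h1.const_sub (1 - Real.log 2)).add h3
  refine h4.congr_deriv ?_
  field_simp
  ring

/-- the comparison function -/
noncomputable def ch (δ s : ℝ) : ℝ := Real.exp (-(δ / 2) * EE s)

noncomputable def ch' (δ s : ℝ) : ℝ := -(δ / (4 * (1 + cc s))) * ch δ s

noncomputable def ch'' (δ s : ℝ) : ℝ :=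
  (δ ^ 2 / (16 * (1 + cc s) ^ 2) - δ / (8 * cc s * (1 + cc s) ^ 2)) * ch δ s

lemma ch_pos (δ s : ℝ) : 0 < ch δ s := Real.exp_pos _

lemma ch_zero (δ : ℝ) : ch δ 0 = 1 := by simp [ch, EE_zero]

lemma ch_cont (δ : ℝ) : Continuous (ch δ) := by
  unfold ch
  have := EE_cont
  fun_prop

lemma ch'_cont (δ : ℝ) : Continuous (ch' δ) := by
  unfold ch'
  have h1 := ch_cont δ
  have h2 := cc_cont
  refine Continuous.mul (Continuous.neg (Continuous.div continuous_const (by fun_prop) ?_)) h1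
  intro s
  have := cc_nonneg s
  positivity

lemma ch_der (δ : ℝ) {s : ℝ} (hs : s < 1) : HasDerivAt (ch δ) (ch' δ s) s := by
  have hc := cc_pos hs
  have h := ((EE_der hs).const_mul (-(δ / 2))).exp
  refine h.congr_deriv ?_
  unfold ch' ch
  field_simp
  ring

lemma ch'_der (δ : ℝ) {s : ℝ} (hs : s < 1) : HasDerivAt (ch' δ) (ch'' δ s) s := by
  have hc := cc_pos hs
  have h1 : HasDerivAt (fun s => 4 * (1 + cc s)) (4 * (-(1 / (2 * cc s)))) s :=
    ((cc_der hs).const_add 1).const_mul 4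
  have h2 := ((hasDerivAt_const s δ).div h1 (by positivity)).neg.mul (ch_der δ hs)
  refine h2.congr_deriv ?_
  unfold ch'' ch'
  simp only [Pi.neg_apply, Pi.div_apply]
  field_simp
  ring

/-- the potential of `ch` -/
noncomputable def Vch (D δ s : ℝ) : ℝ :=
  -((1 - cc s) * δ ^ 2 / (4 * (1 + cc s))) + (1 - cc s) * δ / (2 * cc s * (1 + cc s)) +
    D * δ / (2 * (1 + cc s))

lemma ch_ode (D δ : ℝ) {s : ℝ} (hs : s < 1) :
    4 * s * ch'' δ s + 2 * D * ch' δ s + Vch D δ s * ch δ s = 0 := by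
  have hc := cc_pos hs
  have hs' : s = 1 - cc s ^ 2 := by rw [cc_sq hs.le]; ring
  unfold ch'' ch' Vch
  set c := cc s
  rw [hs']
  field_simp
  ring

lemma Vch_le {D η s : ℝ} (hD : 0 < D) (hη : 0 < η) (hη1 : η < 1) (hs0 : 0 ≤ s) (hs1 : s < 1)
    (h : 1 - η ≤ D * η * (1 - s)) : Vch D ((1 - η) * D) s ≤ D ^ 2 / 4 := by
  have hc := cc_pos hs1
  have hc1 := cc_le_one hs0
  rw [← cc_sq hs1.le] at h
  unfold Vch
  set c := cc s
  have e : -((1 - c) * ((1 - η) * D) ^ 2 / (4 * (1 + c))) +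
      (1 - c) * ((1 - η) * D) / (2 * c * (1 + c)) + D * ((1 - η) * D) / (2 * (1 + c)) =
      D ^ 2 / 4 - (D * c * η ^ 2 * (1 - c) * D + 2 * D * (D * η * c ^ 2 - (1 - η)) +
        2 * D * c * (1 - η)) / (4 * c * (1 + c)) := by
    field_simp
    ring
  rw [e]
  have h1 : 0 ≤ 1 - c := by linarith
  have h2 : 0 ≤ D * η * c ^ 2 - (1 - η) := by linarith
  have h3 : 0 ≤ 1 - η := by linarith
  have : 0 ≤ (D * c * η ^ 2 * (1 - c) * D + 2 * D * (D * η * c ^ 2 - (1 - η)) +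
        2 * D * c * (1 - η)) / (4 * c * (1 + c)) := by positivity
  linarith

lemma one_sub_mul_exp_le {c : ℝ} (hc : 0 ≤ c) : (1 - c) * Real.exp (2 * c) ≤ 1 + c := by
  have hder : ∀ x : ℝ, HasDerivAt (fun x : ℝ => (1 + x) - (1 - x) * Real.exp (2 * x))
      (1 - Real.exp (2 * x) * (1 - 2 * x)) x := by
    intro x
    have h1 : HasDerivAt (fun x : ℝ => 1 + x) 1 x := by simpa using (hasDerivAt_id x).const_add 1
    have h2 : HasDerivAt (fun x : ℝ => 1 - x) (-1) x := by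
      simpa using (hasDerivAt_id x).const_sub 1
    have h3 : HasDerivAt (fun x : ℝ => 2 * x) 2 x := by simpa using (hasDerivAt_id x).const_mul 2
    refine (h1.sub (h2.mul h3.exp)).congr_deriv ?_
    ring
  have hmono : MonotoneOn (fun x : ℝ => (1 + x) - (1 - x) * Real.exp (2 * x)) (Icc 0 c) := by
    refine monotoneOn_of_deriv_nonneg (convex_Icc 0 c)
      (fun x _ => (hder x).continuousAt.continuousWithinAt)
      (fun x _ => (hder x).differentiableAt.differentiableWithinAt) (fun x hx => ?_)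
    rw [(hder x).deriv]
    have h1 : 1 - 2 * x ≤ Real.exp (-(2 * x)) := by
      have := Real.add_one_le_exp (-(2 * x))
      linarith
    have h2 : Real.exp (2 * x) * (1 - 2 * x) ≤ Real.exp (2 * x) * Real.exp (-(2 * x)) := by
      have := Real.exp_pos (2 * x)
      gcongr
    rw [← Real.exp_add, add_neg_cancel, Real.exp_zero] at h2
    linarith
  have := hmono (left_mem_Icc.2 hc) (right_mem_Icc.2 hc) hc
  simp at this
  linarith

/-- `ρ ≤ (1 + c) e ^ (-c)` for `ρ ^ 2 + c ^ 2 = 1` -/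
lemma rho_le {ρ : ℝ} (h0 : 0 ≤ ρ) (h1 : ρ ≤ 1) :
    ρ ≤ Real.exp (-(cc (ρ ^ 2) - Real.log (1 + cc (ρ ^ 2)))) := by
  have hs1 : ρ ^ 2 ≤ 1 := by nlinarith
  have hc := cc_nonneg (ρ ^ 2)
  have hsq := cc_sq hs1
  set c := cc (ρ ^ 2)
  have e : Real.exp (-(c - Real.log (1 + c))) = (1 + c) * Real.exp (-c) := by
    rw [neg_sub, sub_eq_add_neg, Real.exp_add, Real.exp_log (by positivity)]
  rw [e]
  refine abs_le_of_sq_le_sq' ?_ (by positivity) |>.2
  have h2 := one_sub_mul_exp_le hc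
  have h3 : ρ ^ 2 = (1 - c) * (1 + c) := by linarith
  rw [h3, mul_pow, ← Real.exp_nat_mul]
  have h4 : (1 - c) ≤ (1 + c) * Real.exp (((2 : ℕ) : ℝ) * -c) := by
    have h5 : Real.exp (2 * c) * Real.exp (((2 : ℕ) : ℝ) * -c) = 1 := by
      rw [← Real.exp_add]
      simp
    calc (1 - c) = (1 - c) * Real.exp (2 * c) * Real.exp (((2 : ℕ) : ℝ) * -c) := by
          rw [mul_assoc, h5, mul_one]
      _ ≤ (1 + c) * Real.exp (((2 : ℕ) : ℝ) * -c) := by gcongr
  calc (1 - c) * (1 + c) ≤ ((1 + c) * Real.exp (((2 : ℕ) : ℝ) * -c)) * (1 + c) := by gcongr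
    _ = _ := by ring

lemma sub_log_le {c : ℝ} (hc : 0 ≤ c) : c - Real.log (1 + c) ≤ c ^ 2 / 2 := by
  have h1 := Real.le_log_one_add_of_nonneg hc
  have h2 : c - c ^ 2 / 2 ≤ 2 * c / (c + 2) := by
    rw [le_div_iff₀ (by positivity)]
    have : 0 ≤ c ^ 3 := by positivity
    nlinarith
  linarith

lemma sub_log_nonneg {c : ℝ} (hc : 0 ≤ c) : 0 ≤ c - Real.log (1 + c) := by
  have := Real.log_le_sub_one_of_pos (by positivity : 0 < 1 + c)
  linarith

section
variable {n : ℕ} {μ : ℝ} {ψ ψ' ψ'' : ℝ → ℝ}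

/-- Upper bound for the mass. -/
theorem Eig.Mr_le (h : Eig n μ ψ ψ' ψ'') {η : ℝ} (hη : 0 < η) (hη1 : η < 1)
    (hηd : 1 ≤ η * ((n : ℝ) + 1)) :
    Mr n ψ ≤ ((n : ℝ) + 1) * Real.exp (-((1 - Real.log 2) * ((1 - η) * ((n : ℝ) + 1))) +
      1 / (2 * η)) := by
  set D : ℝ := (n : ℝ) + 1 with hDdef
  have hD : 0 < D := by positivity
  set δ : ℝ := (1 - η) * D with hδ
  have hδ0 : 0 < δ := by
    have : 0 < 1 - η := by linarith
    positivity
  have hδn : δ ≤ n := by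
    rw [hδ]
    have : (n : ℝ) = D - 1 := by rw [hDdef]; ring
    rw [this]
    linarith
  have hδD : δ ≤ D := by rw [hδ]; nlinarith
  have hμ := h.mu_bounds.1
  have hψ0 := h.psi0
  have hup : ∀ s ∈ Ico (0 : ℝ) (1 - (1 - η) / (D * η)), ψ s ≤ ψ 0 * ch δ s := by
    intro s hs
    have hs1 : 1 - (1 - η) / (D * η) ≤ 1 := by
      have : 0 ≤ (1 - η) / (D * η) := div_nonneg (by linarith) (by positivity)
      linarith
    have := h.upper (χ := ch δ) (χ' := ch' δ) (χ'' := ch'' δ) (V := Vch D δ) hs1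
      (fun s hs => ch_der δ (hs.2.trans_le hs1)) (fun s hs => ch'_der δ (hs.2.trans_le hs1))
      (fun s hs => ch_ode D δ (hs.2.trans_le hs1)) (fun s _ => ch_pos δ s)
      (fun s hs => by
        refine (Vch_le hD hη hη1 hs.1 (hs.2.trans_le hs1) ?_).trans hμ
        have h1 : (1 - η) / (D * η) ≤ 1 - s := by linarith [hs.2]
        rw [div_le_iff₀ (by positivity)] at h1
        linarith) hs
    rwa [ch_zero, mul_one] at this
  have hsqe : ∀ s, ch δ s ^ 2 = Real.exp (-((1 - Real.log 2) * δ)) *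
      Real.exp (δ * (cc s - Real.log (1 + cc s))) := by
    intro s
    unfold ch EE
    rw [← Real.exp_nat_mul, ← Real.exp_add]
    congr 1
    push_cast
    ring
  have hpt : ∀ ρ ∈ Icc (0 : ℝ) 1, ρ ^ n * ψ (ρ ^ 2) ^ 2 ≤
      ψ 0 ^ 2 * Real.exp (-((1 - Real.log 2) * δ) + 1 / (2 * η)) := by
    intro ρ hρ
    have hρ2 : ρ ^ 2 ∈ Icc (0 : ℝ) 1 := ⟨by positivity, by nlinarith [hρ.1, hρ.2]⟩
    have hψnn : 0 ≤ ψ (ρ ^ 2) := by
      rcases hρ2.2.eq_or_lt with h1 | h1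
      · rw [h1, h.one]
      · exact (h.pos _ ⟨hρ2.1, h1⟩).le
    have hρn : 0 ≤ ρ ^ n := pow_nonneg hρ.1 n
    have hη2 : 0 ≤ 1 / (2 * η) := by positivity
    rw [Real.exp_add]
    rcases lt_or_ge (ρ ^ 2) (1 - 1 / (D * η)) with hcase | hcase
    · have hmem : ρ ^ 2 ∈ Ico (0 : ℝ) (1 - (1 - η) / (D * η)) := by
        refine ⟨hρ2.1, hcase.trans_le ?_⟩
        have : (1 - η) / (D * η) ≤ 1 / (D * η) := by gcongr; linarith
        linarith
      have h1 := hup _ hmem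
      have h2 : ψ (ρ ^ 2) ^ 2 ≤ ψ 0 ^ 2 * ch δ (ρ ^ 2) ^ 2 := by
        rw [← mul_pow]
        exact pow_le_pow_left₀ hψnn h1 2
      have h3 : ρ ^ n ≤ Real.exp (-(δ * (cc (ρ ^ 2) - Real.log (1 + cc (ρ ^ 2))))) := by
        have h4 := pow_le_pow_left₀ hρ.1 (rho_le hρ.1 hρ.2) n
        refine h4.trans ?_
        rw [← Real.exp_nat_mul, Real.exp_le_exp]
        have h5 := sub_log_nonneg (cc_nonneg (ρ ^ 2))
        have h6 := mul_le_mul_of_nonneg_right hδn h5
        linarith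
      have h7 : 1 ≤ Real.exp (1 / (2 * η)) := Real.one_le_exp hη2
      have hK := Real.exp_pos (-((1 - Real.log 2) * δ))
      calc ρ ^ n * ψ (ρ ^ 2) ^ 2 ≤
          Real.exp (-(δ * (cc (ρ ^ 2) - Real.log (1 + cc (ρ ^ 2))))) *
            (ψ 0 ^ 2 * ch δ (ρ ^ 2) ^ 2) := by gcongr
        _ = ψ 0 ^ 2 * Real.exp (-((1 - Real.log 2) * δ)) := by
            rw [hsqe, Real.exp_neg]
            field_simp
        _ = ψ 0 ^ 2 * (Real.exp (-((1 - Real.log 2) * δ)) * 1) := by ring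
        _ ≤ _ := by gcongr
    · -- near the boundary
      have hDη : 0 < D * η := by positivity
      have hs00 : 0 ≤ 1 - 1 / (D * η) := by
        have : 1 / (D * η) ≤ 1 := by rw [div_le_one hDη]; linarith
        linarith
      have hs01 : 1 - 1 / (D * η) ≤ 1 := by
        have : 0 ≤ 1 / (D * η) := by positivity
        linarith
      set s0 := 1 - 1 / (D * η) with hs0
      have hmem : s0 ∈ Ico (0 : ℝ) (1 - (1 - η) / (D * η)) := by
        refine ⟨hs00, ?_⟩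
        have : (1 - η) / (D * η) < 1 / (D * η) := by gcongr; linarith
        rw [hs0]
        linarith
      have h1 := hup _ hmem
      have h2 : ψ (ρ ^ 2) ≤ ψ s0 := psi_anti h.rad h.neg ⟨hs00, hs01⟩ hρ2 hcase
      have h3 : ψ (ρ ^ 2) ^ 2 ≤ ψ 0 ^ 2 * ch δ s0 ^ 2 := by
        rw [← mul_pow]
        exact pow_le_pow_left₀ hψnn (h2.trans h1) 2
      have h4 : ρ ^ n ≤ 1 := pow_le_one₀ hρ.1 hρ.2
      have h5 : δ * (cc s0 - Real.log (1 + cc s0)) ≤ 1 / (2 * η) := by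
        have h6 := sub_log_le (cc_nonneg s0)
        rw [cc_sq hs01, hs0, sub_sub_cancel] at h6
        calc δ * (cc s0 - Real.log (1 + cc s0)) ≤ δ * (1 / (D * η) / 2) := by
              rw [hs0]; gcongr
          _ ≤ D * (1 / (D * η) / 2) := by gcongr
          _ = 1 / (2 * η) := by field_simp
      have hK := Real.exp_pos (-((1 - Real.log 2) * δ))
      calc ρ ^ n * ψ (ρ ^ 2) ^ 2 ≤ 1 * (ψ 0 ^ 2 * ch δ s0 ^ 2) := by gcongr
        _ = ψ 0 ^ 2 * (Real.exp (-((1 - Real.log 2) * δ)) *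
            Real.exp (δ * (cc s0 - Real.log (1 + cc s0)))) := by rw [hsqe]; ring
        _ ≤ _ := by gcongr
  have cψ := h.cont
  have hint : (∫ ρ in (0 : ℝ)..1, D * (ρ ^ n * ψ (ρ ^ 2) ^ 2)) ≤
      ∫ ρ in (0 : ℝ)..1, D * (ψ 0 ^ 2 * Real.exp (-((1 - Real.log 2) * δ) + 1 / (2 * η))) := by
    refine intervalIntegral.integral_mono_on zero_le_one ?_ ?_ (fun ρ hρ => ?_)
    · apply Continuous.intervalIntegrable
      fun_prop
    · exact intervalIntegrable_const
    · have := hpt ρ hρ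
      gcongr
  rw [intervalIntegral.integral_const] at hint
  unfold Mr
  rw [div_le_iff₀ (by positivity)]
  refine hint.trans (le_of_eq ?_)
  simp only [sub_zero, one_smul]
  ring

end

end Pool.Agent.Lib.H38.Tor
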