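import Mathlib
import Pool.Agent.Lib.H38.Tor2.Ecmp

set_option autoImplicit false

/-!
# Lower bound for the mass of the first eigenfunction in high dimension
-/

namespace Pool.Agent.Lib.H38.Tor

open MeasureTheory Set Filter Topology

/-- the comparison function `(1 - s) χ` -/
noncomputable def ph (δ s : ℝ) : ℝ := (1 - s) * ch δ s

noncomputable def ph' (δ s : ℝ) : ℝ := -ch δ s + (1 - s) * ch' δ s

noncomputable def ph'' (δ s : ℝ) : ℝ := -(2 * ch' δ s) + (1 - s) * ch'' δ s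

/-- the potential of `ph` as a function of `c` -/
noncomputable def gV (δ e c : ℝ) : ℝ :=
  -(2 * e / c ^ 2) + 5 * δ / 2 / c - δ * (1 + e / 2) / (1 + c) + δ ^ 2 / 4

lemma one_sub_der (s : ℝ) : HasDerivAt (fun s : ℝ => 1 - s) (-1) s := by
  simpa using (hasDerivAt_id s).const_sub 1

lemma ph_der (δ : ℝ) {s : ℝ} (hs : s < 1) : HasDerivAt (ph δ) (ph' δ s) s := by
  refine ((one_sub_der s).mul (ch_der δ hs)).congr_deriv ?_
  unfold ph'
  ring

lemma ph'_der (δ : ℝ) {s : ℝ} (hs : s < 1) : HasDerivAt (ph' δ) (ph'' δ s) s := by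
  refine ((ch_der δ hs).neg.add ((one_sub_der s).mul (ch'_der δ hs))).congr_deriv ?_
  unfold ph''
  ring

lemma ph_cont (δ : ℝ) : Continuous (ph δ) := by
  unfold ph
  have := ch_cont δ
  fun_prop

lemma ph'_cont (δ : ℝ) : Continuous (ph' δ) := by
  unfold ph'
  have := ch_cont δ
  have := ch'_cont δ
  fun_prop

lemma ph_ode (D δ : ℝ) {s : ℝ} (hs : s < 1) :
    4 * s * ph'' δ s + 2 * D * ph' δ s + gV δ (δ - D) (cc s) * ph δ s = 0 := by
  have hc := cc_pos hs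
  have hs' : s = 1 - cc s ^ 2 := by rw [cc_sq hs.le]; ring
  unfold ph'' ph' gV ph ch'' ch'
  set c := cc s
  rw [hs']
  field_simp
  ring

lemma gV_mono {δ e : ℝ} (he : 0 < e) (hδ : 0 < δ) (h : 125 * δ ^ 2 ≤ 108 * e ^ 3) :
    MonotoneOn (gV δ e) (Ioc 0 1) := by
  have hder : ∀ c : ℝ, 0 < c → HasDerivAt (gV δ e)
      (4 * e / c ^ 3 - 5 * δ / 2 / c ^ 2 + δ * (1 + e / 2) / (1 + c) ^ 2) c := by
    intro c hc
    have h1 := ((hasDerivAt_const c (2 * e)).div (hasDerivAt_pow 2 c) (by positivity)).neg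
    have h2 := (hasDerivAt_const c (5 * δ / 2)).div (hasDerivAt_id c) (by simpa using hc.ne')
    have h3 := (hasDerivAt_const c (δ * (1 + e / 2))).div ((hasDerivAt_id c).const_add 1)
      (by simp only [id]; positivity)
    refine (((h1.add h2).sub h3).add_const (δ ^ 2 / 4)).congr_deriv ?_
    simp only [id, Nat.cast_ofNat]
    field_simp
    ring
  refine monotoneOn_of_deriv_nonneg (convex_Ioc 0 1)
    (fun c hc => (hder c hc.1).continuousAt.continuousWithinAt)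
    (fun c hc => (hder c (interior_subset hc).1).differentiableAt.differentiableWithinAt)
    (fun c hc => ?_)
  have hc' := interior_subset hc
  have hc0 : 0 < c := hc'.1
  have hc1 : c ≤ 1 := hc'.2
  rw [(hder c hc0).deriv]
  -- Young's inequality with the parameter `t`
  set t := √(20 / (3 * e)) with ht
  have ht0 : 0 < t := Real.sqrt_pos.2 (by positivity)
  have ht2 : t ^ 2 = 20 / (3 * e) := Real.sq_sqrt (by positivity)
  have ht3 : δ * t ^ 3 ≤ 16 := by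
    refine abs_le_of_sq_le_sq' ?_ (by norm_num) |>.2
    have : (δ * t ^ 3) ^ 2 = δ ^ 2 * (t ^ 2) ^ 3 := by ring
    rw [this, ht2, div_pow, ← mul_div_assoc, div_le_iff₀ (by positivity)]
    nlinarith
  have hy : 3 * t ^ 2 * c - 2 * t ^ 3 ≤ c ^ 3 := by
    nlinarith [mul_nonneg (sq_nonneg (c - t)) (by positivity : 0 ≤ c + 2 * t)]
  have h1 : 5 * δ / 2 * c ≤ 4 * e + δ * e / 8 * c ^ 3 := by
    have e1 : δ * e / 8 * (3 * t ^ 2 * c - 2 * t ^ 3) = 5 * δ / 2 * c - e / 4 * (δ * t ^ 3) := by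
      rw [mul_sub, show δ * e / 8 * (3 * t ^ 2 * c) = 3 * δ * e / 8 * c * t ^ 2 by ring, ht2]
      field_simp
      ring
    have e2 : δ * e / 8 * (3 * t ^ 2 * c - 2 * t ^ 3) ≤ δ * e / 8 * c ^ 3 := by gcongr
    have e3 : e / 4 * (δ * t ^ 3) ≤ e / 4 * 16 := by gcongr
    linarith
  have h2 : δ * e / 8 ≤ δ * (1 + e / 2) / (1 + c) ^ 2 := by
    rw [le_div_iff₀ (by positivity)]
    have h3 : (1 + c) ^ 2 ≤ 4 := by nlinarith
    calc δ * e / 8 * (1 + c) ^ 2 ≤ δ * e / 8 * 4 := by gcongr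
      _ ≤ δ * (1 + e / 2) := by nlinarith
  have h3 : 0 ≤ 4 * e / c ^ 3 - 5 * δ / 2 / c ^ 2 + δ * e / 8 := by
    have e1 : 4 * e / c ^ 3 - 5 * δ / 2 / c ^ 2 + δ * e / 8 =
        (4 * e + δ * e / 8 * c ^ 3 - 5 * δ / 2 * c) / c ^ 3 := by
      field_simp
      ring
    rw [e1]
    exact div_nonneg (by linarith) (by positivity)
  linarith

section
variable {n : ℕ} {μ : ℝ} {ψ ψ' ψ'' : ℝ → ℝ}

lemma int_weight (n : ℕ) : ∫ ρ in (0 : ℝ)..1, ((n : ℝ) + 1) * (ρ ^ n * (1 - ρ ^ 2) ^ 2) =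
    8 / (((n : ℝ) + 3) * ((n : ℝ) + 5)) := by
  have e : ∀ ρ : ℝ, ((n : ℝ) + 1) * (ρ ^ n * (1 - ρ ^ 2) ^ 2) =
      ((n : ℝ) + 1) * ρ ^ n - 2 * ((n : ℝ) + 1) * ρ ^ (n + 2) + ((n : ℝ) + 1) * ρ ^ (n + 4) := by
    intro ρ; ring
  simp_rw [e]
  rw [intervalIntegral.integral_add, intervalIntegral.integral_sub,
    intervalIntegral.integral_const_mul, intervalIntegral.integral_const_mul,
    intervalIntegral.integral_const_mul, integral_pow, integral_pow, integral_pow]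
  · simp only [one_pow, zero_pow (Nat.succ_ne_zero _)]
    push_cast
    field_simp
    ring
  all_goals
    apply Continuous.intervalIntegrable
    fun_prop

/-- Lower bound for the mass. -/
theorem Eig.Mr_ge (h : Eig n μ ψ ψ' ψ'') {e : ℝ} (he : 0 < e)
    (hc : 125 * ((n : ℝ) + 1 + e) ^ 2 ≤ 108 * e ^ 3) :
    8 / (((n : ℝ) + 3) * ((n : ℝ) + 5)) *
      Real.exp (-((1 - Real.log 2) * ((n : ℝ) + 1 + e))) ≤ Mr n ψ := by
  set D : ℝ := (n : ℝ) + 1 with hDdef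
  have hD : 0 < D := by positivity
  set δ : ℝ := D + e with hδ
  have hδ0 : 0 < δ := by positivity
  have heδ : δ - D = e := by rw [hδ]; ring
  have hmono := gV_mono he hδ0 hc
  have hlow : ∀ s ∈ Icc (0 : ℝ) 1, ψ 0 * ph δ s ≤ ψ s := by
    intro s hs
    have := h.lower (φ := ph δ) (φ' := ph' δ) (φ'' := ph'' δ)
      (V := fun s => gV δ (δ - D) (cc s))
      (fun s hs => ph_der δ hs.2) (fun s hs => ph'_der δ hs.2) (fun s hs => ph_ode D δ hs.2)
      (fun s hs => by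
        have h1 := ch_pos δ s
        have h2 : 0 < 1 - s := by linarith [hs.2]
        unfold ph
        positivity)
      (ph_cont δ).continuousOn (ph'_cont δ).continuousOn (by simp [ph])
      (fun s s' h0 hss' hs1 hV => by
        simp only [heδ] at hV ⊢
        refine (hmono ⟨cc_pos hs1, cc_le_one (h0.trans hss'.le)⟩
          ⟨cc_pos (hss'.trans hs1), cc_le_one h0⟩ ?_).trans hV
        unfold cc
        exact Real.sqrt_le_sqrt (by linarith)) hs
    have e0 : ph δ 0 = 1 := by simp [ph, ch_zero]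
    rwa [e0, one_mul] at this
  have hψ0 := h.psi0
  have cψ := h.cont
  have hch : ∀ s, Real.exp (-((1 - Real.log 2) * δ)) ≤ ch δ s ^ 2 := by
    intro s
    have h1 : ch δ s ^ 2 = Real.exp (-(δ * EE s)) := by
      unfold ch
      rw [← Real.exp_nat_mul]
      congr 1
      push_cast
      ring
    rw [h1, Real.exp_le_exp]
    have h2 := sub_log_nonneg (cc_nonneg s)
    have h3 : EE s ≤ 1 - Real.log 2 := by unfold EE; linarith
    have h4 := mul_le_mul_of_nonneg_left h3 hδ0.le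
    linarith
  unfold Mr
  rw [le_div_iff₀ (by positivity), ← int_weight]
  rw [show (∫ ρ in (0 : ℝ)..1, ((n : ℝ) + 1) * (ρ ^ n * (1 - ρ ^ 2) ^ 2)) *
      Real.exp (-((1 - Real.log 2) * δ)) * ψ 0 ^ 2 =
      (Real.exp (-((1 - Real.log 2) * δ)) * ψ 0 ^ 2) *
        (∫ ρ in (0 : ℝ)..1, ((n : ℝ) + 1) * (ρ ^ n * (1 - ρ ^ 2) ^ 2)) by ring,
    ← intervalIntegral.integral_const_mul]
  refine intervalIntegral.integral_mono_on zero_le_one ?_ ?_ (fun ρ hρ => ?_)
  · apply Continuous.intervalIntegrable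
    fun_prop
  · apply Continuous.intervalIntegrable
    fun_prop
  · have hρ2 : ρ ^ 2 ∈ Icc (0 : ℝ) 1 := ⟨by positivity, by nlinarith [hρ.1, hρ.2]⟩
    have h1 := hlow _ hρ2
    have h2 : 0 ≤ 1 - ρ ^ 2 := by linarith [hρ2.2]
    have h3 := ch_pos δ (ρ ^ 2)
    have h4 : (ψ 0 * ph δ (ρ ^ 2)) ^ 2 ≤ ψ (ρ ^ 2) ^ 2 :=
      pow_le_pow_left₀ (by unfold ph; positivity) h1 2
    have h5 := hch (ρ ^ 2)
    have h6 : 0 ≤ ρ ^ n := pow_nonneg hρ.1 n
    calc Real.exp (-((1 - Real.log 2) * δ)) * ψ 0 ^ 2 * (((n : ℝ) + 1) * (ρ ^ n * (1 - ρ ^ 2) ^ 2))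
        ≤ ch δ (ρ ^ 2) ^ 2 * ψ 0 ^ 2 * (((n : ℝ) + 1) * (ρ ^ n * (1 - ρ ^ 2) ^ 2)) := by
          gcongr
      _ = ((n : ℝ) + 1) * (ρ ^ n * (ψ 0 * ph δ (ρ ^ 2)) ^ 2) := by unfold ph; ring
      _ ≤ _ := by gcongr

end

end Pool.Agent.Lib.H38.Tor
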