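import Mathlib
import Pool.Agent.Lib.H38.Tor.Final
import Pool.Agent.Lib.H38.Tor2.Limit2
import Pool.Agent.Lib.H38.Tor2.Prof
import Pool.Agent.Lib.H38.Tor2.Alg

set_option autoImplicit false

/-!
# Assembly with an explicit threshold
-/

namespace Pool.Agent.Lib.H38.Tor

open MeasureTheory Set Filter Topology

/-- For sets of the volume of the unit ball, with an explicit threshold. -/
theorem unit_case2 {d : ℕ} (hd : 1 ≤ d) {q : ℝ}
    (hq : 1 + 5 / 9 * ((d : ℝ) + 2) * Real.exp (d / 2) ≤ q) {Ω : Set (E d)} (hΩ : IsOpen Ω)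
    (hvol : volume Ω = volume (Metric.ball (0 : E d) 1)) :
      sInf (RaySet Ω) * (sSup (TorSet Ω)) ^ q ≤
        sInf (RaySet (Metric.ball (0 : E d) 1)) *
          (sSup (TorSet (Metric.ball (0 : E d) 1))) ^ q := by
  have hd' : (1 : ℝ) ≤ d := by exact_mod_cast hd
  have hω := omega_pos hd
  have hW := WB_pos hd
  have hballne : (Metric.ball (0 : E d) 1).Nonempty := ⟨0, Metric.mem_ball_self one_pos⟩
  obtain ⟨Λ, hΛmem⟩ := raySet_nonempty (d := d) Metric.isOpen_ball hballne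
  obtain ⟨μ, ψ, ψ', ψ'', hμ, hrad, hψ1, hψpos, hψ'neg⟩ := exists_radial hd (Λ := Λ)
    (fun μ ψ ψ' ψ'' h hpos => ray_ge hd h hpos Λ hΛmem)
  have hμle : μ ≤ sInf (RaySet (Metric.ball (0 : E d) 1)) :=
    le_csInf ⟨Λ, hΛmem⟩ (ray_ge hd hrad hψpos)
  have hTBle := torB_ge hd
  have hTB : 0 < TB d := by unfold TB; positivity
  have hψ0 : 0 < ψ 0 := hψpos 0 ⟨le_rfl, one_pos⟩
  -- the profile
  set g : ℝ → ℝ := fun t => -(2 * d * ψ' (1 - 2 * d * t)) with hg
  have hψ'c : Continuous ψ' := continuous_iff_continuousAt.2 fun s => (hrad.h2 s).continuousAt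
  have hψc : Continuous ψ := continuous_iff_continuousAt.2 fun s => (hrad.h1 s).continuousAt
  have hgc : Continuous g := by
    have : Continuous (fun t : ℝ => ψ' (1 - 2 * d * t)) := hψ'c.comp (by fun_prop)
    exact (this.const_mul _).neg
  have hmem : ∀ t ∈ Icc 0 (WB d), 1 - 2 * d * t ∈ Icc (0 : ℝ) 1 := by
    intro t ht
    have h1 : 2 * d * t ≤ 1 := by
      have := ht.2
      unfold WB at this
      rw [le_div_iff₀ (by positivity)] at this
      linarith
    have h2 : 0 ≤ 2 * d * t := by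
      have := ht.1
      positivity
    exact ⟨by linarith, by linarith⟩
  have hgpos : ∀ t ∈ Icc 0 (WB d), 0 < g t := by
    intro t ht
    have := hψ'neg _ (hmem t ht)
    rw [hg]
    simp only
    have h2 : 0 < 2 * (d : ℝ) := by linarith
    nlinarith
  have hgle : ∀ t ∈ Icc 0 (WB d), g t ≤ μ * ψ 0 := by
    intro t ht
    obtain ⟨n, rfl⟩ : ∃ n, d = n + 1 := ⟨d - 1, by omega⟩
    exact grad_le hrad hμ hψ'neg (hmem t ht)
  have hψle : ∀ t ∈ Icc 0 (WB d), ψ (1 - 2 * d * t) ≤ ψ 0 := by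
    intro t ht
    obtain ⟨n, rfl⟩ : ∃ n, d = n + 1 := ⟨d - 1, by omega⟩
    exact psi_anti hrad hψ'neg (left_mem_Icc.2 zero_le_one) (hmem t ht) (hmem t ht).1
  have hψnn : ∀ t ∈ Icc 0 (WB d), 0 ≤ ψ (1 - 2 * d * t) := by
    intro t ht
    obtain ⟨n, rfl⟩ : ∃ n, d = n + 1 := ⟨d - 1, by omega⟩
    have := psi_anti hrad hψ'neg (hmem t ht) (right_mem_Icc.2 zero_le_one) (hmem t ht).2
    rwa [hψ1] at this
  have hPr : ∀ t : ℝ, (∫ τ in (0 : ℝ)..t, g τ) = ψ (1 - 2 * d * t) := by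
    intro t
    have h1 : ∀ τ ∈ uIcc 0 t, HasDerivAt (fun τ => ψ (1 - 2 * d * τ)) (g τ) τ := by
      intro τ _
      have h2 : HasDerivAt (fun τ : ℝ => 1 - 2 * d * τ) (-(2 * d)) τ := by
        have := ((hasDerivAt_id τ).const_mul (2 * (d : ℝ))).const_sub 1
        simpa using this
      have h3 := (hrad.h1 (1 - 2 * d * τ)).comp τ h2
      convert! h3 using 1
      rw [hg]
      ring
    rw [intervalIntegral.integral_eq_sub_of_hasDerivAt h1 (hgc.intervalIntegrable _ _)]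
    simp [hψ1]
  -- the constants
  set D : ℝ := ∫ t in (0 : ℝ)..WB d,
    2 * ψ (1 - 2 * d * t) * (-(2 * d * ψ' (1 - 2 * d * t))) * mB d t with hD
  have hA : (∫ t in (0 : ℝ)..WB d, g t ^ 2 * mB d t) = μ * D := radial_identity hd hrad hψ1
  have hDge : omega d * ψ 0 ^ 2 * (2 * Real.exp (-((d : ℝ) / 2)) / ((d : ℝ) + 2)) ≤ D := by
    obtain ⟨n, rfl⟩ : ∃ n, d = n + 1 := ⟨d - 1, by omega⟩
    have h := mass_ge_explicit hrad hψ1 hψpos hω
    have e : (((n + 1 : ℕ) : ℝ) + 2) = (n : ℝ) + 3 := by push_cast; ring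
    have e2 : ((n + 1 : ℕ) : ℝ) / 2 = ((n : ℝ) + 1) / 2 := by push_cast; ring
    rw [e, e2]
    exact h
  have hexp : 0 < Real.exp (-((d : ℝ) / 2)) := Real.exp_pos _
  have hDpos : 0 < D := by
    refine lt_of_lt_of_le ?_ hDge
    positivity
  have hq1 : 1 ≤ q := by
    refine le_trans ?_ hq
    have : 0 ≤ 5 / 9 * ((d : ℝ) + 2) * Real.exp (d / 2) := by positivity
    linarith
  have hqpos : 0 < q := by linarith
  have hRHS : μ * TB d ^ q ≤ sInf (RaySet (Metric.ball (0 : E d) 1)) *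
      (sSup (TorSet (Metric.ball (0 : E d) 1))) ^ q := by
    have h1 : TB d ^ q ≤ (sSup (TorSet (Metric.ball (0 : E d) 1))) ^ q :=
      Real.rpow_le_rpow hTB.le hTBle hqpos.le
    have h2 : 0 ≤ sInf (RaySet (Metric.ball (0 : E d) 1)) := sInf_ray_nonneg
    gcongr
  refine le_trans ?_ hRHS
  by_cases hb : BddAbove (TorSet Ω)
  · obtain ⟨h1, -⟩ := main_limit hd hΩ hvol hb
    have h5 := ray_mul_tor_le hΩ (by rw [hvol]; exact measure_ball_lt_top)
    rw [hvol] at h5
    have hDD : 0 < D / ψ 0 ^ 2 := by positivity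
    refine final_alg2 (ω := omega d) (T0 := TB d) (D := D / ψ 0 ^ 2) hω hTB hμ hDD ?_
      sInf_ray_nonneg sSup_nonneg' h1 h5 ?_
    · refine le_trans ?_ hq
      have h6 : omega d / (D / ψ 0 ^ 2) ≤ ((d : ℝ) + 2) * Real.exp (d / 2) / 2 := by
        rw [div_div_eq_mul_div, div_le_iff₀ hDpos]
        calc omega d * ψ 0 ^ 2 = ((d : ℝ) + 2) * Real.exp (d / 2) / 2 *
              (omega d * ψ 0 ^ 2 * (2 * Real.exp (-((d : ℝ) / 2)) / ((d : ℝ) + 2))) := by
              rw [Real.exp_neg]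
              field_simp
          _ ≤ _ := by gcongr
      linarith
    · intro hμlam
      have hlam := sInf_ray_nonneg (Ω := Ω)
      set lam := sInf (RaySet Ω) with hlamdef
      have hlampos : 0 < lam := hμ.trans_le hμlam
      have h3 := main_limit2 hd hΩ hvol hb g ((2 * lam * μ - μ ^ 2) * ψ 0 ^ 2) hgc
        (fun t ht => (hgpos t ht).le) (by nlinarith [mul_pos hμ hμ, sq_nonneg (ψ 0), mul_nonneg (by nlinarith : 0 ≤ 2 * lam * μ - μ ^ 2) (sq_nonneg (ψ 0))])
        (fun t ht => by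
          rw [hPr t]
          have e1 := hgle t ht
          have e2 := hψle t ht
          have e3 := (hgpos t ht).le
          have e4 := hψnn t ht
          have e5 : lam * (2 * ψ (1 - 2 * d * t) * g t) ≤ lam * (2 * ψ 0 * g t) := by gcongr
          have e6 : lam * (2 * ψ 0 * g t) - g t ^ 2 ≤ (2 * lam * μ - μ ^ 2) * ψ 0 ^ 2 := by
            have f1 : (2 * lam * μ - μ ^ 2) * ψ 0 ^ 2 - (lam * (2 * ψ 0 * g t) - g t ^ 2) =
                (μ * ψ 0 - g t) * (2 * lam * ψ 0 - μ * ψ 0 - g t) := by ring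
            have f2 : 0 ≤ μ * ψ 0 - g t := by linarith
            have f3 : 0 ≤ 2 * lam * ψ 0 - μ * ψ 0 - g t := by nlinarith
            have := mul_nonneg f2 f3
            linarith
          linarith)
      rw [hA] at h3
      have h4 : (∫ t in (0 : ℝ)..WB d, 2 * (∫ τ in (0 : ℝ)..t, g τ) * g t * mB d t) = D := by
        rw [hD]
        refine intervalIntegral.integral_congr (fun t _ => ?_)
        rw [hPr t]
      rw [h4] at h3
      have hψsq : 0 < ψ 0 ^ 2 := by positivity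
      rw [← mul_div_assoc, div_le_iff₀ hψsq]
      linarith
  · rw [Real.sSup_of_not_bddAbove hb, Real.zero_rpow hqpos.ne', mul_zero]
    positivity

end Pool.Agent.Lib.H38.Tor
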