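import Mathlib
import Pool.Agent.Lib.H38.Tor.BallRay

set_option autoImplicit false

/-!
# Barta type lower bound for the first eigenvalue of a round annulus
-/

namespace Pool.Agent.Lib.H38.Tor

open MeasureTheory Set Filter Topology

/-- the annulus `a < |x| ^ 2 < 1` -/
def Ann (d : ℕ) (a : ℝ) : Set (E d) := {x : E d | a < ‖x‖ ^ 2 ∧ ‖x‖ ^ 2 < 1}

lemma Ann_open (d : ℕ) (a : ℝ) : IsOpen (Ann d a) := by
  have h : Continuous (fun x : E d => ‖x‖ ^ 2) := by fun_prop
  exact (isOpen_lt continuous_const h).inter (isOpen_lt h continuous_const)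

lemma contDiffAt_one_of_hasDerivAt {f f' : ℝ → ℝ} {a b s : ℝ} (hs : s ∈ Ioo a b)
    (h : ∀ t ∈ Ioo a b, HasDerivAt f (f' t) t) (hc : ContinuousOn f' (Ioo a b)) :
    ContDiffAt ℝ 1 f s := by
  rw [contDiffAt_one_iff]
  refine ⟨fun t => ContinuousLinearMap.toSpanSingleton ℝ (f' t), Ioo a b,
    Ioo_mem_nhds hs.1 hs.2, ?_, fun t ht => (h t ht).hasFDerivAt⟩
  have : Continuous (fun y : ℝ => ContinuousLinearMap.toSpanSingleton ℝ y) := by
    exact (ContinuousLinearMap.toSpanSingletonCLE (𝕜 := ℝ) (E := ℝ)).continuous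
  exact this.comp_continuousOn hc

/-- Barta: a positive supersolution on the annulus. -/
theorem ray_ge_ann {d : ℕ} {a lam : ℝ} {θ θ' θ'' : ℝ → ℝ} (ha : 0 ≤ a)
    (h1 : ∀ s ∈ Ioo a 1, HasDerivAt θ (θ' s) s) (h2 : ∀ s ∈ Ioo a 1, HasDerivAt θ' (θ'' s) s)
    (h3 : ContinuousOn θ'' (Ioo a 1)) (hpos : ∀ s ∈ Ioo a 1, 0 < θ s)
    (hode : ∀ s ∈ Ioo a 1, 4 * s * θ'' s + 2 * d * θ' s + lam * θ s ≤ 0) :
    ∀ r ∈ RaySet (Ann d a), lam ≤ r := by
  rintro r ⟨u, hu, hcs, hsub, hne, rfl⟩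
  have huc := hu.continuous
  have hu' : Continuous (fun x => fderiv ℝ u x) := hu.continuous_fderiv one_ne_zero
  have hu2 : 0 < ∫ x, u x ^ 2 := by
    refine Continuous.integral_pos_of_hasCompactSupport_nonneg_nonzero (x := ?_) ?_ ?_ ?_ ?_
    · exact (Function.ne_iff.mp hne).choose
    · fun_prop
    · refine hcs.mono' ?_
      intro x hx
      refine subset_closure ?_
      intro h0
      apply hx
      simp [h0]
    · intro x; positivity
    · have := (Function.ne_iff.mp hne).choose_spec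
      simpa using this
  rw [le_div_iff₀ hu2]
  -- the logarithmic derivative
  set κ : ℝ → ℝ := fun s => -2 * θ' s / θ s with hκ
  set κ' : ℝ → ℝ := fun s => -2 * θ'' s / θ s + 2 * θ' s ^ 2 / θ s ^ 2 with hκ'
  have hθc : ContinuousOn θ (Ioo a 1) := fun s hs => (h1 s hs).continuousAt.continuousWithinAt
  have hθ'c : ContinuousOn θ' (Ioo a 1) := fun s hs => (h2 s hs).continuousAt.continuousWithinAt
  have hκd : ∀ s ∈ Ioo a 1, HasDerivAt κ (κ' s) s := by
    intro s hs
    have hs0 := (hpos s hs).ne'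
    have := ((h2 s hs).const_mul (-2)).div (h1 s hs) hs0
    convert! this using 1
    simp only [hκ']
    field_simp
    ring
  have hκ'c : ContinuousOn κ' (Ioo a 1) := by
    have hne' : ∀ s ∈ Ioo a 1, θ s ≠ 0 := fun s hs => (hpos s hs).ne'
    refine ((h3.const_mul (-2)).div hθc hne').add ?_
    refine ((hθ'c.pow 2).const_mul 2).div (hθc.pow 2) (fun s hs => pow_ne_zero 2 (hne' s hs))
  have hric : ∀ s ∈ Ioo a 1, lam ≤ 2 * s * κ' s + d * κ s - s * κ s ^ 2 := by
    intro s hs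
    have hp := hpos s hs
    have e : 2 * s * κ' s + d * κ s - s * κ s ^ 2 = -(4 * s * θ'' s + 2 * d * θ' s) / θ s := by
      simp only [hκ', hκ]
      field_simp
      ring
    rw [e, le_div_iff₀ hp]
    have := hode s hs
    linarith
  -- the function G
  set G : E d → ℝ := fun x => u x ^ 2 * κ (‖x‖ ^ 2) with hG
  have hout : ∀ x, x ∉ tsupport u → u =ᶠ[𝓝 x] 0 := fun x hx =>
    notMem_tsupport_iff_eventuallyEq.mp hx
  have hin : ∀ x, x ∈ tsupport u → ‖x‖ ^ 2 ∈ Ioo a 1 := fun x hx => hsub hx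
  have hnorm : ContDiff ℝ 1 (fun x : E d => ‖x‖ ^ 2) := contDiff_norm_sq ℝ
  have hGC : ContDiff ℝ 1 G := by
    rw [contDiff_iff_contDiffAt]
    intro x
    by_cases hx : x ∈ tsupport u
    · refine ContDiffAt.mul (hu.contDiffAt.pow 2) ?_
      have h1 : ContDiffAt ℝ 1 κ (‖x‖ ^ 2) := contDiffAt_one_of_hasDerivAt (hin x hx) hκd hκ'c
      exact h1.comp x hnorm.contDiffAt
    · have h1 : G =ᶠ[𝓝 x] fun _ => 0 := by
        filter_upwards [hout x hx] with y hy
        simp [hG, hy]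
      exact contDiffAt_const.congr_of_eventuallyEq h1
  have hGcs : HasCompactSupport G := by
    refine hcs.mono' ?_
    intro x hx
    refine subset_closure ?_
    intro h0
    apply hx
    simp [hG, h0]
  have hGd : ∀ x, 2 * u x * κ (‖x‖ ^ 2) * fderiv ℝ u x x +
      u x ^ 2 * (lam + ‖x‖ ^ 2 * κ (‖x‖ ^ 2) ^ 2) ≤ fderiv ℝ G x x + d * G x := by
    intro x
    by_cases hx : x ∈ tsupport u
    · have hu1 : HasFDerivAt u (fderiv ℝ u x) x :=
        ((hu.differentiable one_ne_zero) x).hasFDerivAt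
      have hn1 : HasFDerivAt (fun x : E d => ‖x‖ ^ 2) (2 • innerSL ℝ x) x :=
        (hasStrictFDerivAt_norm_sq x).hasFDerivAt
      have hk1 := (hκd (‖x‖ ^ 2) (hin x hx)).comp_hasFDerivAt x hn1
      have hG1 := (hu1.pow 2).mul hk1
      have e : fderiv ℝ G x x = 2 * u x * κ (‖x‖ ^ 2) * fderiv ℝ u x x +
          u x ^ 2 * (2 * ‖x‖ ^ 2 * κ' (‖x‖ ^ 2)) := by
        have : G = (fun x => u x ^ 2) * κ ∘ fun x => ‖x‖ ^ 2 := rfl
        rw [this, hG1.fderiv]
        simp [real_inner_self_eq_norm_sq]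
        ring
      have e2 := hric (‖x‖ ^ 2) (hin x hx)
      rw [e]
      simp only [hG]
      have := mul_le_mul_of_nonneg_left e2 (sq_nonneg (u x))
      linarith
    · have h1 : G =ᶠ[𝓝 x] fun _ => 0 := by
        filter_upwards [hout x hx] with y hy
        simp [hG, hy]
      have h2 : fderiv ℝ G x = 0 := by
        rw [h1.fderiv_eq]; simp
      have h3 : u x = 0 := (hout x hx).self_of_nhds
      rw [h2]
      simp [hG, h3]
  have hpt : ∀ x, -(fderiv ℝ G x x + d * G x) ≤ ‖fderiv ℝ u x‖ ^ 2 - lam * u x ^ 2 := by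
    intro x
    have h0 := hGd x
    set f := fderiv ℝ u x
    set k := κ (‖x‖ ^ 2)
    have h1 : |f x| ≤ ‖f‖ * ‖x‖ := f.le_opNorm x
    have h2 : -(2 * (|u x * k| * (‖f‖ * ‖x‖))) ≤ 2 * (u x * k * f x) := by
      have h3 : |u x * k * f x| ≤ |u x * k| * (‖f‖ * ‖x‖) := by
        rw [abs_mul]
        exact mul_le_mul_of_nonneg_left h1 (abs_nonneg _)
      have h4 := neg_abs_le (u x * k * f x)
      linarith
    have h5 : (|u x * k| * ‖x‖) ^ 2 = u x ^ 2 * (‖x‖ ^ 2 * k ^ 2) := by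
      rw [mul_pow, sq_abs]; ring
    nlinarith [sq_nonneg (‖f‖ - |u x * k| * ‖x‖)]
  have hI1 : Integrable (fun x => fderiv ℝ G x x) := by
    have hG' : Continuous (fun x => fderiv ℝ G x) := hGC.continuous_fderiv one_ne_zero
    refine Continuous.integrable_of_hasCompactSupport (by fun_prop) ?_
    refine (hGcs.fderiv ℝ).mono' ?_
    intro x hx
    refine subset_closure ?_
    intro h0
    apply hx
    simp only at h0 ⊢
    rw [h0]; simp
  have hI2 : Integrable G := hGC.continuous.integrable_of_hasCompactSupport hGcs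
  have hI3 : Integrable (fun x => ‖fderiv ℝ u x‖ ^ 2) := by
    refine Continuous.integrable_of_hasCompactSupport (by fun_prop) ?_
    refine (hcs.fderiv ℝ).mono' ?_
    intro x hx
    refine subset_closure ?_
    intro h0
    apply hx
    simp only at h0 ⊢
    rw [h0]; simp
  have hI4 : Integrable (fun x => u x ^ 2) := by
    refine Continuous.integrable_of_hasCompactSupport (by fun_prop) ?_
    refine hcs.mono' ?_
    intro x hx
    refine subset_closure ?_
    intro h0
    apply hx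
    simp [h0]
  have hmain := integral_mono (hI1.add (hI2.const_mul (d : ℝ))).neg
    (hI3.sub (hI4.const_mul lam)) hpt
  have e1 : ∫ x, (-((fun x => fderiv ℝ G x x) + fun x => (d : ℝ) * G x)) x = 0 := by
    have : ∀ x, (-((fun x => fderiv ℝ G x x) + fun x => (d : ℝ) * G x)) x =
        -(fderiv ℝ G x x + (d : ℝ) * G x) := fun x => rfl
    simp_rw [this]
    rw [integral_neg, integral_add hI1 (hI2.const_mul _), integral_fderiv_self hGC hGcs,
      integral_const_mul]
    ring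
  have e2 : ∫ x, ((fun x => ‖fderiv ℝ u x‖ ^ 2) - fun x => lam * u x ^ 2) x =
      (∫ x, ‖fderiv ℝ u x‖ ^ 2) - lam * ∫ x, u x ^ 2 := by
    have : ∀ x, ((fun x => ‖fderiv ℝ u x‖ ^ 2) - fun x => lam * u x ^ 2) x =
        ‖fderiv ℝ u x‖ ^ 2 - lam * u x ^ 2 := fun x => rfl
    simp_rw [this]
    rw [integral_sub hI3 (hI4.const_mul _), integral_const_mul]
  rw [e1, e2] at hmain
  linarith

end Pool.Agent.Lib.H38.Tor
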