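import Mathlib
import Pool.Agent.Lib.H38.Tor2.RayAnn
import Pool.Agent.Lib.H38.Tor2.Prof
import Pool.Agent.Lib.H38.Tor.Cmp

set_option autoImplicit false

/-!
# The first eigenvalue of a ball with a small hole
-/

namespace Pool.Agent.Lib.H38.Tor

open MeasureTheory Set Filter Topology

lemma Ann_nonempty {d : ℕ} (hd : 1 ≤ d) {a : ℝ} (ha : 0 ≤ a) (ha1 : a < 1) : (Ann d a).Nonempty := by
  refine ⟨EuclideanSpace.single (⟨0, hd⟩ : Fin d) (√((a + 1) / 2)), ?_⟩
  have h : ‖EuclideanSpace.single (⟨0, hd⟩ : Fin d) (√((a + 1) / 2))‖ ^ 2 = (a + 1) / 2 := by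
    rw [EuclideanSpace.norm_single, Real.norm_eq_abs, sq_abs, Real.sq_sqrt (by linarith)]
  refine ⟨?_, ?_⟩
  · rw [h]; linarith
  · rw [h]; linarith

/-- eigenvalue of the ball with a hole -/
theorem ray_hole {d : ℕ} (hd : 3 ≤ d) {μ : ℝ} {ψ ψ' ψ'' : ℝ → ℝ} (h : Radial d μ ψ ψ' ψ'')
    (hpos : ∀ s ∈ Ico (0 : ℝ) 1, 0 < ψ s) (hanti : AntitoneOn ψ (Icc 0 1))
    {a δ : ℝ} (ha : 0 < a) (haδ : a < δ) (hδ : δ < 1) :
    μ + 1 / ((1 / 4 * ∫ τ in (0 : ℝ)..1, τ ^ ((d : ℝ) / 2 - 1) * ψ τ ^ 2) / ψ δ ^ 2 *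
      (a ^ (1 - (d : ℝ) / 2) / ((d : ℝ) / 2 - 1)) + δ ^ (-((d : ℝ) / 2)) / (2 * d)) ≤
      sInf (RaySet (Ann d a)) := by
  have hd3 : (3 : ℝ) ≤ d := by exact_mod_cast hd
  set p : ℝ := (d : ℝ) / 2 with hp
  have hp1 : 0 < p - 1 := by rw [hp]; linarith
  have hp0 : 0 < p := by linarith
  have hdp : (d : ℝ) = 2 * p := by rw [hp]; ring
  have hδ0 : 0 < δ := ha.trans haδ
  have ha1 : a < 1 := haδ.trans hδ
  have cψ : Continuous ψ := continuous_iff_continuousAt.mpr fun s => (h.h1 s).continuousAt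
  have cψ' : Continuous ψ' := continuous_iff_continuousAt.mpr fun s => (h.h2 s).continuousAt
  set f : ℝ → ℝ := fun τ => τ ^ (p - 1) * ψ τ ^ 2 with hf
  have cf : Continuous f := (Real.continuous_rpow_const hp1.le).mul (cψ.pow 2)
  set N0 : ℝ := 1 / 4 * ∫ τ in (0 : ℝ)..1, f τ with hN0
  set n : ℝ → ℝ := fun s => 1 / 4 * ∫ τ in s..1, f τ with hn
  have hn' : ∀ s, HasDerivAt n (-(1 / 4 * f s)) s := by
    intro s
    have h1 := intervalIntegral.integral_hasDerivAt_left (a := s) (b := 1)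
      (cf.intervalIntegrable _ _) (cf.stronglyMeasurableAtFilter _ _) cf.continuousAt
    refine (h1.const_mul (1 / 4)).congr_deriv ?_
    ring
  have hfpos : ∀ τ ∈ Ioo (0 : ℝ) 1, 0 < f τ := by
    intro τ hτ
    have h1 := hpos τ ⟨hτ.1.le, hτ.2⟩
    have h2 := Real.rpow_pos_of_pos hτ.1 (p - 1)
    positivity
  have hfnn : ∀ τ ∈ Icc (0 : ℝ) 1, 0 ≤ f τ := by
    intro τ hτ
    have h2 := Real.rpow_nonneg hτ.1 (p - 1)
    positivity
  have hnpos : ∀ s ∈ Ico (0 : ℝ) 1, 0 < n s := by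
    intro s hs
    have : 0 < ∫ τ in s..1, f τ :=
      intervalIntegral.intervalIntegral_pos_of_pos_on (cf.intervalIntegrable _ _)
        (fun τ hτ => hfpos τ ⟨hs.1.trans_lt hτ.1, hτ.2⟩) hs.2
    simp only [hn]
    positivity
  have hnle : ∀ s ∈ Icc (0 : ℝ) 1, n s ≤ N0 := by
    intro s hs
    simp only [hn, hN0]
    rw [← intervalIntegral.integral_add_adjacent_intervals (cf.intervalIntegrable 0 s)
      (cf.intervalIntegrable s 1)]
    have : 0 ≤ ∫ τ in (0 : ℝ)..s, f τ :=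
      intervalIntegral.integral_nonneg hs.1 (fun τ hτ => hfnn τ ⟨hτ.1, hτ.2.trans hs.2⟩)
    linarith
  have hN0pos : 0 < N0 := by
    have := hnpos 0 ⟨le_rfl, one_pos⟩
    exact this
  have hnle2 : ∀ s ∈ Ico (0 : ℝ) 1, n s ≤ ψ s ^ 2 / (2 * d) := by
    intro s hs
    simp only [hn]
    have h1 : (∫ τ in s..1, f τ) ≤ ∫ τ in s..1, ψ s ^ 2 * τ ^ (p - 1) := by
      refine intervalIntegral.integral_mono_on hs.2.le (cf.intervalIntegrable _ _)
        (((Real.continuous_rpow_const hp1.le).const_mul _ |>.congr (fun τ => rfl)).intervalIntegrable _ _)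
        (fun τ hτ => ?_)
      have hτ0 : 0 ≤ τ := hs.1.trans hτ.1
      have h2 : ψ τ ≤ ψ s := hanti ⟨hs.1, hs.2.le⟩ ⟨hτ0, hτ.2⟩ hτ.1
      have h3 : 0 ≤ ψ τ := by
        rcases hτ.2.eq_or_lt with h4 | h4
        · have h5 : Tendsto ψ (𝓝[<] (1 : ℝ)) (𝓝 (ψ 1)) :=
            cψ.continuousAt.tendsto.mono_left nhdsWithin_le_nhds
          rw [h4]
          apply ge_of_tendsto h5
          filter_upwards [Ioo_mem_nhdsLT (zero_lt_one' ℝ)] with y hy
          exact (hpos y ⟨hy.1.le, hy.2⟩).le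
        · exact (hpos τ ⟨hτ0, h4⟩).le
      have h4 := Real.rpow_nonneg hτ0 (p - 1)
      simp only [hf]
      calc τ ^ (p - 1) * ψ τ ^ 2 ≤ τ ^ (p - 1) * ψ s ^ 2 := by gcongr
        _ = ψ s ^ 2 * τ ^ (p - 1) := by ring
    have h5 : (∫ τ in s..1, τ ^ (p - 1)) ≤ 1 / p := by
      rw [integral_rpow (Or.inl (by linarith))]
      simp only [sub_add_cancel, Real.one_rpow]
      have := Real.rpow_nonneg hs.1 p
      gcongr
      linarith
    rw [intervalIntegral.integral_const_mul] at h1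
    calc 1 / 4 * ∫ τ in s..1, f τ ≤ 1 / 4 * (ψ s ^ 2 * (1 / p)) := by
          have : ψ s ^ 2 * (∫ τ in s..1, τ ^ (p - 1)) ≤ ψ s ^ 2 * (1 / p) := by gcongr
          linarith
      _ = ψ s ^ 2 / (2 * d) := by rw [hdp]; field_simp; ring
  -- the flux
  set R : ℝ → ℝ := fun s => s ^ (-p) * n s with hR
  set R' : ℝ → ℝ := fun s => -(p / s * R s) - ψ s ^ 2 / (4 * s) with hR'
  have hRd : ∀ s, 0 < s → HasDerivAt R (R' s) s := by
    intro s hs
    have h1 := (Real.hasDerivAt_rpow_const (p := -p) (Or.inl hs.ne')).mul (hn' s)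
    refine h1.congr_deriv ?_
    simp only [hR', hR, hf]
    have e1 : s ^ (-p - 1) = s ^ (-p) / s := by rw [Real.rpow_sub_one hs.ne']
    have e2 : s ^ (-p) * s ^ (p - 1) = 1 / s := by
      rw [← Real.rpow_add hs, show -p + (p - 1) = -1 by ring, Real.rpow_neg_one, one_div]
    rw [e1]
    linear_combination (-(1 / 4) * ψ s ^ 2) * e2
  have hRc : ContinuousOn R (Ioi 0) := fun s hs => (hRd s hs).continuousAt.continuousWithinAt
  have hRpos : ∀ s ∈ Ioo (0 : ℝ) 1, 0 < R s := by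
    intro s hs
    have h1 := hnpos s ⟨hs.1.le, hs.2⟩
    have h2 := Real.rpow_pos_of_pos hs.1 (-p)
    simp only [hR]
    positivity
  set g : ℝ → ℝ := fun s => R s / ψ s ^ 2 with hg
  have hgc : ContinuousOn g (Ioo 0 1) := by
    refine (hRc.mono (fun s hs => hs.1)).div (cψ.pow 2).continuousOn (fun s hs => ?_)
    exact pow_ne_zero 2 (hpos s ⟨hs.1.le, hs.2⟩).ne'
  have hgi : ∀ s ∈ Ioo a 1, IntervalIntegrable g volume a s := by
    intro s hs
    apply ContinuousOn.intervalIntegrable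
    rw [uIcc_of_le hs.1.le]
    exact hgc.mono (fun τ hτ => ⟨ha.trans_le hτ.1, hτ.2.trans_lt hs.2⟩)
  set P : ℝ → ℝ := fun s => ∫ τ in a..s, g τ with hP
  have hPd : ∀ s ∈ Ioo a 1, HasDerivAt P (g s) s := by
    intro s hs
    have hs' : s ∈ Ioo (0 : ℝ) 1 := ⟨ha.trans hs.1, hs.2⟩
    exact intervalIntegral.integral_hasDerivAt_right (hgi s hs)
      (hgc.stronglyMeasurableAtFilter isOpen_Ioo s hs')
      (hgc.continuousAt (Ioo_mem_nhds hs'.1 hs'.2))
  have hPpos : ∀ s ∈ Ioo a 1, 0 < P s := by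
    intro s hs
    refine intervalIntegral.intervalIntegral_pos_of_pos_on (hgi s hs) (fun τ hτ => ?_) hs.1
    have hτ' : τ ∈ Ioo (0 : ℝ) 1 := ⟨ha.trans hτ.1, hτ.2.trans hs.2⟩
    have h1 := hRpos τ hτ'
    have h2 := hpos τ ⟨hτ'.1.le, hτ'.2⟩
    simp only [hg]
    positivity
  have hψδ : 0 < ψ δ := hpos δ ⟨hδ0.le, hδ⟩
  set I : ℝ := N0 / ψ δ ^ 2 * (a ^ (1 - p) / (p - 1)) + δ ^ (-p) / (2 * d) with hI
  have hδp : 0 < δ ^ (-p) := Real.rpow_pos_of_pos hδ0 _
  have hap : 0 < a ^ (1 - p) := Real.rpow_pos_of_pos ha _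
  have hIpos : 0 < I := by
    have : 0 < p - 1 := hp1
    positivity
  have hPle : ∀ s ∈ Ioo a 1, P s ≤ I := by
    intro s hs
    have hbi1 : IntervalIntegrable (fun τ : ℝ => τ ^ (-p)) volume a s := by
      apply ContinuousOn.intervalIntegrable
      rw [uIcc_of_le hs.1.le]
      intro τ hτ
      exact (Real.continuousAt_rpow_const τ (-p) (Or.inl (ha.trans_le hτ.1).ne')).continuousWithinAt
    have hbi : IntervalIntegrable (fun τ : ℝ => N0 / ψ δ ^ 2 * τ ^ (-p) + δ ^ (-p) / (2 * d))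
        volume a s := (hbi1.const_mul _).add intervalIntegrable_const
    have h1 : P s ≤ ∫ τ in a..s, (N0 / ψ δ ^ 2 * τ ^ (-p) + δ ^ (-p) / (2 * d)) := by
      refine intervalIntegral.integral_mono_on hs.1.le (hgi s hs) hbi (fun τ hτ => ?_)
      have hτ0 : 0 < τ := ha.trans_le hτ.1
      have hτ1 : τ < 1 := hτ.2.trans_lt hs.2
      have hψτ := hpos τ ⟨hτ0.le, hτ1⟩
      have hτp := Real.rpow_pos_of_pos hτ0 (-p)
      have hterm1 : 0 ≤ N0 / ψ δ ^ 2 * τ ^ (-p) := by positivity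
      have hterm2 : 0 ≤ δ ^ (-p) / (2 * d) := by positivity
      rcases le_total τ δ with h2 | h2
      · have h3 : ψ δ ≤ ψ τ := hanti ⟨hτ0.le, hτ1.le⟩ ⟨hδ0.le, hδ.le⟩ h2
        have h4 := hnle τ ⟨hτ0.le, hτ1.le⟩
        have h5 : g τ ≤ N0 / ψ δ ^ 2 * τ ^ (-p) := by
          simp only [hg, hR]
          calc τ ^ (-p) * n τ / ψ τ ^ 2 ≤ τ ^ (-p) * N0 / ψ δ ^ 2 := by gcongr
            _ = N0 / ψ δ ^ 2 * τ ^ (-p) := by ring
        linarith
      · have h4 := hnle2 τ ⟨hτ0.le, hτ1⟩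
        have hnτ := (hnpos τ ⟨hτ0.le, hτ1⟩).le
        have h6 : τ ^ (-p) ≤ δ ^ (-p) := Real.rpow_le_rpow_of_nonpos hδ0 h2 (by linarith)
        have h5 : g τ ≤ δ ^ (-p) / (2 * d) := by
          simp only [hg, hR]
          calc τ ^ (-p) * n τ / ψ τ ^ 2 ≤ δ ^ (-p) * (ψ τ ^ 2 / (2 * d)) / ψ τ ^ 2 := by gcongr
            _ = δ ^ (-p) / (2 * d) := by field_simp
        linarith
    refine h1.trans ?_
    rw [intervalIntegral.integral_add (hbi1.const_mul _) intervalIntegrable_const,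
      intervalIntegral.integral_const_mul, intervalIntegral.integral_const]
    have h2 : (∫ τ in a..s, τ ^ (-p)) ≤ a ^ (1 - p) / (p - 1) := by
      rw [integral_rpow (Or.inr ⟨by linarith, by
        rw [uIcc_of_le hs.1.le]
        intro h0
        exact absurd h0.1 (not_le.2 ha)⟩)]
      have e : -p + 1 = -(p - 1) := by ring
      rw [e, div_neg, ← neg_div]
      have h3 : 0 ≤ s ^ (-(p - 1)) := Real.rpow_nonneg (ha.trans hs.1).le _
      have e2 : (1 : ℝ) - p = -(p - 1) := by ring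
      rw [e2]
      gcongr
      linarith
    have h3 : (s - a) • (δ ^ (-p) / (2 * (d : ℝ))) ≤ δ ^ (-p) / (2 * d) := by
      rw [smul_eq_mul]
      have : 0 ≤ δ ^ (-p) / (2 * (d : ℝ)) := by positivity
      have h4 : s - a ≤ 1 := by linarith [hs.2]
      calc (s - a) * (δ ^ (-p) / (2 * (d : ℝ))) ≤ 1 * (δ ^ (-p) / (2 * d)) := by gcongr
        _ = _ := one_mul _
    have h4 : N0 / ψ δ ^ 2 * (∫ τ in a..s, τ ^ (-p)) ≤ N0 / ψ δ ^ 2 * (a ^ (1 - p) / (p - 1)) := by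
      gcongr
    linarith
  -- the supersolution
  have hkey := ray_ge_ann (d := d) (a := a) (lam := μ + 1 / I)
    (θ := fun s => ψ s * P s) (θ' := fun s => ψ' s * P s + R s / ψ s)
    (θ'' := fun s => ψ'' s * P s + R' s / ψ s) ha.le ?_ ?_ ?_ ?_ ?_
  · obtain ⟨r, hr⟩ := raySet_nonempty (Ann_open d a) (Ann_nonempty (by lia) ha.le ha1)
    exact le_csInf ⟨r, hr⟩ hkey
  · intro s hs
    have hs' : s ∈ Ioo (0 : ℝ) 1 := ⟨ha.trans hs.1, hs.2⟩
    have hψs := hpos s ⟨hs'.1.le, hs'.2⟩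
    refine ((h.h1 s).mul (hPd s hs)).congr_deriv ?_
    simp only [hg]
    field_simp
  · intro s hs
    have hs' : s ∈ Ioo (0 : ℝ) 1 := ⟨ha.trans hs.1, hs.2⟩
    have hψs := hpos s ⟨hs'.1.le, hs'.2⟩
    refine (((h.h2 s).mul (hPd s hs)).add ((hRd s hs'.1).div (h.h1 s) hψs.ne')).congr_deriv ?_
    simp only [hg]
    field_simp
    ring
  · have hPc : ContinuousOn P (Ioo a 1) := fun s hs => (hPd s hs).continuousAt.continuousWithinAt
    have hR'c : ContinuousOn R' (Ioo a 1) := by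
      refine ContinuousOn.sub (ContinuousOn.neg (ContinuousOn.mul ?_ ?_)) ?_
      · exact continuousOn_const.div continuousOn_id (fun s hs => (ha.trans hs.1).ne')
      · exact hRc.mono (fun s hs => ha.trans hs.1)
      · refine (cψ.pow 2).continuousOn.div (by fun_prop) (fun s hs => ?_)
        have := ha.trans hs.1
        positivity
    refine (h.h3.continuousOn.mul hPc).add (hR'c.div cψ.continuousOn (fun s hs => ?_))
    exact (hpos s ⟨(ha.trans hs.1).le, hs.2⟩).ne'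
  · intro s hs
    exact mul_pos (hpos s ⟨(ha.trans hs.1).le, hs.2⟩) (hPpos s hs)
  · intro s hs
    have hs0 : 0 < s := ha.trans hs.1
    have hψs := hpos s ⟨hs0.le, hs.2⟩
    have hode := h.ode s
    have e1 : 4 * s * (ψ'' s * P s + R' s / ψ s) + 2 * d * (ψ' s * P s + R s / ψ s) +
        (μ + 1 / I) * (ψ s * P s) = ψ s * (P s / I - 1) := by
      have e2 : 4 * s * R' s + 2 * d * R s = -ψ s ^ 2 := by
        simp only [hR']
        rw [hdp]
        field_simp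
        ring
      have e3 : 4 * s * (R' s / ψ s) + 2 * d * (R s / ψ s) = -ψ s := by
        field_simp
        linarith
      have e4 : 4 * s * (ψ'' s * P s) + 2 * d * (ψ' s * P s) = -(μ * ψ s * P s) := by
        linear_combination (P s) * hode
      have e5 : (1 / I) * (ψ s * P s) = ψ s * (P s / I) := by ring
      linear_combination e3 + e4 + e5
    rw [e1]
    refine mul_nonpos_of_nonneg_of_nonpos hψs.le ?_
    have := hPle s hs
    have h6 : P s / I ≤ 1 := by rw [div_le_one hIpos]; exact this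
    linarith

end Pool.Agent.Lib.H38.Tor
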