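import Mathlib
import Pool.Agent.Lib.H38.Tor2.RayAnn
import Pool.Agent.Lib.H38.Tor.BallTor
import Pool.Agent.Lib.H38.Tor.Near

set_option autoImplicit false

/-!
# Lower bound for the torsional rigidity of a ball with a small hole
-/

namespace Pool.Agent.Lib.H38.Tor

open MeasureTheory Set Filter Topology

lemma pow_mul_rpow_eq {d : ℕ} (hd : 1 ≤ d) {y : ℝ} (hy : 0 < y) :
    y ^ (d - 1) * (y ^ 2) ^ (1 - (d : ℝ) / 2) = y := by
  have h1 : ((d - 1 : ℕ) : ℝ) = (d : ℝ) - 1 := by
    rw [Nat.cast_sub hd]; simp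
  rw [← Real.rpow_natCast y (d - 1), h1, ← Real.rpow_natCast y 2, ← Real.rpow_mul hy.le,
    ← Real.rpow_add hy]
  have : (d : ℝ) - 1 + ((2 : ℕ) : ℝ) * (1 - (d : ℝ) / 2) = 1 := by push_cast; ring
  rw [this, Real.rpow_one]

lemma integrableOn_pow_ball {d : ℕ} (hd : 1 ≤ d) :
    IntegrableOn (fun x : E d => (‖x‖ ^ 2) ^ (1 - (d : ℝ) / 2)) (Metric.ball (0 : E d) 1) := by
  have : Nontrivial (E d) := by
    have : Nonempty (Fin d) := ⟨⟨0, hd⟩⟩
    infer_instance
  have h := (integrableOn_fun_norm_addHaar (E := E d) (volume : Measure (E d))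
    (f := fun y : ℝ => (y ^ 2) ^ (1 - (d : ℝ) / 2)) (r := 1)).2
  apply h
  have h2 : IntegrableOn (fun y : ℝ => y) (Ioo 0 1) :=
    (continuous_id.continuousOn.integrableOn_compact isCompact_Icc).mono_set Ioo_subset_Icc_self
  refine h2.congr_fun (fun y hy => ?_) measurableSet_Ioo
  simp only [finrank_euclideanSpace, Fintype.card_fin, smul_eq_mul]
  exact (pow_mul_rpow_eq hd hy.1).symm

lemma integral_pow_ball {d : ℕ} (hd : 1 ≤ d) :
    ∫ x in Metric.ball (0 : E d) 1, (‖x‖ ^ 2) ^ (1 - (d : ℝ) / 2) = d * omega d / 2 := by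
  have : Nontrivial (E d) := by
    have : Nonempty (Fin d) := ⟨⟨0, hd⟩⟩
    infer_instance
  rw [← integral_indicator measurableSet_ball]
  have e1 : ∀ x : E d, (Metric.ball (0 : E d) 1).indicator
      (fun x => (‖x‖ ^ 2) ^ (1 - (d : ℝ) / 2)) x =
      (fun y : ℝ => (Iio (1 : ℝ)).indicator (fun y => (y ^ 2) ^ (1 - (d : ℝ) / 2)) y) ‖x‖ := by
    intro x
    by_cases hx : ‖x‖ < 1
    · rw [indicator_of_mem (mem_ball_zero_iff.2 hx)]
      simp only
      rw [indicator_of_mem (mem_Iio.2 hx)]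
    · rw [indicator_of_notMem (fun h => hx (mem_ball_zero_iff.1 h))]
      simp only
      rw [indicator_of_notMem (fun h => hx (mem_Iio.1 h))]
  simp_rw [e1]
  rw [integral_fun_norm_addHaar]
  have e2 : ∫ y in Ioi (0 : ℝ), y ^ (Module.finrank ℝ (E d) - 1) •
      (fun y : ℝ => (Iio (1 : ℝ)).indicator (fun y => (y ^ 2) ^ (1 - (d : ℝ) / 2)) y) y =
      1 / 2 := by
    have e3 : ∀ y ∈ Ioi (0 : ℝ), y ^ (Module.finrank ℝ (E d) - 1) •
      (fun y : ℝ => (Iio (1 : ℝ)).indicator (fun y => (y ^ 2) ^ (1 - (d : ℝ) / 2)) y) y =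
      (Iio (1 : ℝ)).indicator (fun y => y) y := by
      intro y hy
      simp only [finrank_euclideanSpace, Fintype.card_fin, smul_eq_mul]
      by_cases h1 : y < 1
      · rw [indicator_of_mem (mem_Iio.2 h1), indicator_of_mem (mem_Iio.2 h1)]
        exact pow_mul_rpow_eq hd hy
      · rw [indicator_of_notMem (fun h => h1 (mem_Iio.1 h)),
          indicator_of_notMem (fun h => h1 (mem_Iio.1 h)), mul_zero]
    rw [setIntegral_congr_fun measurableSet_Ioi e3, setIntegral_indicator measurableSet_Iio,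
      Ioi_inter_Iio, ← integral_Ioc_eq_integral_Ioo, ← intervalIntegral.integral_of_le zero_le_one,
      integral_id]
    norm_num
  rw [e2]
  simp only [finrank_euclideanSpace, Fintype.card_fin, smul_eq_mul, nsmul_eq_mul]
  unfold omega Measure.real
  ring

/-- The radial profile of a subsolution of the torsion problem in the annulus. -/
noncomputable def WA (d : ℕ) (B s : ℝ) : ℝ := (1 - s) / (2 * d) - B * s ^ (1 - (d : ℝ) / 2)

/-- Twice the derivative of `WA`. -/
noncomputable def yA (d : ℕ) (B s : ℝ) : ℝ := -(1 / (d : ℝ)) + B * (d - 2) * s ^ (-((d : ℝ) / 2))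

noncomputable def yA' (d : ℕ) (B s : ℝ) : ℝ :=
  B * (d - 2) * (-((d : ℝ) / 2) * s ^ (-((d : ℝ) / 2) - 1))

lemma WA_der {d : ℕ} (hd : 1 ≤ d) (B : ℝ) {s : ℝ} (hs : 0 < s) :
    HasDerivAt (WA d B) (yA d B s / 2) s := by
  have hd0 : (0 : ℝ) < d := by exact_mod_cast hd
  have h1 := (Real.hasDerivAt_rpow_const (p := 1 - (d : ℝ) / 2) (Or.inl hs.ne')).const_mul B
  have h2 := ((hasDerivAt_id s).const_sub 1).div_const (2 * (d : ℝ))
  refine (h2.sub h1).congr_deriv ?_
  unfold yA
  rw [show (1 : ℝ) - (d : ℝ) / 2 - 1 = -((d : ℝ) / 2) by ring]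
  field_simp
  ring

lemma yA_der {d : ℕ} (B : ℝ) {s : ℝ} (hs : 0 < s) :
    HasDerivAt (yA d B) (yA' d B s) s := by
  have h1 := (Real.hasDerivAt_rpow_const (p := -((d : ℝ) / 2)) (Or.inl hs.ne')).const_mul
    (B * ((d : ℝ) - 2))
  have h2 := h1.const_add (-(1 / (d : ℝ)))
  exact h2

lemma yA_ode {d : ℕ} (hd : 1 ≤ d) (B : ℝ) {s : ℝ} (hs : 0 < s) :
    2 * s * yA' d B s + d * yA d B s = -1 := by
  have hd0 : (0 : ℝ) < d := by exact_mod_cast hd
  unfold yA yA'
  rw [Real.rpow_sub_one hs.ne']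
  field_simp
  ring

lemma WA_contDiffAt {d : ℕ} (hd : 1 ≤ d) (B : ℝ) {s : ℝ} (hs : 0 < s) :
    ContDiffAt ℝ 1 (WA d B) s := by
  refine contDiffAt_one_of_hasDerivAt (a := 0) (b := s + 1) ⟨hs, by linarith⟩
    (fun t ht => WA_der hd B ht.1) ?_
  refine ContinuousOn.div_const (fun t ht => ?_) 2
  exact (yA_der B ht.1).continuousAt.continuousWithinAt

lemma yA_contDiffAt {d : ℕ} (B : ℝ) {s : ℝ} (hs : 0 < s) :
    ContDiffAt ℝ 1 (yA d B) s := by
  refine contDiffAt_one_of_hasDerivAt (a := 0) (b := s + 1) ⟨hs, by linarith⟩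
    (fun t ht => yA_der B ht.1) ?_
  intro t ht
  have : ContinuousAt (fun s : ℝ => s ^ (-((d : ℝ) / 2) - 1)) t :=
    Real.continuousAt_rpow_const t _ (Or.inl ht.1.ne')
  exact ((this.const_mul _).const_mul _).continuousWithinAt

lemma WA_a {d : ℕ} {a : ℝ} (ha : 0 < a) :
    WA d ((1 - a) * a ^ ((d : ℝ) / 2 - 1) / (2 * d)) a = 0 := by
  unfold WA
  have : a ^ ((d : ℝ) / 2 - 1) * a ^ (1 - (d : ℝ) / 2) = 1 := by
    rw [← Real.rpow_add ha]
    simp
  linear_combination (-(1 - a) / (2 * d)) * this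

lemma WA_le_zero {d : ℕ} (hd : 3 ≤ d) {a : ℝ} (ha : 0 < a) (ha2 : a ≤ ((d : ℝ) - 2) / d)
    {s : ℝ} (hs : 0 < s) (hsa : s ≤ a) :
    WA d ((1 - a) * a ^ ((d : ℝ) / 2 - 1) / (2 * d)) s ≤ 0 := by
  have hd3 : (3 : ℝ) ≤ d := by exact_mod_cast hd
  have hd0 : (0 : ℝ) < d := by linarith
  set B := (1 - a) * a ^ ((d : ℝ) / 2 - 1) / (2 * d) with hB
  have ha2' : a * d ≤ d - 2 := by rwa [le_div_iff₀ hd0] at ha2
  have ha1 : a < 1 := by
    have : ((d : ℝ) - 2) / d < 1 := by rw [div_lt_one hd0]; linarith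
    linarith
  have hBpos : 0 < B := by
    have h1 := Real.rpow_pos_of_pos ha ((d : ℝ) / 2 - 1)
    have h2 : 0 < 1 - a := by linarith
    positivity
  have hmono : MonotoneOn (WA d B) (Icc s a) := by
    refine monotoneOn_of_hasDerivWithinAt_nonneg (convex_Icc s a) (f' := fun t => yA d B t / 2)
      ?_ ?_ ?_
    · intro t ht
      exact (WA_der (by lia) B (hs.trans_le ht.1)).continuousAt.continuousWithinAt
    · intro t ht
      rw [interior_Icc] at ht
      exact (WA_der (by lia) B (hs.trans ht.1)).hasDerivWithinAt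
    · intro t ht
      rw [interior_Icc] at ht
      have ht0 : 0 < t := hs.trans ht.1
      have h1 : a ^ (-((d : ℝ) / 2)) ≤ t ^ (-((d : ℝ) / 2)) :=
        Real.rpow_le_rpow_of_nonpos ht0 ht.2.le (by linarith)
      have h2 : a ^ ((d : ℝ) / 2 - 1) * a ^ (-((d : ℝ) / 2)) = a⁻¹ := by
        rw [← Real.rpow_add ha, show (d : ℝ) / 2 - 1 + -((d : ℝ) / 2) = -1 by ring,
          Real.rpow_neg_one]
      have h3 : 0 ≤ -(1 / (d : ℝ)) + B * (d - 2) * a ^ (-((d : ℝ) / 2)) := by
        have e : B * (d - 2) * a ^ (-((d : ℝ) / 2)) = (1 - a) * (d - 2) / (2 * d * a) := by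
          rw [hB]
          calc _ = (1 - a) / (2 * d) * (d - 2) * (a ^ ((d : ℝ) / 2 - 1) * a ^ (-((d : ℝ) / 2))) := by
                ring
            _ = _ := by rw [h2]; field_simp
        rw [e, neg_add_eq_sub, sub_nonneg, div_le_div_iff₀ hd0 (by positivity)]
        nlinarith
      have h4 : B * (d - 2) * a ^ (-((d : ℝ) / 2)) ≤ B * (d - 2) * t ^ (-((d : ℝ) / 2)) := by
        have : 0 ≤ (d : ℝ) - 2 := by linarith
        gcongr
      unfold yA
      linarith
  have := hmono ⟨le_rfl, hsa⟩ ⟨hsa, le_rfl⟩ hsa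
  rw [hB, WA_a ha] at this
  exact this

/-- test functions on the annulus -/
theorem tor_test_ann {d : ℕ} (hd : 3 ≤ d) {a κ : ℝ} (ha : 0 < a) (ha2 : a ≤ ((d : ℝ) - 2) / d)
    (hκ : 0 < κ) (hpos : 0 < TB d - omega d * a ^ ((d : ℝ) / 2 - 1) / 4 - 2 * κ * omega d) :
    TB d - omega d * a ^ ((d : ℝ) / 2 - 1) / 4 - 2 * κ * omega d ≤ sSup (TorSet (Ann d a)) := by
  have hd3 : (3 : ℝ) ≤ d := by exact_mod_cast hd
  have hd1 : 1 ≤ d := by lia
  have hd0 : (0 : ℝ) < d := by linarith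
  have hω := omega_pos' d
  have ha1 : a < 1 := by
    have : ((d : ℝ) - 2) / d < 1 := by rw [div_lt_one hd0]; linarith
    linarith
  set B := (1 - a) * a ^ ((d : ℝ) / 2 - 1) / (2 * d) with hB
  have hA := Real.rpow_pos_of_pos ha ((d : ℝ) / 2 - 1)
  have hBpos : 0 < B := by
    have h2 : 0 < 1 - a := by linarith
    positivity
  have hWa : WA d B a = 0 := WA_a ha
  have hW1 : ∀ s, 1 ≤ s → WA d B s ≤ 0 := by
    intro s hs
    unfold WA
    have h1 := Real.rpow_nonneg (zero_le_one.trans hs) (1 - (d : ℝ) / 2)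
    have h2 : (1 - s) / (2 * d) ≤ 0 := div_nonpos_of_nonpos_of_nonneg (by linarith) (by positivity)
    have h3 : 0 ≤ B * s ^ (1 - (d : ℝ) / 2) := by positivity
    linarith
  set v : E d → ℝ := fun x => if a < ‖x‖ ^ 2 then Pk κ (WA d B (‖x‖ ^ 2)) else 0 with hv
  have hnorm : ContDiff ℝ 1 (fun x : E d => ‖x‖ ^ 2) := contDiff_norm_sq ℝ
  have hnc : Continuous (fun x : E d => ‖x‖ ^ 2) := hnorm.continuous
  have hPC : ContDiff ℝ 1 (Pk κ) := by
    rw [contDiff_one_iff_deriv]
    refine ⟨fun s => (Pk_deriv κ s).differentiableAt, ?_⟩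
    have : deriv (Pk κ) = gk κ := funext fun s => (Pk_deriv κ s).deriv
    rw [this]; exact gk_cont κ
  have hin : ∀ x : E d, a < ‖x‖ ^ 2 → v =ᶠ[𝓝 x] fun x => Pk κ (WA d B (‖x‖ ^ 2)) := by
    intro x hx
    filter_upwards [(isOpen_lt continuous_const hnc).mem_nhds hx] with y hy
    have hy' : a < ‖y‖ ^ 2 := hy
    simp only [hv]
    rw [if_pos hy']
  have hWm : Continuous (fun x : E d => WA d B (max a (‖x‖ ^ 2))) := by
    have h1 : ContinuousOn (WA d B) (Ioi 0) := fun s hs =>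
      (WA_der hd1 B hs).continuousAt.continuousWithinAt
    exact h1.comp_continuous (by fun_prop) (fun x => ha.trans_le (le_max_left _ _))
  have hvC : ContDiff ℝ 1 v := by
    rw [contDiff_iff_contDiffAt]
    intro x
    by_cases hx : a < ‖x‖ ^ 2
    · refine ContDiffAt.congr_of_eventuallyEq ?_ (hin x hx)
      have h1 := WA_contDiffAt hd1 B (ha.trans hx)
      have h2 : ContDiffAt ℝ 1 (fun x : E d => WA d B (‖x‖ ^ 2)) x :=
        ContDiffAt.comp (g := WA d B) (f := fun x : E d => ‖x‖ ^ 2) x h1 hnorm.contDiffAt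
      exact hPC.contDiffAt.comp x h2
    · have h1 : v =ᶠ[𝓝 x] fun _ => 0 := by
        have h2 : WA d B (max a (‖x‖ ^ 2)) < κ := by
          rw [max_eq_left (not_lt.1 hx), hWa]; exact hκ
        filter_upwards [(isOpen_lt hWm continuous_const).mem_nhds h2] with y hy
        have hy' : WA d B (max a (‖y‖ ^ 2)) < κ := hy
        simp only [hv]
        split_ifs with h3
        · rw [max_eq_right h3.le] at hy'
          exact Pk_zero hκ hy'.le
        · rfl
      exact contDiffAt_const.congr_of_eventuallyEq h1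
  have hsupp : tsupport v ⊆ {x : E d | a ≤ ‖x‖ ^ 2 ∧ κ ≤ WA d B (max a (‖x‖ ^ 2))} := by
    refine closure_minimal ?_ ((isClosed_le continuous_const hnc).inter
      (isClosed_le continuous_const hWm))
    intro x hx
    have hx' : v x ≠ 0 := hx
    by_contra h
    apply hx'
    simp only [hv]
    split_ifs with h1
    · have h2 : ¬ κ ≤ WA d B (max a (‖x‖ ^ 2)) := fun h2 => h ⟨h1.le, h2⟩
      rw [max_eq_right h1.le, not_le] at h2
      exact Pk_zero hκ h2.le
    · rfl
  have hsub : tsupport v ⊆ Ann d a := by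
    intro x hx
    obtain ⟨h1, h2⟩ := hsupp hx
    rw [max_eq_right h1] at h2
    refine ⟨?_, ?_⟩
    · rcases h1.eq_or_lt with h3 | h3
      · rw [← h3, hWa] at h2; linarith
      · exact h3
    · by_contra h3
      have := hW1 _ (not_lt.1 h3)
      linarith
  have hsubB : tsupport v ⊆ Metric.ball (0 : E d) 1 := by
    intro x hx
    rw [mem_ball_zero_iff]
    have := (hsub hx).2
    have h0 := norm_nonneg x
    by_contra h1
    push Not at h1
    nlinarith
  have hcs : HasCompactSupport v := by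
    refine (isCompact_closedBall (0 : E d) 1).of_isClosed_subset (isClosed_tsupport v) ?_
    exact hsubB.trans Metric.ball_subset_closedBall
  have hn1 : ∀ x : E d, HasFDerivAt (fun x : E d => ‖x‖ ^ 2) (2 • innerSL ℝ x) x := fun x =>
    (hasStrictFDerivAt_norm_sq x).hasFDerivAt
  have hvd : ∀ x : E d, a < ‖x‖ ^ 2 →
      fderiv ℝ v x = (gk κ (WA d B (‖x‖ ^ 2)) * yA d B (‖x‖ ^ 2)) • innerSL ℝ x := by
    intro x hx
    rw [(hin x hx).fderiv_eq]
    have h1 := (WA_der hd1 B (ha.trans hx)).comp_hasFDerivAt x (hn1 x)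
    have h2 := (Pk_deriv κ (WA d B (‖x‖ ^ 2))).comp_hasFDerivAt x h1
    have h3 : (fun x : E d => Pk κ (WA d B (‖x‖ ^ 2))) =
      Pk κ ∘ (WA d B ∘ fun x : E d => ‖x‖ ^ 2) := rfl
    rw [h3, h2.fderiv]
    ext z
    simp
    ring
  have hout : ∀ x, x ∉ tsupport v → v =ᶠ[𝓝 x] 0 := fun x hx =>
    notMem_tsupport_iff_eventuallyEq.mp hx
  have hvd0 : ∀ x, x ∉ tsupport v → fderiv ℝ v x = 0 := by
    intro x hx
    rw [(hout x hx).fderiv_eq]
    exact fderiv_const_apply (0 : ℝ)
  set G : E d → ℝ := fun x => v x * yA d B (‖x‖ ^ 2) with hG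
  have hGout : ∀ x, x ∉ tsupport v → G =ᶠ[𝓝 x] fun _ => 0 := by
    intro x hx
    filter_upwards [hout x hx] with y hy
    simp [hG, hy]
  have hGC : ContDiff ℝ 1 G := by
    rw [contDiff_iff_contDiffAt]
    intro x
    by_cases hx : x ∈ tsupport v
    · refine ContDiffAt.mul hvC.contDiffAt ?_
      have h1 : ContDiffAt ℝ 1 (yA d B) (‖x‖ ^ 2) := yA_contDiffAt B (ha.trans (hsub hx).1)
      exact ContDiffAt.comp (g := yA d B) (f := fun x : E d => ‖x‖ ^ 2) x h1 hnorm.contDiffAt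
    · exact contDiffAt_const.congr_of_eventuallyEq (hGout x hx)
  have hGcs : HasCompactSupport G := by
    refine hcs.mono' ?_
    intro x hx
    refine subset_closure ?_
    intro h0
    apply hx
    simp [hG, h0]
  have hpt : ∀ x, ‖fderiv ℝ v x‖ ^ 2 ≤ fderiv ℝ G x x + d * G x + v x := by
    intro x
    by_cases hx : x ∈ tsupport v
    · have hxa := (hsub hx).1
      have hs0 : 0 < ‖x‖ ^ 2 := ha.trans hxa
      have hv1 : HasFDerivAt v (fderiv ℝ v x) x :=
        ((hvC.differentiable one_ne_zero) x).hasFDerivAt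
      have hy1 := (yA_der (d := d) B hs0).comp_hasFDerivAt x (hn1 x)
      have hG1 := hv1.mul hy1
      have e : fderiv ℝ G x x = fderiv ℝ v x x * yA d B (‖x‖ ^ 2) +
          v x * (2 * ‖x‖ ^ 2 * yA' d B (‖x‖ ^ 2)) := by
        have : G = v * (yA d B ∘ fun x => ‖x‖ ^ 2) := rfl
        rw [this, hG1.fderiv]
        simp [real_inner_self_eq_norm_sq]
        ring
      have e2 := yA_ode hd1 B hs0
      have e3 : fderiv ℝ G x x + d * G x + v x = fderiv ℝ v x x * yA d B (‖x‖ ^ 2) := by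
        rw [e]
        simp only [hG]
        linear_combination (v x) * e2
      rw [e3, hvd x hxa, norm_smul, innerSL_apply_norm]
      simp only [smul_apply, innerSL_apply_apply, real_inner_self_eq_norm_sq,
        smul_eq_mul, Real.norm_eq_abs]
      have h2 := gk_nonneg κ (WA d B (‖x‖ ^ 2))
      have h3 := gk_le_one κ (WA d B (‖x‖ ^ 2))
      have h4 : gk κ (WA d B (‖x‖ ^ 2)) ^ 2 ≤ gk κ (WA d B (‖x‖ ^ 2)) := by nlinarith
      rw [mul_pow, sq_abs, mul_pow]
      calc gk κ (WA d B (‖x‖ ^ 2)) ^ 2 * yA d B (‖x‖ ^ 2) ^ 2 * ‖x‖ ^ 2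
          ≤ gk κ (WA d B (‖x‖ ^ 2)) * yA d B (‖x‖ ^ 2) ^ 2 * ‖x‖ ^ 2 := by gcongr
        _ = _ := by ring
    · have h1 : fderiv ℝ G x = 0 := by
        rw [(hGout x hx).fderiv_eq]
        exact fderiv_const_apply (0 : ℝ)
      have h3 : v x = 0 := (hout x hx).self_of_nhds
      have h4 : G x = 0 := (hGout x hx).self_of_nhds
      rw [hvd0 x hx, h1, h3, h4]
      simp
  have hAdm : Adm (Ann d a) v := ⟨hvC, hcs, hsub⟩
  have hI1 : Integrable (fun x => fderiv ℝ G x x) := by
    have hG' : Continuous (fun x => fderiv ℝ G x) := hGC.continuous_fderiv one_ne_zero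
    refine Continuous.integrable_of_hasCompactSupport (by fun_prop) ?_
    refine (hGcs.fderiv ℝ).mono' ?_
    intro x hx
    refine subset_closure ?_
    intro h0
    apply hx
    simp only at h0 ⊢
    rw [h0]; simp
  have hI2 : Integrable G := hGC.continuous.integrable_of_hasCompactSupport hGcs
  have hI0 : Integrable v := hvC.continuous.integrable_of_hasCompactSupport hcs
  have hDle : ∫ x, ‖fderiv ℝ v x‖ ^ 2 ≤ ∫ x, v x := by
    have h1 : ∫ x, ‖fderiv ℝ v x‖ ^ 2 ≤ ∫ x, (fderiv ℝ G x x + d * G x + v x) :=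
      integral_mono hAdm.int_D2 ((hI1.add (hI2.const_mul _)).add hI0) hpt
    have h2 : ∫ x, (fderiv ℝ G x x + d * G x + v x) =
        ((∫ x, fderiv ℝ G x x) + ∫ x, d * G x) + ∫ x, v x := by
      rw [← integral_add hI1 (hI2.const_mul _)]
      exact integral_add (hI1.add (hI2.const_mul _)) hI0
    rw [h2, integral_fderiv_self hGC hGcs, integral_const_mul] at h1
    linarith
  have hvnn : ∀ x, 0 ≤ v x := by
    intro x
    simp only [hv]
    split_ifs
    · exact Pk_nonneg hκ _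
    · exact le_rfl
  have hnn : 0 ≤ ∫ x, v x := integral_nonneg hvnn
  have hD0 : 0 ≤ ∫ x, ‖fderiv ℝ v x‖ ^ 2 := integral_nonneg fun x => by positivity
  have hq : ∫ x, v x ≤ (∫ x, v x) ^ 2 / ∫ x, ‖fderiv ℝ v x‖ ^ 2 := by
    rcases hD0.eq_or_lt with h0 | h0
    · have := sq_integral_le hd1 hvC hcs hsubB
      rw [← h0, mul_zero] at this
      have h1 : ∫ x, v x = 0 := by
        have := le_antisymm this (sq_nonneg _)
        exact pow_eq_zero_iff (two_ne_zero) |>.1 this
      rw [h1]; simp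
    · rw [le_div_iff₀ h0]
      nlinarith
  have hint : TB d - omega d * a ^ ((d : ℝ) / 2 - 1) / 4 - 2 * κ * omega d ≤ ∫ x, v x := by
    have hf : IsFiniteMeasure ((volume : Measure (E d)).restrict (Metric.ball (0 : E d) 1)) :=
      ⟨by rw [Measure.restrict_apply_univ]; exact measure_ball_lt_top⟩
    have e1 : ∫ x, v x = ∫ x in Metric.ball (0 : E d) 1, v x := by
      symm
      refine setIntegral_eq_integral_of_forall_compl_eq_zero fun x hx => ?_
      exact image_eq_zero_of_notMem_tsupport fun h => hx (hsubB h)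
    have hwI : IntegrableOn (fun x : E d => (1 - ‖x‖ ^ 2) / (2 * d)) (Metric.ball (0 : E d) 1) :=
      ((by fun_prop : Continuous fun x : E d => (1 - ‖x‖ ^ 2) / (2 * d)).continuousOn.integrableOn_compact
        (isCompact_closedBall (0 : E d) 1)).mono_set Metric.ball_subset_closedBall
    have hpI := (integrableOn_pow_ball hd1).const_mul B
    have hWI : IntegrableOn (fun x : E d => WA d B (‖x‖ ^ 2)) (Metric.ball (0 : E d) 1) :=
      hwI.sub hpI
    have e2 : ∫ x in Metric.ball (0 : E d) 1, (WA d B (‖x‖ ^ 2) - 2 * κ) =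
        TB d - B * (d * omega d / 2) - 2 * κ * omega d := by
      rw [integral_sub hWI (integrable_const _)]
      have e3 : ∫ x in Metric.ball (0 : E d) 1, WA d B (‖x‖ ^ 2) =
          TB d - B * (d * omega d / 2) := by
        unfold WA
        rw [integral_sub hwI hpI, integral_wB hd1, integral_const_mul, integral_pow_ball hd1]
      rw [e3, integral_const]
      simp only [smul_eq_mul, Measure.real, Measure.restrict_apply_univ, omega]
      ring
    have e4 : B * (d * omega d / 2) ≤ omega d * a ^ ((d : ℝ) / 2 - 1) / 4 := by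
      have : B * (d * omega d / 2) = (1 - a) * (omega d * a ^ ((d : ℝ) / 2 - 1) / 4) := by
        rw [hB]; field_simp; ring
      rw [this]
      have h5 : 0 ≤ omega d * a ^ ((d : ℝ) / 2 - 1) / 4 := by positivity
      nlinarith
    have e5 : ∫ x in Metric.ball (0 : E d) 1, (WA d B (‖x‖ ^ 2) - 2 * κ) ≤
        ∫ x in Metric.ball (0 : E d) 1, v x := by
      refine setIntegral_mono_on_ae (hWI.sub (integrable_const _)) hI0.integrableOn
        measurableSet_ball ?_
      have hne0 : ∀ᵐ x : E d, x ≠ 0 := by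
        have : Nontrivial (E d) := by
          have : Nonempty (Fin d) := ⟨⟨0, hd1⟩⟩
          infer_instance
        exact Measure.ae_ne _ _
      filter_upwards [hne0] with x hx0 hxB
      simp only [hv]
      have hs0 : 0 < ‖x‖ ^ 2 := by
        have := norm_pos_iff.2 hx0
        positivity
      split_ifs with h1
      · rcases le_total 0 (WA d B (‖x‖ ^ 2)) with h2 | h2
        · exact Pk_ge hκ h2
        · have := Pk_nonneg hκ (WA d B (‖x‖ ^ 2))
          linarith
      · have := WA_le_zero hd ha ha2 hs0 (not_lt.1 h1)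
        linarith
    rw [e1]
    linarith
  have hne : v ≠ 0 := by
    intro h
    have : ∫ x, v x = 0 := by rw [h]; simp
    linarith
  refine (hint.trans hq).trans (le_csSup ?_ ⟨v, hvC, hcs, hsub, hne, rfl⟩)
  refine (torB_bdd hd1).mono ?_
  rintro r ⟨u, hu1, hu2, hu3, hu4, hu5⟩
  refine ⟨u, hu1, hu2, hu3.trans ?_, hu4, hu5⟩
  intro x hx
  rw [mem_ball_zero_iff]
  have h2 := hx.2
  have h0 := norm_nonneg x
  by_contra h1
  push Not at h1
  nlinarith

theorem tor_ann_ge {d : ℕ} (hd : 3 ≤ d) {a : ℝ} (ha : 0 < a) (ha2 : a ≤ ((d : ℝ) - 2) / d)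
    (hpos : 0 < TB d - omega d * a ^ ((d : ℝ) / 2 - 1) / 4) :
    TB d - omega d * a ^ ((d : ℝ) / 2 - 1) / 4 ≤ sSup (TorSet (Ann d a)) := by
  have hω := omega_pos' d
  set X := TB d - omega d * a ^ ((d : ℝ) / 2 - 1) / 4 with hX
  refine le_of_forall_pos_le_add fun ε hε => ?_
  set m := min ε (X / 2) with hm
  have hm0 : 0 < m := lt_min hε (by linarith)
  have h1 : m ≤ ε := min_le_left _ _
  have h2 : m ≤ X / 2 := min_le_right _ _
  have h3 : 2 * (m / (2 * omega d)) * omega d = m := by field_simp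
  have h4 := tor_test_ann hd ha ha2 (κ := m / (2 * omega d)) (by positivity) (by
    rw [h3]; linarith)
  rw [h3] at h4
  linarith

end Pool.Agent.Lib.H38.Tor
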