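import Mathlib
import Pool.Agent.Lib.H38.Tor2.Key
import Pool.Agent.Lib.H38.Tor2.Hole
import Pool.Agent.Lib.H38.Tor2.TorAnn

set_option autoImplicit false

/-!
# A small hole increases the functional for small exponents
-/

namespace Pool.Agent.Lib.H38.Tor

open MeasureTheory Set Filter Topology

section
variable {n : ℕ} {μ : ℝ} {ψ ψ' ψ'' : ℝ → ℝ}

lemma Eig.N0_eq (h : Eig n μ ψ ψ' ψ'') (hn : 2 ≤ n) :
    1 / 4 * ∫ τ in (0 : ℝ)..1, τ ^ (((n + 1 : ℕ) : ℝ) / 2 - 1) * ψ τ ^ 2 =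
      Mr n ψ * ψ 0 ^ 2 / (2 * ((n : ℝ) + 1)) := by
  have hn' : (2 : ℝ) ≤ n := by exact_mod_cast hn
  have hp : 0 < ((n + 1 : ℕ) : ℝ) / 2 - 1 := by push_cast; linarith
  have cψ := h.cont
  have h0 := h.psi0
  have h1 := intervalIntegral.integral_comp_mul_deriv (a := 0) (b := 1) (f := fun ρ : ℝ => ρ ^ 2)
    (f' := fun ρ => 2 * ρ) (g := fun τ : ℝ => τ ^ (((n + 1 : ℕ) : ℝ) / 2 - 1) * ψ τ ^ 2)
    (fun ρ _ => by simpa using hasDerivAt_pow 2 ρ) (by fun_prop)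
    ((Real.continuous_rpow_const hp.le).mul (cψ.pow 2))
  simp only [one_pow, ne_eq, OfNat.ofNat_ne_zero, not_false_eq_true, zero_pow] at h1
  rw [← h1]
  have h2 : ∫ ρ in (0 : ℝ)..1, ((fun τ : ℝ => τ ^ (((n + 1 : ℕ) : ℝ) / 2 - 1) * ψ τ ^ 2) ∘
      fun ρ : ℝ => ρ ^ 2) ρ * (2 * ρ) =
      ∫ ρ in (0 : ℝ)..1, 2 / ((n : ℝ) + 1) * (((n : ℝ) + 1) * (ρ ^ n * ψ (ρ ^ 2) ^ 2)) := by
    refine intervalIntegral.integral_congr (fun ρ hρ => ?_)
    rw [uIcc_of_le zero_le_one] at hρ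
    simp only [Function.comp_apply]
    rcases hρ.1.eq_or_lt with h3 | h3
    · rw [← h3]
      simp
      right
      left
      lia
    · have e1 : (ρ ^ 2) ^ (((n + 1 : ℕ) : ℝ) / 2 - 1) * ρ = ρ ^ n := by
        rw [← Real.rpow_natCast ρ 2, ← Real.rpow_mul h3.le, ← Real.rpow_add_one h3.ne',
          ← Real.rpow_natCast ρ n]
        congr 1
        push_cast
        ring
      rw [← e1]
      field_simp
  rw [h2, intervalIntegral.integral_const_mul]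
  unfold Mr
  field_simp
  norm_num

/-- The final algebra for the hole. -/
lemma hole_alg {α β A q : ℝ} (hα : 0 < α) (hA : 0 < A) (hq : 1 ≤ q)
    (hβA : β * A ≤ 1) (hA2 : A * (α * q * β) < α - q * β) :
    1 < (1 + α * A) * (1 - β * A) ^ q := by
  have h1 : 1 + q * (-(β * A)) ≤ (1 + -(β * A)) ^ q :=
    one_add_mul_self_le_rpow_one_add (by linarith) hq
  have h2 : 1 < (1 + α * A) * (1 + q * (-(β * A))) := by
    have e : (1 + α * A) * (1 + q * (-(β * A))) = 1 + A * ((α - q * β) - A * (α * q * β)) := by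
      ring
    rw [e]
    have : 0 < A * ((α - q * β) - A * (α * q * β)) := mul_pos hA (by linarith)
    linarith
  rw [← sub_eq_add_neg] at h1
  have h3 : 0 < 1 + α * A := by positivity
  calc 1 < (1 + α * A) * (1 + q * (-(β * A))) := h2
    _ ≤ (1 + α * A) * (1 - β * A) ^ q := by gcongr

/-- For small `q` the ball does not maximise the functional. -/
theorem Eig.hole (h : Eig n μ ψ ψ' ψ'') (hn : 2 ≤ n) {q : ℝ} (hq1 : 1 ≤ q)
    (hq : q * (5 * ((n : ℝ) + 3) * μ * Mr n ψ) < 16 * ((n : ℝ) - 1)) :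
    ∃ Ω : Set (E (n + 1)), IsOpen Ω ∧ Ω.Nonempty ∧ volume Ω < ⊤ ∧
      sInf (RaySet (Metric.ball (0 : E (n + 1)) 1)) *
          (sSup (TorSet (Metric.ball (0 : E (n + 1)) 1))) ^ q /
          ((volume (Metric.ball (0 : E (n + 1)) 1)).toReal) ^
            ((q * (((n + 1 : ℕ) : ℝ) + 2) - 2) / ((n + 1 : ℕ) : ℝ)) <
        sInf (RaySet Ω) * (sSup (TorSet Ω)) ^ q /
          ((volume Ω).toReal) ^ ((q * (((n + 1 : ℕ) : ℝ) + 2) - 2) / ((n + 1 : ℕ) : ℝ)) := by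
  have hn' : (2 : ℝ) ≤ n := by exact_mod_cast hn
  have hd3 : 3 ≤ n + 1 := by omega
  have hd1 : 1 ≤ n + 1 := by omega
  have hM := h.Mr_pos
  have hμ := h.mu
  have hψ0 := h.psi0
  have cψ := h.cont
  have hω := omega_pos' (n + 1)
  set d : ℝ := ((n + 1 : ℕ) : ℝ) with hd
  have hdn : d = (n : ℝ) + 1 := by rw [hd]; push_cast; ring
  have hd0 : 0 < d := by rw [hdn]; positivity
  have hd2 : 0 < d - 2 := by rw [hdn]; linarith
  set M := Mr n ψ with hMdef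
  set p : ℝ := d / 2 with hp
  have hp1 : 0 < p - 1 := by rw [hp]; linarith
  -- choice of the radius `δ`
  obtain ⟨δ, hδ0, hδ1, hδψ⟩ : ∃ δ : ℝ, 0 < δ ∧ δ < 1 ∧ 8 * ψ 0 ^ 2 < 9 * ψ δ ^ 2 := by
    have h1 : Tendsto (fun δ => 9 * ψ δ ^ 2) (𝓝[>] 0) (𝓝 (9 * ψ 0 ^ 2)) :=
      ((cψ.tendsto 0).pow 2 |>.const_mul 9).mono_left nhdsWithin_le_nhds
    have h2 : ∀ᶠ δ in 𝓝[>] (0 : ℝ), 8 * ψ 0 ^ 2 < 9 * ψ δ ^ 2 :=
      h1.eventually_const_lt (by nlinarith [sq_pos_of_pos hψ0])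
    have h3 : ∀ᶠ δ in 𝓝[>] (0 : ℝ), δ ∈ Ioo (0 : ℝ) 1 := Ioo_mem_nhdsGT one_pos
    obtain ⟨δ, h4, h5⟩ := (h2.and h3).exists
    exact ⟨δ, h5.1, h5.2, h4⟩
  have hψδ : 0 < ψ δ := h.pos δ ⟨hδ0.le, hδ1⟩
  have hδp : 0 < δ ^ (-p) := Real.rpow_pos_of_pos hδ0 _
  -- the constants
  set α : ℝ := 4 * d * (d - 2) / (5 * M * μ) with hα
  set β : ℝ := d * (d + 2) / 4 with hβ
  have hα0 : 0 < α := by positivity
  have hβ0 : 0 < β := by positivity
  have hqpos : 0 < q := by linarith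
  have hαβ : 0 < α - q * β := by
    have e : α - q * β = d * (16 * (d - 2) - q * (5 * (d + 2) * μ * M)) / (20 * M * μ) := by
      rw [hα, hβ]
      field_simp
      ring
    rw [e]
    have h1 : 0 < 16 * (d - 2) - q * (5 * (d + 2) * μ * M) := by
      rw [hdn, show (n : ℝ) + 1 - 2 = (n : ℝ) - 1 by ring, show (n : ℝ) + 1 + 2 = (n : ℝ) + 3 by ring]
      linarith
    positivity
  -- choice of the hole
  obtain ⟨a, ha0, haδ, had, hA1, hA2, hA3⟩ : ∃ a : ℝ, 0 < a ∧ a < δ ∧ a ≤ (d - 2) / d ∧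
      a ^ (p - 1) * (4 * (d - 2) * δ ^ (-p)) < M ∧ β * a ^ (p - 1) < 1 ∧
      a ^ (p - 1) * (α * q * β) < α - q * β := by
    have h0 : Tendsto (fun a : ℝ => a ^ (p - 1)) (𝓝[>] 0) (𝓝 0) := by
      have h1 := (Real.continuous_rpow_const (q := p - 1) hp1.le).tendsto 0
      rw [Real.zero_rpow hp1.ne'] at h1
      exact h1.mono_left nhdsWithin_le_nhds
    have h1 : Tendsto (fun a : ℝ => a ^ (p - 1) * (4 * (d - 2) * δ ^ (-p))) (𝓝[>] 0) (𝓝 0) := by
      simpa using h0.mul_const (4 * (d - 2) * δ ^ (-p))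
    have h2 : Tendsto (fun a : ℝ => β * a ^ (p - 1)) (𝓝[>] 0) (𝓝 0) := by
      simpa using h0.const_mul β
    have h3 : Tendsto (fun a : ℝ => a ^ (p - 1) * (α * q * β)) (𝓝[>] 0) (𝓝 0) := by
      simpa using h0.mul_const (α * q * β)
    have h4 : ∀ᶠ a in 𝓝[>] (0 : ℝ), a ∈ Ioo (0 : ℝ) δ := Ioo_mem_nhdsGT hδ0
    have h5 : ∀ᶠ a in 𝓝[>] (0 : ℝ), a ∈ Ioo (0 : ℝ) ((d - 2) / d) :=
      Ioo_mem_nhdsGT (by positivity)
    obtain ⟨a, h6, h7, h8, h9, h10⟩ := (h4.and (h5.and ((h1.eventually_lt_const hM).and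
      ((h2.eventually_lt_const one_pos).and (h3.eventually_lt_const hαβ))))).exists
    exact ⟨a, h6.1, h6.2, h7.2.le, h8, h9, h10⟩
  set A := a ^ (p - 1) with hA
  have hApos : 0 < A := Real.rpow_pos_of_pos ha0 _
  have ha1 : a < 1 := haδ.trans hδ1
  have hAinv : a ^ (1 - p) * A = 1 := by
    rw [hA, ← Real.rpow_add ha0]
    simp
  have hinvpos : 0 < a ^ (1 - p) := Real.rpow_pos_of_pos ha0 _
  have hN0 := h.N0_eq hn
  -- the eigenvalue
  have hray := ray_hole hd3 h.rad h.pos (psi_anti h.rad h.neg) ha0 haδ hδ1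
  rw [hN0] at hray
  have hlam : μ * (1 + α * A) ≤ sInf (RaySet (Ann (n + 1) a)) := by
    refine le_trans ?_ hray
    rw [← hd, ← hMdef, ← hp]
    set I : ℝ := M * ψ 0 ^ 2 / (2 * ((n : ℝ) + 1)) / ψ δ ^ 2 * (a ^ (1 - p) / (p - 1)) +
      δ ^ (-p) / (2 * d) with hI
    have hIpos : 0 < I := by positivity
    have hIle : I * A ≤ 5 / 4 * (M / (d * (d - 2))) := by
      have e1 : I * A = M * (ψ 0 ^ 2 / ψ δ ^ 2) / (d * (d - 2)) +
          A * (4 * (d - 2) * δ ^ (-p)) / (8 * (d * (d - 2))) := by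
        have e2 : p - 1 = (d - 2) / 2 := by rw [hp]; ring
        rw [hI, e2, ← hdn]
        calc (M * ψ 0 ^ 2 / (2 * d) / ψ δ ^ 2 * (a ^ (1 - p) / ((d - 2) / 2)) +
              δ ^ (-p) / (2 * d)) * A =
            (a ^ (1 - p) * A) * (M * ψ 0 ^ 2 / (2 * d) / ψ δ ^ 2 / ((d - 2) / 2)) +
              A * (δ ^ (-p) / (2 * d)) := by ring
          _ = _ := by rw [hAinv]; field_simp; ring
      rw [e1]
      have e3 : ψ 0 ^ 2 / ψ δ ^ 2 ≤ 9 / 8 := by
        rw [div_le_iff₀ (by positivity)]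
        linarith
      have hdd : 0 < d * (d - 2) := by positivity
      calc M * (ψ 0 ^ 2 / ψ δ ^ 2) / (d * (d - 2)) +
          A * (4 * (d - 2) * δ ^ (-p)) / (8 * (d * (d - 2))) ≤
          M * (9 / 8) / (d * (d - 2)) + M / (8 * (d * (d - 2))) := by gcongr
        _ = 5 / 4 * (M / (d * (d - 2))) := by field_simp; ring
    have h1 : μ * (α * A) ≤ 1 / I := by
      rw [le_div_iff₀ hIpos]
      calc μ * (α * A) * I = μ * α * (I * A) := by ring
        _ ≤ μ * α * (5 / 4 * (M / (d * (d - 2)))) := by gcongr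
        _ = 1 := by rw [hα]; field_simp
    linarith
  -- the torsional rigidity
  have hTB : 0 < TB (n + 1) := by unfold TB; positivity
  have hTBe : TB (n + 1) - omega (n + 1) * A / 4 = TB (n + 1) * (1 - β * A) := by
    unfold TB
    rw [hβ, ← hd]
    field_simp
  have hfac : 0 < 1 - β * A := by linarith
  have htor : TB (n + 1) * (1 - β * A) ≤ sSup (TorSet (Ann (n + 1) a)) := by
    rw [← hTBe]
    exact tor_ann_ge hd3 ha0 had (by
      have e : omega (n + 1) * a ^ (((n + 1 : ℕ) : ℝ) / 2 - 1) / 4 = omega (n + 1) * A / 4 := rfl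
      rw [e, hTBe]
      positivity)
  -- the volume
  have hne : (Ann (n + 1) a).Nonempty := Ann_nonempty hd1 ha0.le ha1
  have hsub : Ann (n + 1) a ⊆ Metric.ball (0 : E (n + 1)) 1 := by
    intro x hx
    rw [mem_ball_zero_iff]
    have h2 := hx.2
    have h0 := norm_nonneg x
    by_contra h1
    push Not at h1
    nlinarith
  have hvle : volume (Ann (n + 1) a) ≤ volume (Metric.ball (0 : E (n + 1)) 1) := measure_mono hsub
  have hvfin : volume (Ann (n + 1) a) < ⊤ := hvle.trans_lt measure_ball_lt_top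
  have hvpos : 0 < (volume (Ann (n + 1) a)).toReal :=
    ENNReal.toReal_pos ((Ann_open (n + 1) a).measure_pos volume hne).ne' hvfin.ne
  have hvle' : (volume (Ann (n + 1) a)).toReal ≤
      (volume (Metric.ball (0 : E (n + 1)) 1)).toReal :=
    ENNReal.toReal_mono measure_ball_lt_top.ne hvle
  refine ⟨Ann (n + 1) a, Ann_open _ _, hne, hvfin, ?_⟩
  rw [h.ball_ray, ball_tor]
  set κ : ℝ := (q * (d + 2) - 2) / d with hκ
  have hκ0 : 0 ≤ κ := by
    apply div_nonneg _ hd0.le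
    nlinarith
  have hV1 : (volume (Ann (n + 1) a)).toReal ^ κ ≤
      (volume (Metric.ball (0 : E (n + 1)) 1)).toReal ^ κ :=
    Real.rpow_le_rpow hvpos.le hvle' hκ0
  have hV0 : 0 < (volume (Ann (n + 1) a)).toReal ^ κ := Real.rpow_pos_of_pos hvpos _
  have hTq : TB (n + 1) ^ q * (1 - β * A) ^ q ≤ sSup (TorSet (Ann (n + 1) a)) ^ q := by
    rw [← Real.mul_rpow hTB.le hfac.le]
    exact Real.rpow_le_rpow (by positivity) htor hqpos.le
  have hTBq : 0 < TB (n + 1) ^ q := Real.rpow_pos_of_pos hTB _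
  have hfq : 0 < (1 - β * A) ^ q := Real.rpow_pos_of_pos hfac _
  have halg := hole_alg hα0 hApos hq1 hA2.le hA3
  have hlt : μ * TB (n + 1) ^ q <
      sInf (RaySet (Ann (n + 1) a)) * sSup (TorSet (Ann (n + 1) a)) ^ q := by
    calc μ * TB (n + 1) ^ q = μ * TB (n + 1) ^ q * 1 := (mul_one _).symm
      _ < μ * TB (n + 1) ^ q * ((1 + α * A) * (1 - β * A) ^ q) := by gcongr
      _ = (μ * (1 + α * A)) * (TB (n + 1) ^ q * (1 - β * A) ^ q) := by ring
      _ ≤ _ := by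
        have : 0 ≤ sInf (RaySet (Ann (n + 1) a)) := sInf_ray_nonneg
        gcongr
  calc μ * TB (n + 1) ^ q / (volume (Metric.ball (0 : E (n + 1)) 1)).toReal ^ κ ≤
      μ * TB (n + 1) ^ q / (volume (Ann (n + 1) a)).toReal ^ κ := by gcongr
    _ < _ := by gcongr

end

end Pool.Agent.Lib.H38.Tor
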