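import Mathlib
import Pool.Agent.Lib.H38.Tor2.Ecmp2
import Pool.Agent.Lib.H38.Tor2.HoleFinal

set_option autoImplicit false

/-!
# Two-sided bounds for the optimal threshold in high dimension
-/

namespace Pool.Agent.Lib.H38.Tor

open MeasureTheory Set Filter Topology

lemma half_e_rpow (x : ℝ) : (Real.exp 1 / 2) ^ x = Real.exp ((1 - Real.log 2) * x) := by
  rw [Real.rpow_def_of_pos (by positivity), Real.log_div (Real.exp_pos 1).ne' two_ne_zero,
    Real.log_exp]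

lemma one_sub_log_two_pos : 0 < 1 - Real.log 2 := by
  have := Real.log_two_lt_d9
  linarith

/-- Above the threshold the ball is optimal. -/
theorem growth_upper {d : ℕ} (hd : 5 ≤ d) {q : ℝ}
    (hq : (d : ℝ) ^ 2 * (Real.exp 1 / 2) ^ ((d : ℝ) + 5 / 3 * (d : ℝ) ^ ((2 : ℝ) / 3)) ≤ q)
    {Ω : Set (E d)} (hΩ : IsOpen Ω) (hvol : volume Ω = volume (Metric.ball (0 : E d) 1)) :
      sInf (RaySet Ω) * (sSup (TorSet Ω)) ^ q ≤
        sInf (RaySet (Metric.ball (0 : E d) 1)) *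
          (sSup (TorSet (Metric.ball (0 : E d) 1))) ^ q := by
  obtain ⟨n, rfl⟩ : ∃ n, d = n + 1 := ⟨d - 1, by omega⟩
  obtain ⟨μ, ψ, ψ', ψ'', h⟩ := exists_eig n
  refine h.unit_case ?_ hΩ hvol
  have hM := h.Mr_pos
  have hd5 : (5 : ℝ) ≤ ((n + 1 : ℕ) : ℝ) := by exact_mod_cast hd
  set D : ℝ := ((n + 1 : ℕ) : ℝ) with hD
  have hDn : (n : ℝ) + 1 = D := by rw [hD]; push_cast; ring
  have hD0 : 0 < D := by linarith
  set e : ℝ := 5 / 3 * D ^ ((2 : ℝ) / 3) with he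
  have he0 : 0 < e := by positivity
  have he3 : e ^ 3 = 125 / 27 * D ^ 2 := by
    rw [he, mul_pow, ← Real.rpow_natCast (D ^ ((2 : ℝ) / 3)) 3, ← Real.rpow_mul hD0.le,
      ← Real.rpow_natCast D 2]
    norm_num
  have heD : e ≤ D := by
    have h1 : e ^ 3 ≤ D ^ 3 := by
      rw [he3]
      have : 0 ≤ D ^ 2 * (D - 125 / 27) := by
        have : 0 ≤ D - 125 / 27 := by linarith
        positivity
      nlinarith
    exact le_of_pow_le_pow_left₀ (by norm_num) hD0.le h1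
  have hge := h.Mr_ge (e := e) he0 (by
    rw [hDn, he3]
    have h1 : (D + e) ^ 2 ≤ (2 * D) ^ 2 := by gcongr; linarith
    nlinarith)
  rw [half_e_rpow] at hq
  refine le_trans ?_ hq
  have e3 : (n : ℝ) + 3 = D + 2 := by rw [← hDn]; ring
  have e5 : (n : ℝ) + 5 = D + 4 := by rw [← hDn]; ring
  rw [e3, e5, hDn] at hge
  set X := Real.exp ((1 - Real.log 2) * (D + e)) with hX
  have hX1 : 1 ≤ X := Real.one_le_exp (by have := one_sub_log_two_pos; positivity)
  have hXi : Real.exp (-((1 - Real.log 2) * (D + e))) = 1 / X := by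
    rw [hX, Real.exp_neg, one_div]
  rw [hXi] at hge
  have hX0 : 0 < X := by linarith
  have h1 : 1 / Mr n ψ ≤ (D + 2) * (D + 4) / 8 * X := by
    rw [div_le_iff₀ hM]
    calc (1 : ℝ) = (D + 2) * (D + 4) / 8 * X * (8 / ((D + 2) * (D + 4)) * (1 / X)) := by
          field_simp
      _ ≤ (D + 2) * (D + 4) / 8 * X * Mr n ψ := by gcongr
  have h2 : 1 ≤ (D + 2) * (D + 4) / 8 := by nlinarith
  calc 1 + 10 / 9 * (1 / Mr n ψ) ≤ 1 * 1 + 10 / 9 * ((D + 2) * (D + 4) / 8 * X) := by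
        rw [one_mul]; gcongr
    _ ≤ (D + 2) * (D + 4) / 8 * X + 10 / 9 * ((D + 2) * (D + 4) / 8 * X) := by gcongr
    _ = (19 * ((D + 2) * (D + 4)) / 72) * X := by ring
    _ ≤ D ^ 2 * X := by
        have : 19 * ((D + 2) * (D + 4)) / 72 ≤ D ^ 2 := by
          rw [div_le_iff₀ (by norm_num)]
          nlinarith
        gcongr

/-- Below the threshold the ball is not optimal. -/
theorem growth_lower {d : ℕ} (hd : 5 ≤ d) {q : ℝ} (hq1 : 1 ≤ q)
    (hq : q ≤ (Real.exp 1 / 2) ^ ((d : ℝ) - √d) * Real.exp (-(√d / 2)) / (d : ℝ) ^ 3) :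
    ∃ Ω : Set (E d), IsOpen Ω ∧ Ω.Nonempty ∧ volume Ω < ⊤ ∧
      sInf (RaySet (Metric.ball (0 : E d) 1)) *
          (sSup (TorSet (Metric.ball (0 : E d) 1))) ^ q /
          ((volume (Metric.ball (0 : E d) 1)).toReal) ^ ((q * ((d : ℝ) + 2) - 2) / (d : ℝ)) <
        sInf (RaySet Ω) * (sSup (TorSet Ω)) ^ q /
          ((volume Ω).toReal) ^ ((q * ((d : ℝ) + 2) - 2) / (d : ℝ)) := by
  obtain ⟨n, rfl⟩ : ∃ n, d = n + 1 := ⟨d - 1, by omega⟩
  obtain ⟨μ, ψ, ψ', ψ'', h⟩ := exists_eig n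
  refine h.hole (by omega) hq1 ?_
  have hM := h.Mr_pos
  have hμ := h.mu
  have hμ2 := h.mu_bounds.2
  have hd5 : (5 : ℝ) ≤ ((n + 1 : ℕ) : ℝ) := by exact_mod_cast hd
  set D : ℝ := ((n + 1 : ℕ) : ℝ) with hD
  have hDn : (n : ℝ) + 1 = D := by rw [hD]; push_cast; ring
  have hD0 : 0 < D := by linarith
  have hs0 : 0 < √D := Real.sqrt_pos.2 hD0
  have hs2 : √D ^ 2 = D := Real.sq_sqrt hD0.le
  have hs1 : 1 < √D := by
    by_contra hcon
    push Not at hcon
    nlinarith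
  have hle := h.Mr_le (η := 1 / √D) (by positivity) (by rw [div_lt_one hs0]; exact hs1) (by
    rw [hDn, div_mul_eq_mul_div, le_div_iff₀ hs0, one_mul, one_mul]
    nlinarith)
  have e3 : (n : ℝ) + 3 = D + 2 := by rw [← hDn]; ring
  have e5 : (n : ℝ) + 5 = D + 4 := by rw [← hDn]; ring
  have e1 : (n : ℝ) - 1 = D - 2 := by rw [← hDn]; ring
  rw [hDn, e5] at hμ2
  rw [e3, e1]
  have e6 : -((1 - Real.log 2) * ((1 - 1 / √D) * D)) + 1 / (2 * (1 / √D)) =
      -((1 - Real.log 2) * (D - √D)) + √D / 2 := by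
    have : 1 / √D * D = √D := by
      rw [div_mul_eq_mul_div, one_mul, div_eq_iff hs0.ne']
      nlinarith
    rw [show (1 - 1 / √D) * D = D - 1 / √D * D by ring, this]
    congr 1
    field_simp
  rw [hDn, e6, Real.exp_add] at hle
  rw [half_e_rpow] at hq
  set X := Real.exp ((1 - Real.log 2) * (D - √D)) with hX
  have hXi : Real.exp (-((1 - Real.log 2) * (D - √D))) = 1 / X := by
    rw [hX, Real.exp_neg, one_div]
  set Y := Real.exp (√D / 2) with hY
  have hYi : Real.exp (-(√D / 2)) = 1 / Y := by rw [hY, Real.exp_neg, one_div]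
  have hX0 : 0 < X := Real.exp_pos _
  have hY0 : 0 < Y := Real.exp_pos _
  rw [hXi] at hle
  rw [hYi] at hq
  have hqpos : 0 < q := by linarith
  calc q * (5 * (D + 2) * μ * Mr n ψ) ≤
      (X * (1 / Y) / D ^ 3) * (5 * (D + 2) * (D * (D + 4) / 2) * (D * (1 / X * Y))) := by gcongr
    _ = 5 * (D + 2) * (D + 4) / (2 * D) := by field_simp
    _ < 16 * (D - 2) := by
      rw [div_lt_iff₀ (by positivity)]
      nlinarith

end Pool.Agent.Lib.H38.Tor
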