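import Mathlib
import Pool.Agent.Lib.H38.Tor2.Ecmp

set_option autoImplicit false

/-!
# Piecewise comparison functions
-/

namespace Pool.Agent.Lib.H38.Tor

open MeasureTheory Set Filter Topology

section
variable {n : ℕ} {μ : ℝ} {ψ ψ' ψ'' : ℝ → ℝ}

/-- Wronskian -/
def Qw (ψ ψ' φ φ' : ℝ → ℝ) (s : ℝ) : ℝ := φ s * ψ' s - ψ s * φ' s

/-- Monotonicity of the weighted Wronskian on an interval. -/
theorem Eig.wr_piece (h : Eig n μ ψ ψ' ψ'') {a b σ : ℝ} (ha : 0 ≤ a) (hb : b ≤ 1)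
    {φ φ' φ'' V : ℝ → ℝ}
    (h1 : ∀ s ∈ Ioo a b, HasDerivAt φ (φ' s) s)
    (h2 : ∀ s ∈ Ioo a b, HasDerivAt φ' (φ'' s) s)
    (c1 : ContinuousOn φ (Icc a b)) (c2 : ContinuousOn φ' (Icc a b))
    (hode : ∀ s ∈ Ioo a b, 4 * s * φ'' s + 2 * ((n : ℝ) + 1) * φ' s + V s * φ s = 0)
    (hpos : ∀ s ∈ Ioo a b, 0 ≤ φ s) (hV : ∀ s ∈ Ioo a b, 0 ≤ σ * (V s - μ))
    (hinit : a = 0 ∨ 0 ≤ σ * Qw ψ ψ' φ φ' a) {s : ℝ} (hs : s ∈ Icc a b) (hs0 : 0 < s) :
    0 ≤ σ * Qw ψ ψ' φ φ' s := by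
  set p : ℝ := ((n : ℝ) + 1) / 2 with hp
  have hp0 : 0 < p := by positivity
  have cψ := h.cont
  have cψ' : Continuous ψ' := continuous_iff_continuousAt.mpr fun s => (h.rad.h2 s).continuousAt
  have hder : ∀ t ∈ Ioo a b, HasDerivAt (fun t => σ * (t ^ p * Qw ψ ψ' φ φ' t))
      (t ^ p / (4 * t) * φ t * ψ t * (σ * (V t - μ))) t := by
    intro t ht
    have ht0 : 0 < t := ha.trans_lt ht.1
    have e1 := ((h1 t ht).mul (h.rad.h2 t)).sub ((h.rad.h1 t).mul (h2 t ht))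
    have e2 := (((Real.hasDerivAt_rpow_const (p := p) (Or.inl ht0.ne')).mul e1).const_mul σ)
    refine e2.congr_deriv ?_
    simp only [Pi.mul_apply, Pi.sub_apply]
    have hode' := h.rad.ode t
    push_cast at hode'
    have hφ := hode t ht
    have e3 : t ^ (p - 1) = t ^ p / t := Real.rpow_sub_one ht0.ne' p
    rw [e3]
    have hnp : (n : ℝ) + 1 = 2 * p := by rw [hp]; ring
    rw [hnp] at hode' hφ
    have e4 : t * ψ'' t = -(p * ψ' t) - μ / 4 * ψ t := by linarith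
    have e5 : t * φ'' t = -(p * φ' t) - V t / 4 * φ t := by linarith
    generalize t ^ p = P
    field_simp
    linear_combination (4 * φ t * σ * P) * e4 - (4 * ψ t * σ * P) * e5
  have hc : ContinuousOn (fun t => σ * (t ^ p * Qw ψ ψ' φ φ' t)) (Icc a b) := by
    have c3 : ContinuousOn (fun t : ℝ => t ^ p) (Icc a b) :=
      (Real.continuous_rpow_const hp0.le).continuousOn
    have c4 : ContinuousOn (Qw ψ ψ' φ φ') (Icc a b) :=
      (c1.mul cψ'.continuousOn).sub (cψ.continuousOn.mul c2)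
    exact continuousOn_const.mul (c3.mul c4)
  have hmono : MonotoneOn (fun t => σ * (t ^ p * Qw ψ ψ' φ φ' t)) (Icc a b) := by
    refine monotoneOn_of_deriv_nonneg (convex_Icc _ _) hc (fun t ht => ?_) (fun t ht => ?_)
    · rw [interior_Icc] at ht
      exact (hder t ht).differentiableAt.differentiableWithinAt
    · rw [interior_Icc] at ht
      rw [(hder t ht).deriv]
      have ht0 : 0 < t := ha.trans_lt ht.1
      have e1 := hpos t ht
      have e2 := h.pos t ⟨ht0.le, ht.2.trans_le hb⟩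
      have e3 := hV t ht
      have e4 := Real.rpow_pos_of_pos ht0 p
      exact mul_nonneg (by positivity) e3
  have hab : a ≤ b := hs.1.trans hs.2
  have h3 := hmono (left_mem_Icc.2 hab) hs hs.1
  simp only at h3
  have h4 : 0 ≤ σ * (a ^ p * Qw ψ ψ' φ φ' a) := by
    rcases hinit with h5 | h5
    · rw [h5, Real.zero_rpow hp0.ne']
      simp
    · have := Real.rpow_nonneg ha p
      calc 0 ≤ a ^ p * (σ * Qw ψ ψ' φ φ' a) := by positivity
        _ = _ := by ring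
  have h5 : 0 ≤ s ^ p * (σ * Qw ψ ψ' φ φ' s) := by
    calc (0 : ℝ) ≤ σ * (s ^ p * Qw ψ ψ' φ φ' s) := h4.trans h3
      _ = _ := by ring
  exact nonneg_of_mul_nonneg_right h5 (Real.rpow_pos_of_pos hs0 p)

/-- Monotonicity of the quotient. -/
theorem Eig.quot_piece (h : Eig n μ ψ ψ' ψ'') {a b σ : ℝ}
    {φ φ' : ℝ → ℝ}
    (h1 : ∀ s ∈ Ioo a b, HasDerivAt φ (φ' s) s) (c1 : ContinuousOn φ (Icc a b))
    (hpos : ∀ s ∈ Icc a b, 0 < φ s) (hQ : ∀ s ∈ Ioo a b, 0 ≤ σ * Qw ψ ψ' φ φ' s)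
    {s : ℝ} (hs : s ∈ Icc a b) : σ * (ψ a * φ s) ≤ σ * (ψ s * φ a) := by
  have cψ := h.cont
  have hq : MonotoneOn (fun s => σ * (ψ s / φ s)) (Icc a b) := by
    have hqd : ∀ τ ∈ Ioo a b, HasDerivAt (fun s => σ * (ψ s / φ s))
        (σ * ((ψ' τ * φ τ - ψ τ * φ' τ) / φ τ ^ 2)) τ := by
      intro τ hτ
      exact ((h.rad.h1 τ).div (h1 τ hτ) (hpos τ (Ioo_subset_Icc_self hτ)).ne').const_mul σ
    refine monotoneOn_of_deriv_nonneg (convex_Icc a b) ?_ (fun τ hτ => ?_) (fun τ hτ => ?_)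
    · exact continuousOn_const.mul (cψ.continuousOn.div c1 (fun t ht => (hpos t ht).ne'))
    · rw [interior_Icc] at hτ
      exact (hqd τ hτ).differentiableAt.differentiableWithinAt
    · rw [interior_Icc] at hτ
      rw [(hqd τ hτ).deriv]
      have e1 := hQ τ hτ
      unfold Qw at e1
      have e2 : σ * ((ψ' τ * φ τ - ψ τ * φ' τ) / φ τ ^ 2) =
          (σ * (φ τ * ψ' τ - ψ τ * φ' τ)) / φ τ ^ 2 := by ring
      rw [e2]
      exact div_nonneg e1 (sq_nonneg _)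
  have hab : a ≤ b := hs.1.trans hs.2
  have h3 := hq (left_mem_Icc.2 hab) hs hs.1
  simp only at h3
  have pa := hpos a (left_mem_Icc.2 hab)
  have ps := hpos s hs
  have h4 : σ * (ψ a * φ s) = (σ * (ψ a / φ a)) * (φ a * φ s) := by field_simp
  have h5 : σ * (ψ s * φ a) = (σ * (ψ s / φ s)) * (φ a * φ s) := by field_simp
  rw [h4, h5]
  exact mul_le_mul_of_nonneg_right h3 (by positivity)

end

/-! ### the scaled function `χ (θ s)` -/

lemma sc_der (δ θ : ℝ) {s : ℝ} (hs : θ * s < 1) :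
    HasDerivAt (fun s => ch δ (θ * s)) (θ * ch' δ (θ * s)) s := by
  have h1 : HasDerivAt (fun s : ℝ => θ * s) θ s := by simpa using (hasDerivAt_id s).const_mul θ
  have h2 := HasDerivAt.comp (h₂ := ch δ) (h := fun s : ℝ => θ * s) s (ch_der δ hs) h1
  refine h2.congr_deriv ?_
  ring

lemma sc'_der (δ θ : ℝ) {s : ℝ} (hs : θ * s < 1) :
    HasDerivAt (fun s => θ * ch' δ (θ * s)) (θ ^ 2 * ch'' δ (θ * s)) s := by
  have h1 : HasDerivAt (fun s : ℝ => θ * s) θ s := by simpa using (hasDerivAt_id s).const_mul θ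
  have h2 := (HasDerivAt.comp (h₂ := ch' δ) (h := fun s : ℝ => θ * s) s (ch'_der δ hs) h1).const_mul θ
  refine h2.congr_deriv ?_
  ring

lemma sc_ode (D δ θ : ℝ) {s : ℝ} (hs : θ * s < 1) :
    4 * s * (θ ^ 2 * ch'' δ (θ * s)) + 2 * D * (θ * ch' δ (θ * s)) +
      (θ * Vch D δ (θ * s)) * ch δ (θ * s) = 0 := by
  have := ch_ode D δ hs
  linear_combination θ * this

/-! ### the functions `s ^ (-d / 4) w` with `w'' = m w` -/

noncomputable def pw (r : ℝ) (w : ℝ → ℝ) (s : ℝ) : ℝ := s ^ (-r) * w s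

noncomputable def pw' (r : ℝ) (w w' : ℝ → ℝ) (s : ℝ) : ℝ := s ^ (-r) * (w' s - r / s * w s)

noncomputable def pw'' (r m : ℝ) (w w' : ℝ → ℝ) (s : ℝ) : ℝ :=
  s ^ (-r) * (m * w s - 2 * r / s * w' s + r * (r + 1) / s ^ 2 * w s)

lemma pw_der {r : ℝ} {w w' : ℝ → ℝ} {s : ℝ} (hs : 0 < s) (h1 : HasDerivAt w (w' s) s) :
    HasDerivAt (pw r w) (pw' r w w' s) s := by
  have h := (Real.hasDerivAt_rpow_const (p := -r) (Or.inl hs.ne')).mul h1
  refine h.congr_deriv ?_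
  unfold pw'
  rw [Real.rpow_sub_one hs.ne']
  field_simp
  ring

lemma pw'_der {r m : ℝ} {w w' : ℝ → ℝ} {s : ℝ} (hs : 0 < s) (h1 : HasDerivAt w (w' s) s)
    (h2 : HasDerivAt w' (m * w s) s) :
    HasDerivAt (pw' r w w') (pw'' r m w w' s) s := by
  have h3 : HasDerivAt (fun s : ℝ => r / s) (-(r / s ^ 2)) s := by
    have := (hasDerivAt_const s r).div (hasDerivAt_id s) (by simpa using hs.ne')
    refine this.congr_deriv ?_
    simp only [id]
    field_simp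
    ring
  have h := (Real.hasDerivAt_rpow_const (p := -r) (Or.inl hs.ne')).mul (h2.sub (h3.mul h1))
  refine h.congr_deriv ?_
  simp only [Pi.sub_apply, Pi.mul_apply]
  unfold pw''
  rw [Real.rpow_sub_one hs.ne']
  field_simp
  ring

lemma pw_ode {D m : ℝ} {w w' : ℝ → ℝ} {s : ℝ} (hs : 0 < s) :
    4 * s * pw'' (D / 4) m w w' s + 2 * D * pw' (D / 4) w w' s +
      (-(4 * s * m) + (D ^ 2 / 4 - D) / s) * pw (D / 4) w s = 0 := by
  unfold pw pw' pw''
  field_simp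
  ring

lemma pw_cont {r a b : ℝ} (ha : 0 < a) {w : ℝ → ℝ} (hw : Continuous w) :
    ContinuousOn (pw r w) (Icc a b) := by
  intro s hs
  have hs0 : 0 < s := ha.trans_le hs.1
  exact ((Real.continuousAt_rpow_const s (-r) (Or.inl hs0.ne')).mul
    hw.continuousAt).continuousWithinAt

lemma pw'_cont {r a b : ℝ} (ha : 0 < a) {w w' : ℝ → ℝ} (hw : Continuous w) (hw' : Continuous w') :
    ContinuousOn (pw' r w w') (Icc a b) := by
  intro s hs
  have hs0 : 0 < s := ha.trans_le hs.1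
  have h1 : ContinuousAt (fun s : ℝ => r / s) s := continuousAt_const.div continuousAt_id hs0.ne'
  exact ((Real.continuousAt_rpow_const s (-r) (Or.inl hs0.ne')).mul
    (hw'.continuousAt.sub (h1.mul hw.continuousAt))).continuousWithinAt

lemma Vch_self (D : ℝ) {s : ℝ} (hs : s < 1) :
    Vch D D s = D ^ 2 / 4 + (1 - cc s) * D / (2 * cc s * (1 + cc s)) := by
  have hc := cc_pos hs
  unfold Vch
  set c := cc s
  field_simp
  ring

end Pool.Agent.Lib.H38.Tor
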