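import Mathlib
import Pool.Agent.Lib.H38.Tor2.Piece

set_option autoImplicit false

/-!
# Two-sided bounds of the right order for the first eigenvalue of the ball in high dimension
-/

namespace Pool.Agent.Lib.H38.Tor

open MeasureTheory Set Filter Topology

section
variable {n : ℕ} {μ : ℝ} {ψ ψ' ψ'' : ℝ → ℝ}

lemma ch'_one (δ : ℝ) : ch' δ 1 = -(δ / 4) * ch δ 1 := by
  unfold ch'
  have : cc 1 = 0 := by simp [cc]
  rw [this]
  ring

/-- Lower bound `μ ≥ d ^ 2 / 4 + (3 / 4) d ^ (4 / 3)`. -/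
theorem Eig.mu_ge_sharp (h : Eig n μ ψ ψ' ψ'') {z : ℝ} (hz : 6 ≤ z) (hzd : z ^ 3 = (n : ℝ) + 1) :
    (1 + 3 / z ^ 2) * ((z ^ 3) ^ 2 / 4) ≤ μ := by
  by_contra hcon
  push Not at hcon
  have hz0 : 0 < z := by linarith
  set D : ℝ := z ^ 3 with hD
  have hD0 : 0 < D := by positivity
  set θ : ℝ := 1 + 3 / z ^ 2 with hθ
  have hθ0 : 0 < θ := by positivity
  have hθ1 : 1 < θ := by
    have : 0 < 3 / z ^ 2 := by positivity
    linarith
  set s1 : ℝ := 1 / θ with hs1
  have hs10 : 0 < s1 := by positivity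
  have hs11 : s1 < 1 := by rw [hs1, div_lt_one hθ0]; exact hθ1
  have hθs1 : θ * s1 = 1 := by rw [hs1]; field_simp
  have hψs1 : 0 < ψ s1 := h.pos s1 ⟨hs10.le, hs11⟩
  have hlt : ∀ s ∈ Ioo (0 : ℝ) s1, θ * s < 1 := by
    intro s hs
    have := hs.2
    rw [hs1, lt_div_iff₀ hθ0] at this
    linarith
  -- first piece
  have hQ1 := h.wr_piece (a := 0) (b := s1) (σ := 1) le_rfl hs11.le
    (φ := fun s => ch D (θ * s)) (φ' := fun s => θ * ch' D (θ * s))
    (φ'' := fun s => θ ^ 2 * ch'' D (θ * s)) (V := fun s => θ * Vch D D (θ * s))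
    (fun s hs => sc_der D θ (hlt s hs)) (fun s hs => sc'_der D θ (hlt s hs))
    ((ch_cont D).comp (by fun_prop)).continuousOn
    (continuous_const.mul ((ch'_cont D).comp (by fun_prop))).continuousOn
    (fun s hs => by rw [← hzd]; exact sc_ode D D θ (hlt s hs))
    (fun s _ => (ch_pos D _).le)
    (fun s hs => by
      rw [one_mul, Vch_self D (hlt s hs)]
      have hc := cc_pos (hlt s hs)
      have hc1 := cc_le_one (mul_pos hθ0 hs.1).le
      have : 0 ≤ (1 - cc (θ * s)) * D / (2 * cc (θ * s) * (1 + cc (θ * s))) := by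
        have : 0 ≤ 1 - cc (θ * s) := by linarith
        positivity
      have h2 : θ * (D ^ 2 / 4) ≤
        θ * (D ^ 2 / 4 + (1 - cc (θ * s)) * D / (2 * cc (θ * s) * (1 + cc (θ * s)))) := by
        gcongr
        linarith
      linarith)
    (Or.inl rfl) (s := s1) ⟨hs10.le, le_rfl⟩ hs10
  unfold Qw at hQ1
  simp only [one_mul, hθs1, ch'_one] at hQ1
  have hlog : 0 ≤ ψ' s1 + θ * D / 4 * ψ s1 := by
    have e : ch D 1 * ψ' s1 - ψ s1 * (θ * (-(D / 4) * ch D 1)) =
        ch D 1 * (ψ' s1 + θ * D / 4 * ψ s1) := by ring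
    rw [e] at hQ1
    exact nonneg_of_mul_nonneg_right hQ1 (ch_pos D 1)
  -- second piece
  set k : ℝ := z ^ 2 / 2 with hk
  have hk0 : 0 < k := by positivity
  have hk1 : k * (1 - s1) ≤ 3 / 2 := by
    have : 1 - s1 = 3 / z ^ 2 / θ := by
      have e0 : 3 / z ^ 2 = θ - 1 := by rw [hθ]; ring
      rw [hs1, e0]
      field_simp
    rw [this, hk]
    have e : z ^ 2 / 2 * (3 / z ^ 2 / θ) = 3 / 2 * (1 / θ) := by field_simp
    rw [e]
    have : 1 / θ ≤ 1 := by rw [← hs1]; exact hs11.le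
    linarith
  have hpi := Real.pi_gt_d2
  have hwd : ∀ s : ℝ, HasDerivAt (fun s : ℝ => Real.cos (k * (s - s1)))
      (-(k * Real.sin (k * (s - s1)))) s := by
    intro s
    have h1 : HasDerivAt (fun s : ℝ => k * (s - s1)) k s := by
      simpa using ((hasDerivAt_id s).sub_const s1).const_mul k
    refine h1.cos.congr_deriv ?_
    ring
  have hwd' : ∀ s : ℝ, HasDerivAt (fun s : ℝ => -(k * Real.sin (k * (s - s1))))
      (-k ^ 2 * Real.cos (k * (s - s1))) s := by
    intro s
    have h1 : HasDerivAt (fun s : ℝ => k * (s - s1)) k s := by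
      simpa using ((hasDerivAt_id s).sub_const s1).const_mul k
    refine (h1.sin.const_mul k).neg.congr_deriv ?_
    ring
  have hs1z : 11 / 12 ≤ s1 := by
    rw [hs1, le_div_iff₀ hθ0, hθ]
    have : 3 / z ^ 2 ≤ 1 / 12 := by
      rw [div_le_div_iff₀ (by positivity) (by norm_num)]
      nlinarith
    nlinarith
  have hQ2 := h.wr_piece (a := s1) (b := 1) (σ := 1) hs10.le le_rfl
    (φ := pw (D / 4) (fun s => Real.cos (k * (s - s1))))
    (φ' := pw' (D / 4) (fun s => Real.cos (k * (s - s1)))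
      (fun s => -(k * Real.sin (k * (s - s1)))))
    (φ'' := pw'' (D / 4) (-k ^ 2) (fun s => Real.cos (k * (s - s1)))
      (fun s => -(k * Real.sin (k * (s - s1)))))
    (V := fun s => -(4 * s * (-k ^ 2)) + (D ^ 2 / 4 - D) / s)
    (fun s hs => pw_der (hs10.trans hs.1) (hwd s))
    (fun s hs => pw'_der (hs10.trans hs.1) (hwd s) (hwd' s))
    (pw_cont hs10 (by fun_prop)) (pw'_cont hs10 (by fun_prop) (by fun_prop))
    (fun s hs => by rw [← hzd]; exact pw_ode (hs10.trans hs.1))
    (fun s hs => by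
      have hs0 := hs10.trans hs.1
      have e1 : 0 ≤ k * (s - s1) := by
        have : 0 ≤ s - s1 := by linarith [hs.1]
        positivity
      have e2 : k * (s - s1) ≤ k * (1 - s1) := by
        have := hs.2
        gcongr
      unfold pw
      have := Real.rpow_pos_of_pos hs0 (-(D / 4))
      have := Real.cos_nonneg_of_mem_Icc (x := k * (s - s1)) ⟨by linarith, by linarith⟩
      positivity)
    (fun s hs => by
      have hs0 := hs10.trans hs.1
      have hD4 : 0 ≤ D ^ 2 / 4 - D := by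
        have : 216 ≤ D := by
          rw [hD]
          have : (6 : ℝ) ^ 3 ≤ z ^ 3 := by gcongr
          linarith
        nlinarith
      have e1 : D ^ 2 / 4 - D ≤ (D ^ 2 / 4 - D) / s := by
        rw [le_div_iff₀ hs0]
        have := hs.2
        nlinarith
      have e2 : 4 * s1 * k ^ 2 ≤ 4 * s * k ^ 2 := by
        have := hs.1
        gcongr
      have e3 : θ * (D ^ 2 / 4) ≤ 4 * s1 * k ^ 2 + (D ^ 2 / 4 - D) := by
        have e4 : θ * (D ^ 2 / 4) = D ^ 2 / 4 + 3 / 4 * z ^ 4 := by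
          rw [hθ, hD]
          field_simp
        have e5 : 4 * s1 * k ^ 2 = s1 * z ^ 4 := by rw [hk]; ring
        rw [e4, e5, hD]
        have e6 : z ^ 3 ≤ 1 / 6 * z ^ 4 := by
          have : 0 ≤ z ^ 3 * (z - 6) := by
            have : 0 ≤ z - 6 := by linarith
            positivity
          nlinarith
        have e7 : 11 / 12 * z ^ 4 ≤ s1 * z ^ 4 := by gcongr
        nlinarith
      rw [one_mul]
      nlinarith)
    (Or.inr (by
      rw [one_mul]
      unfold Qw pw pw'
      simp only [sub_self, mul_zero, Real.cos_zero, Real.sin_zero]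
      have e1 : D / 4 / s1 = θ * D / 4 := by
        rw [hs1]
        field_simp
      have e2 : s1 ^ (-(D / 4)) * 1 * ψ' s1 - ψ s1 * (s1 ^ (-(D / 4)) *
          (-0 - D / 4 / s1 * 1)) = s1 ^ (-(D / 4)) * (ψ' s1 + θ * D / 4 * ψ s1) := by
        rw [e1]
        ring
      rw [e2]
      have := Real.rpow_pos_of_pos hs10 (-(D / 4))
      positivity))
    (s := 1) ⟨hs11.le, le_rfl⟩ one_pos
  unfold Qw pw at hQ2
  rw [h.one] at hQ2
  simp only [one_mul, Real.one_rpow, zero_mul, sub_zero] at hQ2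
  have hcos : 0 < Real.cos (k * (1 - s1)) := by
    refine Real.cos_pos_of_mem_Ioo ⟨?_, ?_⟩
    · have : 0 ≤ k * (1 - s1) := by
        have : 0 ≤ 1 - s1 := by linarith
        positivity
      linarith
    · linarith
  have := mul_neg_of_pos_of_neg hcos (h.neg 1 ⟨zero_le_one, le_rfl⟩)
  linarith

/-- Upper bound `μ ≤ d ^ 2 / 4 + (13 / 5) d ^ (4 / 3)`. -/
theorem Eig.mu_le_sharp (h : Eig n μ ψ ψ' ψ'') {z : ℝ} (hz : 6 ≤ z) (hzd : z ^ 3 = (n : ℝ) + 1) :
    μ ≤ (z ^ 3) ^ 2 / 4 + 13 / 5 * z ^ 4 := by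
  by_contra hcon
  push Not at hcon
  have hz0 : 0 < z := by linarith
  set D : ℝ := z ^ 3 with hD
  have hD0 : 0 < D := by positivity
  set s1 : ℝ := 1 - 4 / z ^ 2 with hs1
  have hz36 : 4 / z ^ 2 ≤ 1 / 9 := by
    rw [div_le_div_iff₀ (by positivity) (by norm_num)]
    nlinarith
  have hz2 : 0 < 4 / z ^ 2 := by positivity
  have hs1z : 8 / 9 ≤ s1 := by rw [hs1]; linarith
  have hs10 : 0 < s1 := by linarith
  have hs11 : s1 < 1 := by rw [hs1]; linarith
  have hψs1 : 0 < ψ s1 := h.pos s1 ⟨hs10.le, hs11⟩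
  have hcs : cc s1 = 2 / z := by
    unfold cc
    rw [hs1, sub_sub_cancel, show (4 : ℝ) / z ^ 2 = (2 / z) ^ 2 by rw [div_pow]; norm_num]
    exact Real.sqrt_sq (by positivity)
  -- first piece
  have hQ1 := h.wr_piece (a := 0) (b := s1) (σ := -1) le_rfl hs11.le
    (φ := ch D) (φ' := ch' D) (φ'' := ch'' D) (V := Vch D D)
    (fun s hs => ch_der D (hs.2.trans hs11)) (fun s hs => ch'_der D (hs.2.trans hs11))
    (ch_cont D).continuousOn (ch'_cont D).continuousOn
    (fun s hs => by rw [← hzd]; exact ch_ode D D (hs.2.trans hs11))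
    (fun s _ => (ch_pos D _).le)
    (fun s hs => by
      have hlt := hs.2.trans hs11
      rw [Vch_self D hlt]
      have hc := cc_pos hlt
      have hc1 := cc_le_one hs.1.le
      have hcz : 2 / z ≤ cc s := by
        rw [← hcs]
        unfold cc
        exact Real.sqrt_le_sqrt (by linarith [hs.2])
      have e1 : (1 - cc s) * D / (2 * cc s * (1 + cc s)) ≤ z ^ 4 / 4 := by
        rw [div_le_div_iff₀ (by positivity) (by norm_num), hD]
        have e2 : 2 ≤ z * cc s := by
          rw [div_le_iff₀ hz0] at hcz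
          linarith
        have e3 : 1 - cc s ≤ 1 + cc s := by linarith
        calc (1 - cc s) * z ^ 3 * 4 ≤ (1 + cc s) * z ^ 3 * 4 := by gcongr
          _ = 2 * (2 * (1 + cc s) * z ^ 3) := by ring
          _ ≤ (z * cc s) * (2 * (1 + cc s) * z ^ 3) := by gcongr
          _ = z ^ 4 * (2 * cc s * (1 + cc s)) := by ring
      nlinarith [pow_pos hz0 4])
    (Or.inl rfl) (s := s1) ⟨hs10.le, le_rfl⟩ hs10
  unfold Qw ch' at hQ1
  rw [hcs] at hQ1
  have hlog : ψ' s1 ≤ -(D / (4 * (1 + 2 / z))) * ψ s1 := by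
    have e : -1 * (ch D s1 * ψ' s1 - ψ s1 * (-(D / (4 * (1 + 2 / z))) * ch D s1)) =
        ch D s1 * (-(D / (4 * (1 + 2 / z))) * ψ s1 - ψ' s1) := by ring
    rw [e] at hQ1
    have := nonneg_of_mul_nonneg_right hQ1 (ch_pos D s1)
    linarith
  -- second piece
  set k : ℝ := 3 / 5 * z ^ 2 with hk
  have hk0 : 0 < k := by positivity
  have hpi := Real.pi_lt_d2
  have hpi3 := Real.pi_gt_three
  have hk1 : k * (1 - s1) = 12 / 5 := by
    rw [hs1, hk]
    field_simp
    ring
  set s2 : ℝ := s1 + 3 / 4 * Real.pi / k with hs2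
  have hs12 : s1 < s2 := by
    have : 0 < 3 / 4 * Real.pi / k := by positivity
    linarith
  have hks2 : k * (s2 - s1) = 3 / 4 * Real.pi := by
    rw [hs2]
    field_simp
    ring
  have hs21 : s2 < 1 := by
    have h1 : k * (s2 - s1) < k * (1 - s1) := by
      rw [hks2, hk1]
      linarith
    have := lt_of_mul_lt_mul_left h1 hk0.le
    linarith
  have hs20 : 0 < s2 := hs10.trans hs12
  set w : ℝ → ℝ := fun s => Real.sin (k * (s - s1) + Real.pi / 4) with hw
  set w' : ℝ → ℝ := fun s => k * Real.cos (k * (s - s1) + Real.pi / 4) with hw'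
  have hlin : ∀ s : ℝ, HasDerivAt (fun s : ℝ => k * (s - s1) + Real.pi / 4) k s := by
    intro s
    simpa using (((hasDerivAt_id s).sub_const s1).const_mul k).add_const (Real.pi / 4)
  have hwd : ∀ s : ℝ, HasDerivAt w (w' s) s := by
    intro s
    refine (hlin s).sin.congr_deriv ?_
    rw [hw']
    ring
  have hwd' : ∀ s : ℝ, HasDerivAt w' (-k ^ 2 * w s) s := by
    intro s
    refine ((hlin s).cos.const_mul k).congr_deriv ?_
    rw [hw]
    ring
  have hwc : Continuous w := by rw [hw]; fun_prop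
  have hwc' : Continuous w' := by rw [hw']; fun_prop
  have hQ2 := h.wr_piece (a := s1) (b := s2) (σ := -1) hs10.le hs21.le
    (φ := pw (D / 4) w) (φ' := pw' (D / 4) w w') (φ'' := pw'' (D / 4) (-k ^ 2) w w')
    (V := fun s => -(4 * s * (-k ^ 2)) + (D ^ 2 / 4 - D) / s)
    (fun s hs => pw_der (hs10.trans hs.1) (hwd s))
    (fun s hs => pw'_der (hs10.trans hs.1) (hwd s) (hwd' s))
    (pw_cont hs10 hwc) (pw'_cont hs10 hwc hwc')
    (fun s hs => by rw [← hzd]; exact pw_ode (hs10.trans hs.1))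
    (fun s hs => by
      have hs0 := hs10.trans hs.1
      have e1 : 0 ≤ k * (s - s1) := by
        have : 0 ≤ s - s1 := by linarith [hs.1]
        positivity
      have e2 : k * (s - s1) ≤ k * (s2 - s1) := by
        have := hs.2
        gcongr
      rw [hks2] at e2
      unfold pw
      have := Real.rpow_pos_of_pos hs0 (-(D / 4))
      have : 0 ≤ w s := Real.sin_nonneg_of_nonneg_of_le_pi (by linarith) (by linarith)
      positivity)
    (fun s hs => by
      have hs0 := hs10.trans hs.1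
      have hs1' := hs.2.trans hs21
      have hD4 : 0 ≤ D ^ 2 / 4 - D := by
        have : 216 ≤ D := by
          rw [hD]
          have : (6 : ℝ) ^ 3 ≤ z ^ 3 := by gcongr
          linarith
        nlinarith
      have e1 : (D ^ 2 / 4 - D) / s ≤ D ^ 2 / 4 + 9 / 8 * z ^ 4 := by
        rw [div_le_iff₀ hs0]
        have e3 : (D ^ 2 / 4 + 9 / 8 * z ^ 4) * s1 ≤ (D ^ 2 / 4 + 9 / 8 * z ^ 4) * s := by
          have := hs.1
          gcongr
        have e4 : D ^ 2 / 4 ≤ (D ^ 2 / 4 + 9 / 8 * z ^ 4) * s1 := by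
          have e5 : (D ^ 2 / 4) * s1 = D ^ 2 / 4 - z ^ 4 := by
            rw [hs1, hD]
            field_simp
          have e6 : 9 / 8 * z ^ 4 * (8 / 9) ≤ 9 / 8 * z ^ 4 * s1 := by gcongr
          nlinarith
        linarith
      have e2 : 4 * s * k ^ 2 ≤ 36 / 25 * z ^ 4 := by
        calc 4 * s * k ^ 2 ≤ 4 * 1 * k ^ 2 := by gcongr
          _ = 36 / 25 * z ^ 4 := by rw [hk]; ring
      have e7 := pow_pos hz0 4
      have e8 : -(4 * s * (-k ^ 2)) = 4 * s * k ^ 2 := by ring
      rw [e8]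
      linarith)
    (Or.inr (by
      unfold Qw pw pw'
      have ew : w s1 = √2 / 2 := by
        rw [hw]
        simp only [sub_self, mul_zero, zero_add, Real.sin_pi_div_four]
      have ew' : w' s1 = k * (√2 / 2) := by
        rw [hw']
        simp only [sub_self, mul_zero, zero_add, Real.cos_pi_div_four]
      rw [ew, ew']
      have e2 : -1 * (s1 ^ (-(D / 4)) * (√2 / 2) * ψ' s1 - ψ s1 * (s1 ^ (-(D / 4)) *
          (k * (√2 / 2) - D / 4 / s1 * (√2 / 2)))) =
          s1 ^ (-(D / 4)) * (√2 / 2) * ((k - D / 4 / s1) * ψ s1 - ψ' s1) := by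
        ring
      rw [e2]
      have h0 := Real.rpow_pos_of_pos hs10 (-(D / 4))
      have h3 : -(D / (4 * (1 + 2 / z))) ≤ k - D / 4 / s1 := by
        have e3 : s1 = (1 - 2 / z) * (1 + 2 / z) := by
          rw [hs1]
          field_simp
          ring
        have hz1 : 0 < 1 - 2 / z := by
          have : 2 / z ≤ 1 / 3 := by
            rw [div_le_div_iff₀ hz0 (by norm_num)]
            linarith
          linarith
        have e4 : D / 4 / s1 - D / (4 * (1 + 2 / z)) = z ^ 2 / 2 / s1 := by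
          have e8 : 1 / (1 + 2 / z) = (1 - 2 / z) / s1 := by
            rw [e3]
            have : 1 + 2 / z ≠ 0 := by positivity
            rw [mul_comm, div_mul_cancel_right₀ hz1.ne', one_div]
          have e9 : D / (4 * (1 + 2 / z)) = D / 4 * (1 / (1 + 2 / z)) := by
            field_simp
          have e10 : D * (2 / z) = 2 * z ^ 2 := by
            rw [hD]
            field_simp
          rw [e9, e8]
          have e11 : D / 4 / s1 - D / 4 * ((1 - 2 / z) / s1) = D * (2 / z) / 4 / s1 := by ring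
          rw [e11, e10]
          ring
        have e5 : z ^ 2 / 2 / s1 ≤ k := by
          rw [div_le_iff₀ hs10, hk]
          nlinarith [pow_pos hz0 2]
        linarith
      have h4 : ψ' s1 ≤ (k - D / 4 / s1) * ψ s1 := by
        refine hlog.trans ?_
        gcongr
      have h5 : 0 ≤ (k - D / 4 / s1) * ψ s1 - ψ' s1 := by linarith
      positivity))
    (s := s2) ⟨hs12.le, le_rfl⟩ hs20
  have ew2 : w s2 = 0 := by
    rw [hw]
    simp only [hks2]
    rw [show 3 / 4 * Real.pi + Real.pi / 4 = Real.pi by ring, Real.sin_pi]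
  have ew2' : w' s2 = -k := by
    rw [hw']
    simp only [hks2]
    rw [show 3 / 4 * Real.pi + Real.pi / 4 = Real.pi by ring, Real.cos_pi]
    ring
  unfold Qw pw pw' at hQ2
  rw [ew2, ew2'] at hQ2
  have h0 := Real.rpow_pos_of_pos hs20 (-(D / 4))
  have h1 := h.pos s2 ⟨hs20.le, hs21⟩
  have h2 : 0 < ψ s2 * (s2 ^ (-(D / 4)) * k) := by positivity
  have e : -1 * (s2 ^ (-(D / 4)) * 0 * ψ' s2 - ψ s2 * (s2 ^ (-(D / 4)) *
      (-k - D / 4 / s2 * 0))) = -(ψ s2 * (s2 ^ (-(D / 4)) * k)) := by ring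
  rw [e] at hQ2
  linarith

end

end Pool.Agent.Lib.H38.Tor
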