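import Mathlib
import Pool.Agent.Lib.H38.Tor2.MuSharp

set_option autoImplicit false

/-!
# Two-sided bounds of the right order for the mass of the first eigenfunction
-/

namespace Pool.Agent.Lib.H38.Tor

open MeasureTheory Set Filter Topology

section
variable {n : ℕ} {μ : ℝ} {ψ ψ' ψ'' : ℝ → ℝ}

lemma ch_sq (δ s : ℝ) : ch δ s ^ 2 = Real.exp (-((1 - Real.log 2) * δ)) *
      Real.exp (δ * (cc s - Real.log (1 + cc s))) := by
  unfold ch EE
  rw [← Real.exp_nat_mul, ← Real.exp_add]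
  congr 1
  push_cast
  ring

lemma ch_sq_ge {δ : ℝ} (hδ : 0 ≤ δ) (s : ℝ) : Real.exp (-((1 - Real.log 2) * δ)) ≤ ch δ s ^ 2 := by
  rw [ch_sq]
  have h1 := sub_log_nonneg (cc_nonneg s)
  have h2 : 1 ≤ Real.exp (δ * (cc s - Real.log (1 + cc s))) := Real.one_le_exp (by positivity)
  have h3 := Real.exp_pos (-((1 - Real.log 2) * δ))
  nlinarith

/-- Lower bound for the mass. -/
theorem Eig.Mr_ge_sharp (h : Eig n μ ψ ψ' ψ'') {z : ℝ} (hz : 6 ≤ z) (hzd : z ^ 3 = (n : ℝ) + 1) :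
    Real.exp (-((1 - Real.log 2) * z ^ 3) - 26 / 5 * z) ≤ Mr n ψ := by
  have hμ := h.mu_le_sharp hz hzd
  have hz0 : 0 < z := by linarith
  set D : ℝ := z ^ 3 with hD
  have hD0 : 0 < D := by positivity
  set θ : ℝ := 1 + 52 / 5 / z ^ 2 with hθ
  have hθ0 : 0 < θ := by positivity
  have hθ1 : 1 < θ := by
    have : 0 < 52 / 5 / z ^ 2 := by positivity
    linarith
  have hθμ : μ ≤ θ * (D ^ 2 / 4) := by
    refine hμ.trans (le_of_eq ?_)
    rw [hθ, hD]
    field_simp
    ring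
  set s1 : ℝ := 1 / θ with hs1
  have hs10 : 0 < s1 := by positivity
  have hs11 : s1 < 1 := by rw [hs1, div_lt_one hθ0]; exact hθ1
  have hlt : ∀ s ∈ Ioo (0 : ℝ) s1, θ * s < 1 := by
    intro s hs
    have := hs.2
    rw [hs1, lt_div_iff₀ hθ0] at this
    linarith
  have cφ : ContinuousOn (fun s => ch D (θ * s)) (Icc 0 s1) :=
    ((ch_cont D).comp (by fun_prop)).continuousOn
  have hQ : ∀ s ∈ Ioo (0 : ℝ) s1, 0 ≤ 1 * Qw ψ ψ' (fun s => ch D (θ * s))
      (fun s => θ * ch' D (θ * s)) s := by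
    intro s hs
    exact h.wr_piece (a := 0) (b := s1) (σ := 1) le_rfl hs11.le
      (φ := fun s => ch D (θ * s)) (φ' := fun s => θ * ch' D (θ * s))
      (φ'' := fun s => θ ^ 2 * ch'' D (θ * s)) (V := fun s => θ * Vch D D (θ * s))
      (fun s hs => sc_der D θ (hlt s hs)) (fun s hs => sc'_der D θ (hlt s hs)) cφ
      (continuous_const.mul ((ch'_cont D).comp (by fun_prop))).continuousOn
      (fun s hs => by rw [← hzd]; exact sc_ode D D θ (hlt s hs))
      (fun s _ => (ch_pos D _).le)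
      (fun s hs => by
        rw [one_mul, Vch_self D (hlt s hs)]
        have hc := cc_pos (hlt s hs)
        have hc1 := cc_le_one (mul_pos hθ0 hs.1).le
        have : 0 ≤ (1 - cc (θ * s)) * D / (2 * cc (θ * s) * (1 + cc (θ * s))) := by
          have : 0 ≤ 1 - cc (θ * s) := by linarith
          positivity
        have h2 : θ * (D ^ 2 / 4) ≤
          θ * (D ^ 2 / 4 + (1 - cc (θ * s)) * D / (2 * cc (θ * s) * (1 + cc (θ * s)))) := by
          gcongr
          linarith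
        linarith)
      (Or.inl rfl) (s := s) (Ioo_subset_Icc_self hs) hs.1
  have hlow : ∀ s ∈ Icc (0 : ℝ) s1, ψ 0 * ch D (θ * s) ≤ ψ s := by
    intro s hs
    have := h.quot_piece (a := 0) (b := s1) (σ := 1) (φ := fun s => ch D (θ * s))
      (φ' := fun s => θ * ch' D (θ * s)) (fun s hs => sc_der D θ (hlt s hs)) cφ
      (fun s _ => ch_pos D _) hQ hs
    simp only [one_mul, mul_zero, ch_zero, mul_one] at this
    exact this
  have hψ0 := h.psi0
  have cψ := h.cont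
  set r1 : ℝ := √s1 with hr1
  have hr10 : 0 < r1 := Real.sqrt_pos.2 hs10
  have hr1sq : r1 ^ 2 = s1 := Real.sq_sqrt hs10.le
  have hr11 : r1 ≤ 1 := Real.sqrt_le_one.2 hs11.le
  set K := Real.exp (-((1 - Real.log 2) * D)) with hK
  have hK0 : 0 < K := Real.exp_pos _
  -- the radius
  have hrad : Real.exp (-(26 / 5 * z)) ≤ r1 ^ (n + 1) := by
    have e1 : Real.exp (-(26 / 5 / z ^ 2)) ≤ r1 := by
      rw [hr1]
      apply Real.le_sqrt_of_sq_le
      rw [← Real.exp_nat_mul, hs1, le_div_iff₀ hθ0]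
      have e2 : θ ≤ Real.exp (52 / 5 / z ^ 2) := by
        have := Real.add_one_le_exp (52 / 5 / z ^ 2)
        rw [hθ]
        linarith
      calc Real.exp (((2 : ℕ) : ℝ) * -(26 / 5 / z ^ 2)) * θ ≤
          Real.exp (((2 : ℕ) : ℝ) * -(26 / 5 / z ^ 2)) * Real.exp (52 / 5 / z ^ 2) := by gcongr
        _ = 1 := by
          rw [← Real.exp_add, ← Real.exp_zero]
          congr 1
          push_cast
          ring
    calc Real.exp (-(26 / 5 * z)) = Real.exp (-(26 / 5 / z ^ 2)) ^ (n + 1) := by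
          rw [← Real.exp_nat_mul]
          congr 1
          push_cast
          rw [← hzd, hD]
          field_simp
      _ ≤ r1 ^ (n + 1) := by gcongr
  -- the integral
  have hint : ψ 0 ^ 2 * K * r1 ^ (n + 1) ≤
      ∫ ρ in (0 : ℝ)..1, ((n : ℝ) + 1) * (ρ ^ n * ψ (ρ ^ 2) ^ 2) := by
    have ii : ∀ a b : ℝ, IntervalIntegrable
        (fun ρ : ℝ => ((n : ℝ) + 1) * (ρ ^ n * ψ (ρ ^ 2) ^ 2)) volume a b := by
      intro a b
      apply Continuous.intervalIntegrable
      fun_prop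
    rw [← intervalIntegral.integral_add_adjacent_intervals (ii 0 r1) (ii r1 1)]
    have h1 : 0 ≤ ∫ ρ in r1..1, ((n : ℝ) + 1) * (ρ ^ n * ψ (ρ ^ 2) ^ 2) := by
      refine intervalIntegral.integral_nonneg hr11 (fun ρ hρ => ?_)
      have : 0 ≤ ρ := hr10.le.trans hρ.1
      positivity
    have h2 : ∫ ρ in (0 : ℝ)..r1, (ψ 0 ^ 2 * K) * (((n : ℝ) + 1) * ρ ^ n) ≤
        ∫ ρ in (0 : ℝ)..r1, ((n : ℝ) + 1) * (ρ ^ n * ψ (ρ ^ 2) ^ 2) := by
      refine intervalIntegral.integral_mono_on hr10.le ?_ (ii 0 r1) (fun ρ hρ => ?_)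
      · apply Continuous.intervalIntegrable
        fun_prop
      · have hρ2 : ρ ^ 2 ∈ Icc (0 : ℝ) s1 := by
          refine ⟨by positivity, ?_⟩
          rw [← hr1sq]
          exact pow_le_pow_left₀ hρ.1 hρ.2 2
        have e1 := hlow _ hρ2
        have e2 : (ψ 0 * ch D (θ * ρ ^ 2)) ^ 2 ≤ ψ (ρ ^ 2) ^ 2 :=
          pow_le_pow_left₀ (mul_nonneg hψ0.le (ch_pos _ _).le) e1 2
        have e3 := ch_sq_ge hD0.le (θ * ρ ^ 2)
        have e4 : 0 ≤ ρ ^ n := pow_nonneg hρ.1 n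
        have e5 : ψ 0 ^ 2 * K ≤ ψ (ρ ^ 2) ^ 2 := by
          calc ψ 0 ^ 2 * K ≤ ψ 0 ^ 2 * ch D (θ * ρ ^ 2) ^ 2 := by gcongr
            _ = (ψ 0 * ch D (θ * ρ ^ 2)) ^ 2 := by ring
            _ ≤ _ := e2
        calc (ψ 0 ^ 2 * K) * (((n : ℝ) + 1) * ρ ^ n) ≤
            ψ (ρ ^ 2) ^ 2 * (((n : ℝ) + 1) * ρ ^ n) := by gcongr
          _ = _ := by ring
    have h3 : ∫ ρ in (0 : ℝ)..r1, (ψ 0 ^ 2 * K) * (((n : ℝ) + 1) * ρ ^ n) =
        ψ 0 ^ 2 * K * r1 ^ (n + 1) := by
      rw [intervalIntegral.integral_const_mul, intervalIntegral.integral_const_mul, integral_pow]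
      rw [zero_pow (Nat.succ_ne_zero n)]
      field_simp
      ring
    linarith
  unfold Mr
  rw [le_div_iff₀ (by positivity)]
  have e : Real.exp (-((1 - Real.log 2) * D) - 26 / 5 * z) = K * Real.exp (-(26 / 5 * z)) := by
    rw [sub_eq_add_neg, Real.exp_add]
  rw [e]
  calc K * Real.exp (-(26 / 5 * z)) * ψ 0 ^ 2 ≤ K * r1 ^ (n + 1) * ψ 0 ^ 2 := by gcongr
    _ = ψ 0 ^ 2 * K * r1 ^ (n + 1) := by ring
    _ ≤ _ := hint

/-- Upper bound for the mass. -/
theorem Eig.Mr_le_sharp (h : Eig n μ ψ ψ' ψ'') {z : ℝ} (hz : 6 ≤ z) (hzd : z ^ 3 = (n : ℝ) + 1) :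
    Mr n ψ ≤ z ^ 3 * Real.exp (-((1 - Real.log 2) * z ^ 3) - z + 8) := by
  have hμ := h.mu_ge_sharp hz hzd
  have hz0 : 0 < z := by linarith
  set D : ℝ := z ^ 3 with hD
  have hD0 : 0 < D := by positivity
  set θ : ℝ := 1 + 2 / z ^ 2 with hθ
  have hθ0 : 0 < θ := by positivity
  have hz2 : 0 < 2 / z ^ 2 := by positivity
  have hθ1 : 1 < θ := by linarith
  have hz36 : 4 / z ^ 2 ≤ 1 / 9 := by
    rw [div_le_div_iff₀ (by positivity) (by norm_num)]
    nlinarith
  have hz4 : 0 < 4 / z ^ 2 := by positivity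
  set s0 : ℝ := (1 - 4 / z ^ 2) / θ with hs0
  have hs00 : 0 < s0 := div_pos (by linarith) hθ0
  have hθs0 : θ * s0 = 1 - 4 / z ^ 2 := by rw [hs0]; field_simp
  have hs01 : s0 < 1 := by
    rw [hs0, div_lt_one hθ0]
    linarith
  have hcs : cc (θ * s0) = 2 / z := by
    unfold cc
    rw [hθs0, sub_sub_cancel, show (4 : ℝ) / z ^ 2 = (2 / z) ^ 2 by rw [div_pow]; norm_num]
    exact Real.sqrt_sq (by positivity)
  have hlt : ∀ s ∈ Icc (0 : ℝ) s0, θ * s < 1 := by
    intro s hs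
    have : θ * s ≤ θ * s0 := by
      have := hs.2
      gcongr
    rw [hθs0] at this
    linarith
  have hψs0 : 0 < ψ s0 := h.pos s0 ⟨hs00.le, hs01⟩
  have hψ0 := h.psi0
  have cψ := h.cont
  have cφ : ContinuousOn (fun s => ch D (θ * s)) (Icc 0 s0) :=
    ((ch_cont D).comp (by fun_prop)).continuousOn
  -- first piece
  have hQ : ∀ s ∈ Ioc (0 : ℝ) s0, 0 ≤ -1 * Qw ψ ψ' (fun s => ch D (θ * s))
      (fun s => θ * ch' D (θ * s)) s := by
    intro s hs
    exact h.wr_piece (a := 0) (b := s0) (σ := -1) le_rfl hs01.le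
      (φ := fun s => ch D (θ * s)) (φ' := fun s => θ * ch' D (θ * s))
      (φ'' := fun s => θ ^ 2 * ch'' D (θ * s)) (V := fun s => θ * Vch D D (θ * s))
      (fun s hs => sc_der D θ (hlt s (Ioo_subset_Icc_self hs)))
      (fun s hs => sc'_der D θ (hlt s (Ioo_subset_Icc_self hs))) cφ
      (continuous_const.mul ((ch'_cont D).comp (by fun_prop))).continuousOn
      (fun s hs => by rw [← hzd]; exact sc_ode D D θ (hlt s (Ioo_subset_Icc_self hs)))
      (fun s _ => (ch_pos D _).le)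
      (fun s hs => by
        have hlt' := hlt s (Ioo_subset_Icc_self hs)
        rw [Vch_self D hlt']
        have hc := cc_pos hlt'
        have hc1 := cc_le_one (mul_pos hθ0 hs.1).le
        have hcz : 2 / z ≤ cc (θ * s) := by
          rw [← hcs]
          unfold cc
          refine Real.sqrt_le_sqrt ?_
          have : θ * s ≤ θ * s0 := by
            have := hs.2.le
            gcongr
          linarith
        set c := cc (θ * s) with hcdef
        have e2 : 2 ≤ z * c := by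
          rw [div_le_iff₀ hz0] at hcz
          linarith
        have e3 : θ * (1 - c) ≤ 1 + c := by
          have e4 : 2 / z ^ 2 ≤ 2 / z := by
            rw [div_le_div_iff₀ (by positivity) hz0]
            nlinarith
          have e5 : 0 ≤ 1 - c := by linarith
          have e6 : 2 / z ^ 2 * (1 - c) ≤ 2 / z ^ 2 := by nlinarith
          rw [hθ]
          nlinarith
        have e1 : θ * ((1 - c) * D / (2 * c * (1 + c))) ≤ z ^ 4 / 4 := by
          rw [← mul_div_assoc, div_le_div_iff₀ (by positivity) (by norm_num), hD]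
          calc θ * ((1 - c) * z ^ 3) * 4 = (θ * (1 - c)) * z ^ 3 * 4 := by ring
            _ ≤ (1 + c) * z ^ 3 * 4 := by gcongr
            _ = 2 * (2 * (1 + c) * z ^ 3) := by ring
            _ ≤ (z * c) * (2 * (1 + c) * z ^ 3) := by gcongr
            _ = z ^ 4 * (2 * c * (1 + c)) := by ring
        have e7 : θ * (D ^ 2 / 4) = D ^ 2 / 4 + z ^ 4 / 2 := by
          rw [hθ, hD]
          field_simp
          ring
        have e8 : (1 + 3 / z ^ 2) * (D ^ 2 / 4) = D ^ 2 / 4 + 3 * z ^ 4 / 4 := by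
          rw [hD]
          field_simp
        rw [e8] at hμ
        have e9 : θ * (D ^ 2 / 4 + (1 - c) * D / (2 * c * (1 + c))) =
            θ * (D ^ 2 / 4) + θ * ((1 - c) * D / (2 * c * (1 + c))) := by ring
        rw [e9, e7]
        linarith)
      (Or.inl rfl) (s := s) ⟨hs.1.le, hs.2⟩ hs.1
  have hup : ∀ s ∈ Icc (0 : ℝ) s0, ψ s ≤ ψ 0 * ch D (θ * s) := by
    intro s hs
    have := h.quot_piece (a := 0) (b := s0) (σ := -1) (φ := fun s => ch D (θ * s))
      (φ' := fun s => θ * ch' D (θ * s))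
      (fun s hs => sc_der D θ (hlt s (Ioo_subset_Icc_self hs))) cφ
      (fun s _ => ch_pos D _) (fun s hs => hQ s ⟨hs.1, hs.2.le⟩) hs
    simp only [mul_zero, ch_zero, mul_one] at this
    linarith
  have hlog : ψ' s0 ≤ -(θ * (D / (4 * (1 + 2 / z)))) * ψ s0 := by
    have hQ1 := hQ s0 ⟨hs00, le_rfl⟩
    unfold Qw ch' at hQ1
    simp only [hcs] at hQ1
    have e : -1 * (ch D (θ * s0) * ψ' s0 - ψ s0 * (θ * (-(D / (4 * (1 + 2 / z))) * ch D (θ * s0)))) =
        ch D (θ * s0) * (-(θ * (D / (4 * (1 + 2 / z)))) * ψ s0 - ψ' s0) := by ring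
    rw [e] at hQ1
    have := nonneg_of_mul_nonneg_right hQ1 (ch_pos D (θ * s0))
    linarith
  -- second piece
  set L : ℝ := z ^ 2 / 2 / s0 with hL
  have hL0 : 0 < L := by positivity
  set w : ℝ → ℝ := fun s => Real.exp (L * (s - s0)) with hw
  set w' : ℝ → ℝ := fun s => L * Real.exp (L * (s - s0)) with hw'
  have hlin : ∀ s : ℝ, HasDerivAt (fun s : ℝ => L * (s - s0)) L s := by
    intro s
    simpa using ((hasDerivAt_id s).sub_const s0).const_mul L
  have hwd : ∀ s : ℝ, HasDerivAt w (w' s) s := by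
    intro s
    refine (hlin s).exp.congr_deriv ?_
    rw [hw']
    ring
  have hwd' : ∀ s : ℝ, HasDerivAt w' (L ^ 2 * w s) s := by
    intro s
    refine ((hlin s).exp.const_mul L).congr_deriv ?_
    rw [hw]
    ring
  have hwc : Continuous w := by rw [hw]; fun_prop
  have hwc' : Continuous w' := by rw [hw']; fun_prop
  have hinit : 0 ≤ -1 * Qw ψ ψ' (pw (D / 4) w) (pw' (D / 4) w w') s0 := by
    unfold Qw pw pw'
    have ew : w s0 = 1 := by
      rw [hw]
      simp
    have ew' : w' s0 = L := by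
      rw [hw']
      simp
    rw [ew, ew']
    have e2 : -1 * (s0 ^ (-(D / 4)) * 1 * ψ' s0 - ψ s0 * (s0 ^ (-(D / 4)) *
        (L - D / 4 / s0 * 1))) =
        s0 ^ (-(D / 4)) * ((L - D / 4 / s0) * ψ s0 - ψ' s0) := by
      ring
    rw [e2]
    have h0 := Real.rpow_pos_of_pos hs00 (-(D / 4))
    have h3 : -(θ * (D / (4 * (1 + 2 / z)))) = L - D / 4 / s0 := by
      have hz1 : 0 < 1 - 2 / z := by
        have : 2 / z ≤ 1 / 3 := by
          rw [div_le_div_iff₀ hz0 (by norm_num)]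
          linarith
        linarith
      have e3 : s0 * θ = (1 - 2 / z) * (1 + 2 / z) := by
        rw [mul_comm, hθs0]
        field_simp
        ring
      have e8 : θ / (1 + 2 / z) = (1 - 2 / z) / s0 := by
        rw [div_eq_div_iff (by positivity) hs00.ne']
        linarith
      have e9 : θ * (D / (4 * (1 + 2 / z))) = D / 4 * (θ / (1 + 2 / z)) := by
        field_simp
      have e10 : D * (2 / z) = 2 * z ^ 2 := by
        rw [hD]
        field_simp
      rw [e9, e8, hL]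
      have e11 : -(D / 4 * ((1 - 2 / z) / s0)) = D * (2 / z) / 4 / s0 - D / 4 / s0 := by ring
      rw [e11, e10]
      ring
    have h5 : 0 ≤ (L - D / 4 / s0) * ψ s0 - ψ' s0 := by
      rw [← h3]
      linarith
    positivity
  have hQ2 : ∀ s ∈ Ioo s0 1, 0 ≤ -1 * Qw ψ ψ' (pw (D / 4) w) (pw' (D / 4) w w') s := by
    intro s hs
    exact h.wr_piece (a := s0) (b := 1) (σ := -1) hs00.le le_rfl
      (φ := pw (D / 4) w) (φ' := pw' (D / 4) w w') (φ'' := pw'' (D / 4) (L ^ 2) w w')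
      (V := fun s => -(4 * s * L ^ 2) + (D ^ 2 / 4 - D) / s)
      (fun s hs => pw_der (hs00.trans hs.1) (hwd s))
      (fun s hs => pw'_der (hs00.trans hs.1) (hwd s) (hwd' s))
      (pw_cont hs00 hwc) (pw'_cont hs00 hwc hwc')
      (fun s hs => by rw [← hzd]; exact pw_ode (hs00.trans hs.1))
      (fun s hs => by
        have hsp := hs00.trans hs.1
        unfold pw
        have := Real.rpow_pos_of_pos hsp (-(D / 4))
        have : 0 < w s := Real.exp_pos _
        positivity)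
      (fun s hs => by
        have hsp := hs00.trans hs.1
        have e1 : (D ^ 2 / 4 - D) / s ≤ D ^ 2 / 4 / s0 := by
          rw [div_le_div_iff₀ hsp hs00]
          have e2 : D ^ 2 / 4 * s0 ≤ D ^ 2 / 4 * s := by
            have := hs.1.le
            gcongr
          nlinarith
        have e3 : 4 * s0 * L ^ 2 ≤ 4 * s * L ^ 2 := by
          have := hs.1.le
          gcongr
        have e4 : D ^ 2 / 4 / s0 - 4 * s0 * L ^ 2 = θ * (D ^ 2 / 4) := by
          have e5 : D ^ 2 / 4 / s0 - 4 * s0 * L ^ 2 = (D ^ 2 / 4) * (1 - 4 / z ^ 2) / s0 := by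
            rw [hL, hD]
            field_simp
            ring
          rw [e5, ← hθs0]
          field_simp
        have e6 : θ * (D ^ 2 / 4) ≤ (1 + 3 / z ^ 2) * (D ^ 2 / 4) := by
          rw [hθ]
          gcongr
          norm_num
        linarith)
      (Or.inr hinit) (s := s) (Ioo_subset_Icc_self hs) (hs00.trans hs.1)
  have hLs : L * (1 - s0) ≤ 27 / 8 := by
    have e1 : L * (1 - s0) = 3 / (1 - 4 / z ^ 2) := by
      have e2 : 1 - s0 = 6 / z ^ 2 / θ := by
        rw [eq_div_iff hθ0.ne']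
        have : (1 - s0) * θ = θ - θ * s0 := by ring
        rw [this, hθs0, hθ]
        ring
      have hne : 1 - 4 / z ^ 2 ≠ 0 := by linarith
      rw [e2, hL, ← hθs0]
      field_simp
      norm_num
    rw [e1, div_le_div_iff₀ (by linarith) (by norm_num)]
    linarith
  have hup2 : ∀ s ∈ Icc s0 1, ψ s * s0 ^ (-(D / 4)) ≤
      ψ s0 * (s ^ (-(D / 4)) * Real.exp (27 / 8)) := by
    intro s hs
    have := h.quot_piece (a := s0) (b := 1) (σ := -1) (φ := pw (D / 4) w)
      (φ' := pw' (D / 4) w w')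
      (fun s hs => pw_der (hs00.trans hs.1) (hwd s)) (pw_cont hs00 hwc)
      (fun s hs => mul_pos (Real.rpow_pos_of_pos (hs00.trans_le hs.1) _) (Real.exp_pos _)) hQ2 hs
    unfold pw at this
    have ew : w s0 = 1 := by
      rw [hw]
      simp
    have ew2 : w s ≤ Real.exp (27 / 8) := by
      rw [hw]
      simp only
      rw [Real.exp_le_exp]
      have : L * (s - s0) ≤ L * (1 - s0) := by
        have := hs.2
        gcongr
      linarith
    rw [ew, mul_one] at this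
    have h1 := Real.rpow_pos_of_pos (hs00.trans_le hs.1) (-(D / 4))
    calc ψ s * s0 ^ (-(D / 4)) ≤ ψ s0 * (s ^ (-(D / 4)) * w s) := by linarith
      _ ≤ _ := by gcongr
  -- the first region
  set K : ℝ := Real.exp (-((1 - Real.log 2) * D) - z + 1) with hK
  have hA : ∀ ρ : ℝ, 0 ≤ ρ → ρ ^ 2 ≤ s0 → ρ ^ n * ψ (ρ ^ 2) ^ 2 ≤ ψ 0 ^ 2 * K := by
    intro ρ hρ hρs
    have hmem : ρ ^ 2 ∈ Icc (0 : ℝ) s0 := ⟨by positivity, hρs⟩
    have hψnn : 0 ≤ ψ (ρ ^ 2) := (h.pos _ ⟨hmem.1, hρs.trans_lt hs01⟩).le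
    have h2 : ψ (ρ ^ 2) ^ 2 ≤ ψ 0 ^ 2 * ch D (θ * ρ ^ 2) ^ 2 := by
      rw [← mul_pow]
      exact pow_le_pow_left₀ hψnn (hup _ hmem) 2
    have hsqθ : √θ ^ 2 = θ := Real.sq_sqrt hθ0.le
    have hsθ0 : 0 < √θ := Real.sqrt_pos.2 hθ0
    have hρ' : (√θ * ρ) ^ 2 = θ * ρ ^ 2 := by rw [mul_pow, hsqθ]
    have hρ'1 : √θ * ρ ≤ 1 := by
      have := (hlt _ hmem).le
      rw [← hρ'] at this
      exact (sq_le_one_iff₀ (by positivity)).1 this
    have h3 := rho_le (ρ := √θ * ρ) (by positivity) hρ'1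
    rw [hρ'] at h3
    set c := cc (θ * ρ ^ 2) with hc
    have hc0 : 0 ≤ c := cc_nonneg _
    have hc1 : c ≤ 1 := cc_le_one (by positivity)
    have h4 : √θ ^ n * ρ ^ n ≤ Real.exp (-((n : ℝ) * (c - Real.log (1 + c)))) := by
      rw [← mul_pow]
      refine (pow_le_pow_left₀ (by positivity) h3 n).trans ?_
      rw [← Real.exp_nat_mul]
      exact le_of_eq (by congr 1; ring)
    have h5 : Real.exp (z - 1 / 2) ≤ √θ ^ n := by
      have e1 : Real.exp (1 / (z ^ 2 + 2)) ≤ √θ := by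
        apply Real.le_sqrt_of_sq_le
        rw [← Real.exp_nat_mul, ← Real.le_log_iff_exp_le hθ0]
        refine le_trans (le_of_eq ?_) (Real.one_sub_inv_le_log_of_pos hθ0)
        rw [hθ]
        push_cast
        field_simp
        ring
      calc Real.exp (z - 1 / 2) ≤ Real.exp ((n : ℝ) * (1 / (z ^ 2 + 2))) := by
            rw [Real.exp_le_exp, mul_one_div, le_div_iff₀ (by positivity)]
            have : (n : ℝ) = z ^ 3 - 1 := by linarith
            rw [this]
            nlinarith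
        _ = Real.exp (1 / (z ^ 2 + 2)) ^ n := by rw [← Real.exp_nat_mul]
        _ ≤ _ := by gcongr
    have h6 : ρ ^ n ≤ Real.exp (-((n : ℝ) * (c - Real.log (1 + c)))) * Real.exp (-(z - 1 / 2)) := by
      have e1 : Real.exp (z - 1 / 2) * ρ ^ n ≤
          Real.exp (-((n : ℝ) * (c - Real.log (1 + c)))) := by
        refine le_trans ?_ h4
        have : 0 ≤ ρ ^ n := by positivity
        gcongr
      calc ρ ^ n = Real.exp (z - 1 / 2) * ρ ^ n * Real.exp (-(z - 1 / 2)) := by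
            rw [mul_right_comm, ← Real.exp_add, add_neg_cancel, Real.exp_zero, one_mul]
        _ ≤ _ := by gcongr
    have h7 : c - Real.log (1 + c) ≤ 1 / 2 := by
      have := sub_log_le hc0
      nlinarith
    calc ρ ^ n * ψ (ρ ^ 2) ^ 2 ≤
        (Real.exp (-((n : ℝ) * (c - Real.log (1 + c)))) * Real.exp (-(z - 1 / 2))) *
          (ψ 0 ^ 2 * ch D (θ * ρ ^ 2) ^ 2) := by gcongr
      _ = ψ 0 ^ 2 * Real.exp (-((n : ℝ) * (c - Real.log (1 + c))) + (-(z - 1 / 2)) +
          (-((1 - Real.log 2) * D)) + D * (c - Real.log (1 + c))) := by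
          rw [ch_sq, ← hc, Real.exp_add, Real.exp_add, Real.exp_add]
          ring
      _ ≤ ψ 0 ^ 2 * K := by
          rw [hK]
          have e1 : -((n : ℝ) * (c - Real.log (1 + c))) + (-(z - 1 / 2)) +
              (-((1 - Real.log 2) * D)) + D * (c - Real.log (1 + c)) ≤
              -((1 - Real.log 2) * D) - z + 1 := by
            have e2 : (n : ℝ) = D - 1 := by linarith
            rw [e2]
            nlinarith
          gcongr
  -- pointwise bound
  have hpt : ∀ ρ ∈ Icc (0 : ℝ) 1, ρ ^ n * ψ (ρ ^ 2) ^ 2 ≤ ψ 0 ^ 2 * K * Real.exp (27 / 4) := by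
    intro ρ hρ
    have hρ2 : ρ ^ 2 ∈ Icc (0 : ℝ) 1 := ⟨by positivity, by nlinarith [hρ.1, hρ.2]⟩
    have hK0 : 0 < K := Real.exp_pos _
    have hexp1 : 1 ≤ Real.exp (27 / 4) := Real.one_le_exp (by norm_num)
    rcases le_total (ρ ^ 2) s0 with hcase | hcase
    · refine (hA ρ hρ.1 hcase).trans ?_
      have : 0 ≤ ψ 0 ^ 2 * K := by positivity
      nlinarith
    · have hρpos : 0 < ρ := by
        rcases hρ.1.eq_or_lt with h1 | h1
        · rw [← h1] at hcase
          norm_num at hcase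
          linarith
        · exact h1
      have hψnn : 0 ≤ ψ (ρ ^ 2) := by
        rcases hρ2.2.eq_or_lt with h1 | h1
        · rw [h1, h.one]
        · exact (h.pos _ ⟨hρ2.1, h1⟩).le
      set r0 : ℝ := √s0 with hr0
      have hr00 : 0 < r0 := Real.sqrt_pos.2 hs00
      have hr0sq : r0 ^ 2 = s0 := Real.sq_sqrt hs00.le
      have hr0ρ : r0 ≤ ρ := by
        rw [hr0]
        exact Real.sqrt_le_iff.2 ⟨hρ.1, hcase⟩
      have h1 := hup2 _ ⟨hcase, hρ2.2⟩
      have ep1 : (s0 ^ (-(D / 4))) ^ 2 * r0 ^ (n + 1) = 1 := by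
        rw [← hr0sq, ← Real.rpow_natCast, ← Real.rpow_natCast, ← Real.rpow_natCast,
          ← Real.rpow_mul hr00.le, ← Real.rpow_mul hr00.le, ← Real.rpow_add hr00]
        push_cast
        rw [← hzd]
        rw [show (2 : ℝ) * -(D / 4) * 2 + D = 0 by ring, Real.rpow_zero]
      have ep2 : ((ρ ^ 2) ^ (-(D / 4))) ^ 2 * ρ ^ (n + 1) = 1 := by
        rw [← Real.rpow_natCast, ← Real.rpow_natCast, ← Real.rpow_natCast, ← Real.rpow_mul hρ.1,
          ← Real.rpow_mul hρ.1, ← Real.rpow_add hρpos]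
        push_cast
        rw [← hzd]
        rw [show (2 : ℝ) * -(D / 4) * 2 + D = 0 by ring, Real.rpow_zero]
      have h2 : ψ (ρ ^ 2) ^ 2 * (s0 ^ (-(D / 4))) ^ 2 ≤
          ψ s0 ^ 2 * (((ρ ^ 2) ^ (-(D / 4))) ^ 2 * Real.exp (27 / 4)) := by
        have e1 : Real.exp (27 / 4) = Real.exp (27 / 8) ^ 2 := by
          rw [← Real.exp_nat_mul]
          norm_num
        rw [e1, ← mul_pow, ← mul_pow, ← mul_pow]
        have hs0p := Real.rpow_pos_of_pos hs00 (-(D / 4))
        exact pow_le_pow_left₀ (by positivity) h1 2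
      have h3 := hA r0 hr00.le hr0sq.le
      rw [hr0sq] at h3
      have h4 : ρ ^ n * ψ (ρ ^ 2) ^ 2 * ρ ≤ r0 ^ n * ψ s0 ^ 2 * Real.exp (27 / 4) * r0 := by
        calc ρ ^ n * ψ (ρ ^ 2) ^ 2 * ρ = ρ ^ (n + 1) * ψ (ρ ^ 2) ^ 2 *
              ((s0 ^ (-(D / 4))) ^ 2 * r0 ^ (n + 1)) := by rw [ep1]; ring
          _ = ρ ^ (n + 1) * r0 ^ (n + 1) * (ψ (ρ ^ 2) ^ 2 * (s0 ^ (-(D / 4))) ^ 2) := by ring
          _ ≤ ρ ^ (n + 1) * r0 ^ (n + 1) *
              (ψ s0 ^ 2 * (((ρ ^ 2) ^ (-(D / 4))) ^ 2 * Real.exp (27 / 4))) := by gcongr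
          _ = r0 ^ (n + 1) * ψ s0 ^ 2 * Real.exp (27 / 4) *
              (((ρ ^ 2) ^ (-(D / 4))) ^ 2 * ρ ^ (n + 1)) := by ring
          _ = _ := by rw [ep2]; ring
      have h5 : r0 ^ n * ψ s0 ^ 2 * Real.exp (27 / 4) * r0 ≤
          r0 ^ n * ψ s0 ^ 2 * Real.exp (27 / 4) * ρ := by gcongr
      have h6 : ρ ^ n * ψ (ρ ^ 2) ^ 2 ≤ r0 ^ n * ψ s0 ^ 2 * Real.exp (27 / 4) :=
        le_of_mul_le_mul_right (h4.trans h5) hρpos
      refine h6.trans ?_
      gcongr
  have hint : (∫ ρ in (0 : ℝ)..1, ((n : ℝ) + 1) * (ρ ^ n * ψ (ρ ^ 2) ^ 2)) ≤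
      ∫ ρ in (0 : ℝ)..1, D * (ψ 0 ^ 2 * K * Real.exp (27 / 4)) := by
    refine intervalIntegral.integral_mono_on zero_le_one ?_ ?_ (fun ρ hρ => ?_)
    · apply Continuous.intervalIntegrable
      fun_prop
    · exact intervalIntegrable_const
    · have := hpt ρ hρ
      rw [hzd]
      gcongr
  rw [intervalIntegral.integral_const] at hint
  unfold Mr
  rw [div_le_iff₀ (by positivity)]
  refine hint.trans ?_
  simp only [sub_zero, one_smul]
  have e1 : K * Real.exp (27 / 4) ≤ Real.exp (-((1 - Real.log 2) * D) - z + 8) := by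
    rw [hK, ← Real.exp_add, Real.exp_le_exp]
    linarith
  calc D * (ψ 0 ^ 2 * K * Real.exp (27 / 4)) = D * ψ 0 ^ 2 * (K * Real.exp (27 / 4)) := by ring
    _ ≤ D * ψ 0 ^ 2 * Real.exp (-((1 - Real.log 2) * D) - z + 8) := by gcongr
    _ = _ := by ring

end

end Pool.Agent.Lib.H38.Tor
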