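import Mathlib
import Pool.Agent.Lib.H38.Tor2.MrSharp
import Pool.Agent.Lib.H38.Tor2.HoleFinal

set_option autoImplicit false

/-!
# Two-sided bounds for the optimal threshold, with a second term of the right order
-/

namespace Pool.Agent.Lib.H38.Tor

open MeasureTheory Set Filter Topology

lemma half_e_pow (d : ℕ) : (Real.exp 1 / 2) ^ d = Real.exp ((1 - Real.log 2) * d) := by
  have h : Real.exp 1 / 2 = Real.exp (1 - Real.log 2) := by
    rw [Real.exp_sub, Real.exp_log two_pos]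
  rw [h, ← Real.exp_nat_mul]
  congr 1
  ring

lemma osl2_pos : 0 < 1 - Real.log 2 := by
  have := Real.log_two_lt_d9
  linarith

/-- explicit lower bound -/
noncomputable def low2 (d : ℕ) : ℝ :=
  (Real.exp 1 / 2) ^ d * Real.exp ((d : ℝ) ^ ((1 : ℝ) / 3) - 8) / (d : ℝ) ^ 3

/-- explicit upper bound -/
noncomputable def upp2 (d : ℕ) : ℝ :=
  (Real.exp 1 / 2) ^ d * Real.exp (27 / 5 * (d : ℝ) ^ ((1 : ℝ) / 3))

lemma cube_root {d : ℕ} (hd : 216 ≤ d) :
    6 ≤ (d : ℝ) ^ ((1 : ℝ) / 3) ∧ ((d : ℝ) ^ ((1 : ℝ) / 3)) ^ 3 = d := by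
  have hd' : (216 : ℝ) ≤ d := by exact_mod_cast hd
  have h3 : ((d : ℝ) ^ ((1 : ℝ) / 3)) ^ 3 = d := by
    rw [← Real.rpow_natCast, ← Real.rpow_mul (by linarith)]
    norm_num
  refine ⟨?_, h3⟩
  by_contra hcon
  push Not at hcon
  have h0 : 0 ≤ (d : ℝ) ^ ((1 : ℝ) / 3) := by positivity
  have : ((d : ℝ) ^ ((1 : ℝ) / 3)) ^ 3 < 6 ^ 3 := by gcongr
  rw [h3] at this
  norm_num at this
  linarith

/-- Above the threshold the ball is optimal. -/
theorem growth_upper2 {d : ℕ} (hd : 216 ≤ d) {q : ℝ} (hq : upp2 d ≤ q)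
    {Ω : Set (E d)} (hΩ : IsOpen Ω) (hvol : volume Ω = volume (Metric.ball (0 : E d) 1)) :
      sInf (RaySet Ω) * (sSup (TorSet Ω)) ^ q ≤
        sInf (RaySet (Metric.ball (0 : E d) 1)) *
          (sSup (TorSet (Metric.ball (0 : E d) 1))) ^ q := by
  obtain ⟨hz, hz3⟩ := cube_root hd
  unfold upp2 at hq
  rw [half_e_pow] at hq
  set z : ℝ := (d : ℝ) ^ ((1 : ℝ) / 3) with hzdef
  obtain ⟨n, rfl⟩ : ∃ n, d = n + 1 := ⟨d - 1, by omega⟩
  obtain ⟨μ, ψ, ψ', ψ'', h⟩ := exists_eig n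
  refine h.unit_case ?_ hΩ hvol
  have hM := h.Mr_pos
  have hge := h.Mr_ge_sharp hz (by rw [hz3]; push_cast; ring)
  rw [hz3] at hge
  refine le_trans ?_ hq
  set D : ℝ := ((n + 1 : ℕ) : ℝ) with hD
  have hD0 : 0 ≤ D := by rw [hD]; positivity
  set Y := Real.exp ((1 - Real.log 2) * D + 26 / 5 * z) with hY
  have hY1 : 1 ≤ Y := Real.one_le_exp (by have := osl2_pos; positivity)
  have hYi : Real.exp (-((1 - Real.log 2) * D) - 26 / 5 * z) = 1 / Y := by
    rw [hY, one_div, ← Real.exp_neg]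
    congr 1
    ring
  rw [hYi] at hge
  have hY0 : 0 < Y := by linarith
  have h1 : 1 / Mr n ψ ≤ Y := by
    rw [div_le_iff₀ hM]
    rw [div_le_iff₀ hY0] at hge
    linarith
  have h2 : (19 : ℝ) / 9 ≤ Real.exp (1 / 5 * z) := by
    have := Real.add_one_le_exp (1 / 5 * z)
    linarith
  calc 1 + 10 / 9 * (1 / Mr n ψ) ≤ Y + 10 / 9 * Y := by gcongr
    _ = 19 / 9 * Y := by ring
    _ ≤ Real.exp (1 / 5 * z) * Y := by gcongr
    _ = Real.exp ((1 - Real.log 2) * D) * Real.exp (27 / 5 * z) := by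
      rw [hY, ← Real.exp_add, ← Real.exp_add]
      congr 1
      ring

/-- Below the threshold the ball is not optimal. -/
theorem growth_lower2 {d : ℕ} (hd : 216 ≤ d) {q : ℝ} (hq1 : 1 ≤ q) (hq : q ≤ low2 d) :
    ∃ Ω : Set (E d), IsOpen Ω ∧ Ω.Nonempty ∧ volume Ω < ⊤ ∧
      sInf (RaySet (Metric.ball (0 : E d) 1)) *
          (sSup (TorSet (Metric.ball (0 : E d) 1))) ^ q /
          ((volume (Metric.ball (0 : E d) 1)).toReal) ^ ((q * ((d : ℝ) + 2) - 2) / (d : ℝ)) <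
        sInf (RaySet Ω) * (sSup (TorSet Ω)) ^ q /
          ((volume Ω).toReal) ^ ((q * ((d : ℝ) + 2) - 2) / (d : ℝ)) := by
  obtain ⟨hz, hz3⟩ := cube_root hd
  unfold low2 at hq
  rw [half_e_pow] at hq
  set z : ℝ := (d : ℝ) ^ ((1 : ℝ) / 3) with hzdef
  have hd5 : (216 : ℝ) ≤ (d : ℝ) := by exact_mod_cast hd
  obtain ⟨n, rfl⟩ : ∃ n, d = n + 1 := ⟨d - 1, by omega⟩
  obtain ⟨μ, ψ, ψ', ψ'', h⟩ := exists_eig n
  refine h.hole (by omega) hq1 ?_
  have hM := h.Mr_pos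
  have hμ := h.mu
  have hμ2 := h.mu_bounds.2
  have hle := h.Mr_le_sharp hz (by rw [hz3]; push_cast; ring)
  rw [hz3] at hle
  set D : ℝ := ((n + 1 : ℕ) : ℝ) with hD
  have hDn : (n : ℝ) + 1 = D := by rw [hD]; push_cast; ring
  have hD0 : 0 < D := by linarith
  have e3 : (n : ℝ) + 3 = D + 2 := by rw [← hDn]; ring
  have e5 : (n : ℝ) + 5 = D + 4 := by rw [← hDn]; ring
  have e1 : (n : ℝ) - 1 = D - 2 := by rw [← hDn]; ring
  rw [hDn, e5] at hμ2
  rw [e3, e1]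
  set X := Real.exp ((1 - Real.log 2) * D) with hX
  set Y := Real.exp (z - 8) with hY
  have hX0 : 0 < X := Real.exp_pos _
  have hY0 : 0 < Y := Real.exp_pos _
  have hXY : Real.exp (-((1 - Real.log 2) * D) - z + 8) = 1 / (X * Y) := by
    rw [hX, hY, ← Real.exp_add, one_div, ← Real.exp_neg]
    congr 1
    ring
  rw [hXY] at hle
  have hqpos : 0 < q := by linarith
  calc q * (5 * (D + 2) * μ * Mr n ψ) ≤
      (X * Y / D ^ 3) * (5 * (D + 2) * (D * (D + 4) / 2) * (D * (1 / (X * Y)))) := by gcongr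
    _ = 5 * (D + 2) * (D + 4) / (2 * D) := by field_simp
    _ < 16 * (D - 2) := by
      rw [div_lt_iff₀ (by positivity)]
      have h1 : 0 ≤ (D - 216) * D := mul_nonneg (by linarith) hD0.le
      clear hq hle hXY hμ2 hX hY hd
      linarith

lemma upp2_gt_one {d : ℕ} (hd : 216 ≤ d) : 1 < upp2 d := by
  obtain ⟨hz, -⟩ := cube_root hd
  unfold upp2
  rw [half_e_pow, ← Real.exp_add]
  apply Real.one_lt_exp_iff.2
  have h1 : 0 ≤ (1 - Real.log 2) * (d : ℝ) := by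
    have := Real.log_two_lt_d9
    have h2 : 0 ≤ 1 - Real.log 2 := by linarith
    positivity
  linarith

lemma log_upp2 (d : ℕ) : Real.log (upp2 d) =
    (1 - Real.log 2) * d + 27 / 5 * (d : ℝ) ^ ((1 : ℝ) / 3) := by
  unfold upp2
  rw [half_e_pow, ← Real.exp_add, Real.log_exp]

lemma low2_pos {d : ℕ} (hd : 216 ≤ d) : 0 < low2 d := by
  have hd' : (216 : ℝ) ≤ d := by exact_mod_cast hd
  unfold low2
  have := Real.exp_pos 1
  have : (0 : ℝ) < d := by linarith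
  positivity

lemma log_low2 {d : ℕ} (hd : 216 ≤ d) : Real.log (low2 d) =
    (1 - Real.log 2) * d + ((d : ℝ) ^ ((1 : ℝ) / 3) - 8) - 3 * Real.log d := by
  have hd' : (216 : ℝ) ≤ d := by exact_mod_cast hd
  have hd0 : (0 : ℝ) < d := by linarith
  unfold low2
  rw [half_e_pow, ← Real.exp_add, Real.log_div (Real.exp_pos _).ne' (by positivity), Real.log_exp,
    Real.log_pow]
  norm_num

/-- the polynomial factor is negligible -/
lemma eventually_poly : ∀ᶠ d : ℕ in atTop,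
    8 + 3 * Real.log d ≤ 1 / 2 * (d : ℝ) ^ ((1 : ℝ) / 3) := by
  have h1 : ∀ᶠ x : ℝ in atTop, 8 + 3 * Real.log x ≤ 1 / 2 * x ^ ((1 : ℝ) / 3) := by
    have h2 := (isLittleO_log_rpow_atTop (r := 1 / 3) (by norm_num)).bound
      (c := 1 / 12) (by norm_num)
    have h3 : ∀ᶠ x : ℝ in atTop, 32 ≤ x ^ ((1 : ℝ) / 3) :=
      (tendsto_rpow_atTop (by norm_num : (0 : ℝ) < 1 / 3)).eventually_ge_atTop 32
    filter_upwards [h2, h3, eventually_ge_atTop 1] with x hx hx3 hx1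
    rw [Real.norm_of_nonneg (Real.log_nonneg hx1), Real.norm_of_nonneg (by linarith)] at hx
    linarith
  exact tendsto_natCast_atTop_atTop.eventually h1

end Pool.Agent.Lib.H38.Tor
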