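import Mathlib
import Pool.Agent.Lib.H38.Tor2.Growth

set_option autoImplicit false

/-!
# Limits of the explicit bounds
-/

namespace Pool.Agent.Lib.H38.Tor

open MeasureTheory Set Filter Topology

/-- explicit lower bound -/
noncomputable def lowB (x : ℝ) : ℝ := (Real.exp 1 / 2) ^ (x - √x) * Real.exp (-(√x / 2)) / x ^ 3

/-- explicit upper bound -/
noncomputable def uppB (x : ℝ) : ℝ := x ^ 2 * (Real.exp 1 / 2) ^ (x + 5 / 3 * x ^ ((2 : ℝ) / 3))

lemma lim_log : Tendsto (fun x : ℝ => Real.log x / x) atTop (𝓝 0) :=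
  Real.isLittleO_log_id_atTop.tendsto_div_nhds_zero

lemma lim_rpow {a : ℝ} (ha : 0 < a) : Tendsto (fun x : ℝ => x ^ (1 - a) / x) atTop (𝓝 0) := by
  refine (tendsto_rpow_neg_atTop ha).congr' ?_
  filter_upwards [eventually_gt_atTop 0] with x hx
  rw [← Real.rpow_sub_one hx.ne']
  congr 1
  ring

lemma lim_sqrt : Tendsto (fun x : ℝ => √x / x) atTop (𝓝 0) := by
  refine (lim_rpow (a := 1 / 2) (by norm_num)).congr (fun x => ?_)
  rw [Real.sqrt_eq_rpow]
  norm_num

lemma lowB_rpow {x : ℝ} (hx : 0 < x) : lowB x ^ (1 / x) =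
    Real.exp ((1 - Real.log 2) * (1 - √x / x) - √x / x / 2 - 3 * (Real.log x / x)) := by
  unfold lowB
  rw [half_e_rpow]
  have e : x ^ 3 = Real.exp (3 * Real.log x) := by
    rw [show (3 : ℝ) * Real.log x = ((3 : ℕ) : ℝ) * Real.log x by norm_num, Real.exp_nat_mul,
      Real.exp_log hx]
  rw [e, ← Real.exp_add, ← Real.exp_sub, ← Real.exp_mul]
  congr 1
  field_simp
  ring

lemma uppB_rpow {x : ℝ} (hx : 0 < x) : uppB x ^ (1 / x) =
    Real.exp ((1 - Real.log 2) * (1 + 5 / 3 * (x ^ ((2 : ℝ) / 3) / x)) +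
      2 * (Real.log x / x)) := by
  unfold uppB
  rw [half_e_rpow]
  have e : x ^ 2 = Real.exp (2 * Real.log x) := by
    rw [show (2 : ℝ) * Real.log x = ((2 : ℕ) : ℝ) * Real.log x by norm_num, Real.exp_nat_mul,
      Real.exp_log hx]
  rw [e, ← Real.exp_add, ← Real.exp_mul]
  congr 1
  field_simp
  ring

lemma half_e_eq : Real.exp 1 / 2 = Real.exp (1 - Real.log 2) := by
  rw [Real.exp_sub, Real.exp_log two_pos]

lemma lim_lower : Tendsto (fun x : ℝ => lowB x ^ (1 / x)) atTop (𝓝 (Real.exp 1 / 2)) := by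
  have h1 : Tendsto (fun x : ℝ => Real.exp ((1 - Real.log 2) * (1 - √x / x) - √x / x / 2 -
      3 * (Real.log x / x))) atTop
      (𝓝 (Real.exp ((1 - Real.log 2) * (1 - 0) - 0 / 2 - 3 * 0))) := by
    refine (Real.continuous_exp.tendsto _).comp ?_
    exact (((lim_sqrt.const_sub 1).const_mul _).sub (lim_sqrt.div_const 2)).sub
      (lim_log.const_mul 3)
  rw [show (1 - Real.log 2) * (1 - 0) - 0 / 2 - 3 * 0 = 1 - Real.log 2 by ring, ← half_e_eq] at h1
  refine h1.congr' ?_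
  filter_upwards [eventually_gt_atTop 0] with x hx
  exact (lowB_rpow hx).symm

lemma lim_upper : Tendsto (fun x : ℝ => uppB x ^ (1 / x)) atTop (𝓝 (Real.exp 1 / 2)) := by
  have h0 : Tendsto (fun x : ℝ => x ^ ((2 : ℝ) / 3) / x) atTop (𝓝 0) := by
    refine (lim_rpow (a := 1 / 3) (by norm_num)).congr (fun x => ?_)
    norm_num
  have h1 : Tendsto (fun x : ℝ => Real.exp ((1 - Real.log 2) *
      (1 + 5 / 3 * (x ^ ((2 : ℝ) / 3) / x)) + 2 * (Real.log x / x))) atTop
      (𝓝 (Real.exp ((1 - Real.log 2) * (1 + 5 / 3 * 0) + 2 * 0))) := by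
    refine (Real.continuous_exp.tendsto _).comp ?_
    exact (((h0.const_mul _).const_add 1).const_mul _).add (lim_log.const_mul 2)
  rw [show (1 - Real.log 2) * (1 + 5 / 3 * 0) + 2 * 0 = 1 - Real.log 2 by ring, ← half_e_eq] at h1
  refine h1.congr' ?_
  filter_upwards [eventually_gt_atTop 0] with x hx
  exact (uppB_rpow hx).symm

lemma uppB_gt_one {x : ℝ} (hx : 5 ≤ x) : 1 < uppB x := by
  unfold uppB
  rw [half_e_rpow]
  have h1 : 1 ≤ Real.exp ((1 - Real.log 2) * (x + 5 / 3 * x ^ ((2 : ℝ) / 3))) := by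
    apply Real.one_le_exp
    have := one_sub_log_two_pos
    have : 0 < x := by linarith
    positivity
  nlinarith

lemma lowB_nonneg {x : ℝ} (hx : 0 < x) : 0 ≤ lowB x := by
  unfold lowB
  have := Real.exp_pos 1
  positivity

end Pool.Agent.Lib.H38.Tor
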